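import Pool.Agent.K6.H25.RS.Fib
import Pool.Agent.W45.AK.UNI
import Pool.Agent.Y728.AK.Final

/-!
# Points with almost the same radical as another point: the affine coordinate
-/

set_option autoImplicit false
set_option linter.unusedSectionVars false

namespace Pool.Agent.K6.H25.RS

open NumberField IsDedekindDomain Finset Pool.Agent.H691R3 Pool.Agent.W223.AK
open Pool.Agent.TH876.Loc (sp nn hgt mem_sp nn_pos one_le_nn nn_mono)
open Pool.Agent.TH876.KR (log_nn)
open Pool.Agent.W462.AK (card_le_mul_fib)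

variable {K : Type} [Field K] [NumberField K]

/-- the support of the three ideals -/
theorem mem_supp_Pr3 {S : Finset (Pr K)} {x : K} {P : Fin 3 → Idl K} (hx : Pt x)
    (hP : IsP S x P) (v : Pr K) : Pr3 P v ≠ 0 ↔ v ∈ sp x ∧ v ∉ S := by
  classical
  constructor
  · intro h
    obtain ⟨l, hl⟩ := Pr3_ne h
    have hv : v ∉ S := fun hv => hl (hP.off l v hv)
    refine ⟨?_, hv⟩
    by_contra hcon
    have h1 := fv_lt_of_ne hP hl
    rw [mem_sp hx, not_not] at hcon
    have h2 : fv v (L l x) = 1 := by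
      fin_cases l
      · exact hcon.1
      · show fv v 1 = 1
        exact map_one _
      · exact hcon.2
    rw [h2, hcon.1, max_self] at h1
    exact lt_irrefl _ h1
  · rintro ⟨h1, h2⟩ h3
    rw [mem_sp hx] at h1
    apply h1
    have h4 : ∀ l, P l v = 0 := by
      intro l
      have := Pr3_ge P l v
      omega
    have h5 : ∀ l, fv v (L l x) = max (fv v x) 1 := by
      intro l
      have := hP.val l v h2
      rw [h4 l] at this
      simpa using this
    have a1 : fv v 1 = max (fv v x) 1 := h5 1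
    rw [map_one] at a1
    have a0 : fv v x = max (fv v x) 1 := h5 0
    have a2 : fv v (x + 1) = max (fv v x) 1 := h5 2
    rw [← a1] at a0 a2
    exact ⟨a0, a2⟩

open Classical in
theorem supp_Pr3 {S : Finset (Pr K)} {x : K} {P : Fin 3 → Idl K} (hx : Pt x)
    (hP : IsP S x P) : (Pr3 P).support = sp x \ S := by
  ext v
  rw [Finsupp.mem_support_iff, mem_supp_Pr3 hx hP, Finset.mem_sdiff]

open Classical in
theorem rl_Pr3 {S : Finset (Pr K)} {x : K} {P : Fin 3 → Idl K} (hx : Pt x)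
    (hP : IsP S x P) : rl (Pr3 P) = Real.log (nn (sp x \ S)) := by
  rw [log_nn, ← supp_Pr3 hx hP]
  rfl

theorem rl_Pr3_sum {S : Finset (Pr K)} {x : K} {P : Fin 3 → Idl K} (hP : IsP S x P) :
    rl (Pr3 P) = rl (P 0) + rl (P 1) + rl (P 2) := by
  classical
  have hsup : ∀ l, (P l).support ⊆ (Pr3 P).support := by
    intro l v hv
    rw [Finsupp.mem_support_iff] at hv ⊢
    have := Pr3_ge P l v
    omega
  rw [rl_eq_sum_ite _ (hsup 0), rl_eq_sum_ite _ (hsup 1), rl_eq_sum_ite _ (hsup 2),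
    rl_eq_sum_ite _ (Finset.Subset.refl (Pr3 P).support), ← Finset.sum_add_distrib,
    ← Finset.sum_add_distrib]
  refine Finset.sum_congr rfl fun v _ => ?_
  have e : Pr3 P v = P 0 v + P 1 v + P 2 v := rfl
  have h01 := hP.cop (show (0 : Fin 3) ≠ 1 by decide) v
  have h02 := hP.cop (show (0 : Fin 3) ≠ 2 by decide) v
  have h12 := hP.cop (show (1 : Fin 3) ≠ 2 by decide) v
  by_cases h0 : P 0 v = 0 <;> by_cases h1 : P 1 v = 0 <;> by_cases h2 : P 2 v = 0 <;>
    simp [h0, h1, h2, e] at h01 h02 h12 ⊢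

theorem GPt.mono {S : Finset (Pr K)} {P : Fin 3 → Idl K} {H κ H' κ' : ℝ} {x : K}
    (h : GPt S P H κ x) (hH : H ≤ H') (hκ : κ ≤ κ') : GPt S P H' κ' x :=
  ⟨h.pt, h.isP, h.hH.trans hH, fun u hu l => (h.lm_le u hu l).trans hκ,
    fun l => (h.sq l).trans (by linarith)⟩

theorem GPt.excess {S : Finset (Pr K)} {P : Fin 3 → Idl K} {H κ : ℝ} {x : K}
    (h : GPt S P H κ x) : len (Pr3 P) - rl (Pr3 P) ≤ 3 * κ := by
  rw [rl_Pr3_sum h.isP, len_Pr3]
  linarith [h.sq 0, h.sq 1, h.sq 2]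

/-- good points from the inequality between the height and the radical -/
theorem gpt_of {S : Finset (Pr K)} {P : Fin 3 → Idl K} {H κ : ℝ} {x : K} (hx : Pt x)
    (hP : IsP S x P) (h1 : ht x ≤ H) (hκ : 0 ≤ κ) (h2 : 3 * ht x ≤ rl (Pr3 P) + κ) :
    GPt S P H (κ + (6 * (Spl S).card + 2)) x := by
  classical
  have hs := fun l => Pool.Agent.W462.AK.ht_sum hx hP l
  rw [rl_Pr3_sum hP] at h2
  set N : ℝ := ((Spl S).card : ℝ) with hN
  have hN0 : 0 ≤ N := Nat.cast_nonneg _
  have hl : ∀ l, 0 ≤ ∑ u ∈ Spl S, (lm u l x + 2) := fun l =>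
    Finset.sum_nonneg fun u _ => by linarith [Pool.Agent.W462.AK.lm_ge hx u l]
  have hl2 : ∀ l, ∑ u ∈ Spl S, (lm u l x + 2) = ∑ u ∈ Spl S, lm u l x + 2 * N := by
    intro l
    rw [Finset.sum_add_distrib, Finset.sum_const, nsmul_eq_mul, ← hN]
    ring
  have hr := fun l => rl_le_len (P l)
  have s0 := hs 0
  have s1 := hs 1
  have s2 := hs 2
  have l0 := hl 0
  have l1 := hl 1
  have l2 := hl 2
  rw [hl2] at l0 l1 l2
  refine ⟨hx, hP, h1, fun u hu l => ?_, fun l => ?_⟩
  · have h3 : lm u l x + 2 ≤ ∑ u ∈ Spl S, (lm u l x + 2) :=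
      Finset.single_le_sum (f := fun u => lm u l x + 2)
        (fun u _ => by linarith [Pool.Agent.W462.AK.lm_ge hx u l]) hu
    rw [hl2] at h3
    have h4 := Pool.Agent.W462.AK.lm_ge hx u l
    rw [abs_le]
    constructor
    · linarith
    · fin_cases l <;> simp only [Fin.zero_eta, Fin.mk_one, Fin.reduceFinMk] at h3 h4 ⊢ <;>
        linarith [hr 0, hr 1, hr 2]
  · fin_cases l <;> simp only [Fin.zero_eta, Fin.mk_one, Fin.reduceFinMk] <;>
      linarith [hr 0, hr 1, hr 2]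

/-- the constant of `S` -/
noncomputable def cS (S : Finset (Pr K)) : ℝ := Real.log (nn S) + (6 * (Spl S).card + 2)

theorem cS_nonneg (S : Finset (Pr K)) : 0 ≤ cS S := by
  unfold cS
  have h1 := Real.log_nonneg (one_le_nn S)
  positivity

open Classical in
theorem log_nn_sdiff {T S : Finset (Pr K)} (A : Finset (Pr K)) :
    Real.log (nn (A \ T)) ≤ Real.log (nn (A \ S)) + Real.log (nn S) := by
  have h1 : nn (A \ T) ≤ nn S * nn (A \ S) := by
    refine (nn_mono Finset.sdiff_subset).trans (Pool.Agent.Y728.nn_le_mul A S)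
  have h2 := Real.log_le_log (nn_pos _) h1
  rw [Real.log_mul (nn_pos _).ne' (nn_pos _).ne'] at h2
  linarith

open Classical in
theorem good_gpt {T S : Finset (Pr K)} {P : Fin 3 → Idl K} {η Lx : ℝ} {x : K} (hx : Pt x)
    (hP : IsP S x P) (hη : 0 ≤ η) (hL : 0 ≤ Lx) (h1 : Real.log (nn (sp x \ T)) ≤ Lx)
    (h2 : hgt x ≤ (1 + η) / 3 * Real.log (nn (sp x \ T))) :
    GPt S P ((1 + η) / 3 * Lx) (η * Lx + cS S) x := by
  have h3 := (Pool.Agent.Y180.LK.ht_le_hgt hx).1
  have h4 := log_nn_sdiff (T := T) (S := S) (sp x)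
  rw [← rl_Pr3 hx hP] at h4
  have h5 := Real.log_nonneg (one_le_nn S)
  have h6 : (1 + η) / 3 * Real.log (nn (sp x \ T)) ≤ (1 + η) / 3 * Lx :=
    mul_le_mul_of_nonneg_left h1 (by positivity)
  have h7 : η * Real.log (nn (sp x \ T)) ≤ η * Lx := mul_le_mul_of_nonneg_left h1 hη
  have key := gpt_of (κ := η * Lx + Real.log (nn S)) hx hP (h3.trans (h2.trans h6))
    (by positivity) (by linarith)
  refine key.mono le_rfl (le_of_eq ?_)
  unfold cS
  ring

open Classical in
/-- the primes at which exactly one of the two points is not in general position -/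
noncomputable def sd (T : Finset (Pr K)) (x y : K) : Finset (Pr K) :=
  ((sp x \ sp y) ∪ (sp y \ sp x)) \ T

theorem tsub_le_sd {T S : Finset (Pr K)} (hTS : T ⊆ S) {P P' : Fin 3 → Idl K} {x y : K}
    {H κ : ℝ} (hg : GPt S P H κ x) (hy : Pt y) (hP' : IsP S y P') :
    len (Pr3 P - Pr3 P') ≤ Real.log (nn (sd T x y)) + 3 * κ ∧
    len (Pr3 P' - Pr3 P) ≤ Real.log (nn (sd T x y)) + (len (Pr3 P') - rl (Pr3 P')) := by
  classical
  have key : ∀ (A B : Fin 3 → Idl K) (a b : K), Pt a → IsP S a A → Pt b → IsP S b B →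
      sp a \ sp b ⊆ (sp x \ sp y) ∪ (sp y \ sp x) →
      len (Pr3 A - Pr3 B) ≤ Real.log (nn (sd T x y)) + (len (Pr3 A) - rl (Pr3 A)) := by
    intro A B a b ha hA hb hB hab
    refine (len_tsub_le _ _).trans (add_le_add_left ?_ _)
    rw [log_nn]
    refine Finset.sum_le_sum_of_subset_of_nonneg ?_ fun v _ _ =>
      Real.log_nonneg (Nv_one_lt v).le
    intro v hv
    rw [Finset.mem_filter, Finsupp.mem_support_iff, mem_supp_Pr3 ha hA] at hv
    obtain ⟨⟨h1, h2⟩, h3⟩ := hv
    have h4 : v ∉ sp b := fun h => (mem_supp_Pr3 hb hB v).2 ⟨h, h2⟩ h3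
    unfold sd
    rw [Finset.mem_sdiff]
    exact ⟨hab (Finset.mem_sdiff.2 ⟨h1, h4⟩), fun h => h2 (hTS h)⟩
  refine ⟨(key P P' x y hg.pt hg.isP hy hP' Finset.subset_union_left).trans ?_,
    key P' P y x hy hP' hg.pt hg.isP Finset.subset_union_right⟩
  linarith [hg.excess]

open Classical in
/-- the reduced ideal of a point -/
noncomputable def rad1 (S : Finset (Pr K)) (y : K) : Idl K :=
  ∑ v ∈ sp y \ S, Finsupp.single v 1

open Classical in
theorem rad1_apply (S : Finset (Pr K)) (y : K) (v : Pr K) :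
    rad1 S y v = if v ∈ sp y \ S then 1 else 0 := by
  unfold rad1
  rw [Finsupp.finsetSum_apply]
  simp only [Finsupp.single_apply]
  rw [Finset.sum_ite_eq']

open Classical in
theorem len_rad1 (S : Finset (Pr K)) (y : K) :
    len (rad1 S y) = Real.log (nn (sp y \ S)) := by
  rw [log_nn, len_eq_sum (s := sp y \ S)]
  · refine Finset.sum_congr rfl fun v hv => ?_
    rw [rad1_apply, if_pos hv, Nat.cast_one, one_mul]
  · intro v hv
    rw [Finsupp.mem_support_iff, rad1_apply] at hv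
    by_contra h
    rw [if_neg h] at hv
    exact hv rfl

theorem tsub_rad1_le {T S : Finset (Pr K)} (hTS : T ⊆ S) {P : Fin 3 → Idl K} {x y : K}
    {H κ : ℝ} (hg : GPt S P H κ x) :
    len (Pr3 P - rad1 S y) ≤ Real.log (nn (sd T x y)) + 3 * κ := by
  classical
  refine (len_tsub_le _ _).trans (add_le_add ?_ hg.excess)
  rw [log_nn]
  refine Finset.sum_le_sum_of_subset_of_nonneg ?_ fun v _ _ =>
    Real.log_nonneg (Nv_one_lt v).le
  intro v hv
  rw [Finset.mem_filter, Finsupp.mem_support_iff, mem_supp_Pr3 hg.pt hg.isP, rad1_apply] at hv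
  obtain ⟨⟨h1, h2⟩, h3⟩ := hv
  have h4 : v ∉ sp y := by
    intro h
    rw [if_pos (Finset.mem_sdiff.2 ⟨h, h2⟩)] at h3
    exact one_ne_zero h3
  unfold sd
  rw [Finset.mem_sdiff]
  exact ⟨Finset.mem_union_left _ (Finset.mem_sdiff.2 ⟨h1, h4⟩), fun h => h2 (hTS h)⟩

end Pool.Agent.K6.H25.RS
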