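import Pool.Agent.W462.AK.Pre

/-!
# The equation `w α β (α + β) = w' α' β' (α' + β')` over a number field, with `α = r g`, `β = h ξ`,
`α' = s g`, `β' = h ζ`
-/

set_option autoImplicit false
set_option linter.unusedSectionVars false

namespace Pool.Agent.K6.H25.RS

open NumberField IsDedekindDomain Finset Pool.Agent.H691R3 Pool.Agent.W223.AK

section Field

variable {K : Type} [Field K]

/-- the coordinates of the point, with sum zero -/
def cc (l : Fin 3) (x : K) : K := ![x, 1, -x - 1] l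

/-- the points `(x : 1 : -x-1)` and `(y : 1 : -y-1)` are permutations of each other -/
def IsPerm (x y : K) : Prop :=
  ∃ (σ : Equiv.Perm (Fin 3)) (t : K), t ≠ 0 ∧ ∀ l, cc l y = t * cc (σ l) x

theorem cc_sum (x : K) : ∑ l, cc l x = 0 := by
  rw [Fin.sum_univ_three]
  show x + 1 + (-x - 1) = 0
  ring

theorem cc_sum' (x : K) {i j k : Fin 3} (hij : i ≠ j) (hjk : j ≠ k) (hik : i ≠ k) :
    cc i x + cc j x + cc k x = 0 := by
  have h := cc_sum x
  rw [Fin.sum_univ_three] at h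
  fin_cases i <;> fin_cases j <;> fin_cases k <;> simp at hij hjk hik ⊢ <;> linear_combination h

theorem exists_perm : ∀ i i' j j' : Fin 3, i ≠ i' → j ≠ j' →
    ∃ σ : Equiv.Perm (Fin 3), σ j = i ∧ σ j' = i' := by decide

theorem third : ∀ j j' l b : Fin 3, j ≠ j' → l ≠ j → l ≠ j' → b ≠ l → b = j ∨ b = j' := by decide

theorem perm_of {x y t : K} {i i' j j' : Fin 3} (hi : i ≠ i') (hj : j ≠ j') (ht : t ≠ 0)
    (h1 : cc j y = t * cc i x) (h2 : cc j' y = t * cc i' x) : IsPerm x y := by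
  obtain ⟨σ, s1, s2⟩ := exists_perm i i' j j' hi hj
  refine ⟨σ, t, ht, fun l => ?_⟩
  have hsum : ∑ b, (cc b y - t * cc (σ b) x) = 0 := by
    rw [Finset.sum_sub_distrib, cc_sum, ← Finset.mul_sum, Equiv.sum_comp σ (fun b => cc b x),
      cc_sum, mul_zero, sub_zero]
  have e1 : cc j y - t * cc (σ j) x = 0 := by rw [s1, h1, sub_self]
  have e2 : cc j' y - t * cc (σ j') x = 0 := by rw [s2, h2, sub_self]
  by_cases l1 : l = j
  · rw [l1]; exact sub_eq_zero.1 e1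
  by_cases l2 : l = j'
  · rw [l2]; exact sub_eq_zero.1 e2
  rw [Finset.sum_eq_single l (fun b _ hb => by
    rcases third j j' l b hj l1 l2 hb with h | h
    · rw [h]; exact e1
    · rw [h]; exact e2) (fun h => absurd (mem_univ l) h)] at hsum
  exact sub_eq_zero.1 hsum

theorem exists_third : ∀ i i' : Fin 3, i ≠ i' → ∃ k, i' ≠ k ∧ i ≠ k := by decide

/-- the data of a solution -/
structure Eqn (w w' r s g h ξ ζ : K) : Prop where
  w0 : w ≠ 0
  w'0 : w' ≠ 0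
  r0 : r ≠ 0
  s0 : s ≠ 0
  g0 : g ≠ 0
  h0 : h ≠ 0
  ξ0 : ξ ≠ 0
  ζ0 : ζ ≠ 0
  eq : w * (r * g) * (h * ξ) * (r * g + h * ξ) = w' * (s * g) * (h * ζ) * (s * g + h * ζ)

/-- the quotient -/
def uu (w w' r s h ξ ζ : K) : K := (w * r ^ 2 * ξ - w' * s ^ 2 * ζ) / h

/-- the number divisible by the quotient -/
def DD (w w' r s : K) : K := w * w' * r * s * (w * r ^ 3 - w' * s ^ 3)

variable {w w' r s g h ξ ζ : K}

theorem Eqn.hu (E : Eqn w w' r s g h ξ ζ) :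
    h * uu w w' r s h ξ ζ = w * r ^ 2 * ξ - w' * s ^ 2 * ζ := by
  unfold uu
  rw [mul_div_cancel₀ _ E.h0]

theorem Eqn.gu (E : Eqn w w' r s g h ξ ζ) :
    g * uu w w' r s h ξ ζ = w' * s * ζ ^ 2 - w * r * ξ ^ 2 := by
  have h1 := E.eq
  have h2 := E.hu
  have h3 : (h * (g * h)) * (g * uu w w' r s h ξ ζ) =
      (h * (g * h)) * (w' * s * ζ ^ 2 - w * r * ξ ^ 2) := by
    linear_combination h * g ^ 2 * h2 + h1
  exact mul_left_cancel₀ (mul_ne_zero E.h0 (mul_ne_zero E.g0 E.h0)) h3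

/-- **The degenerate solutions.** -/
theorem Eqn.degenerate (E : Eqn w w' r s g h ξ ζ)
    (hd : uu w w' r s h ξ ζ = 0 ∨ DD w w' r s = 0) :
    (s * g = s / r * (r * g) ∧ h * ζ = s / r * (h * ξ)) ∨
      (s * g = s / r * (r * g) ∧ h * ζ = s / r * (-(r * g) - h * ξ)) := by
  have h1 := E.hu
  have h2 := E.gu
  have r0 := E.r0
  have s0 := E.s0
  have e0 : s * g = s / r * (r * g) := by field_simp
  by_cases hp : r * ζ = s * ξ
  · refine Or.inl ⟨e0, ?_⟩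
    field_simp
    linear_combination h * hp
  have hu : uu w w' r s h ξ ζ ≠ 0 := by
    intro hu
    rw [hu, mul_zero] at h1 h2
    apply hp
    have h3 : (w * r * ξ) * (r * ζ) = (w * r * ξ) * (s * ξ) := by
      linear_combination (-ζ) * h1 - s * h2
    exact mul_left_cancel₀ (mul_ne_zero (mul_ne_zero E.w0 r0) E.ξ0) h3
  have hD : w * r ^ 3 = w' * s ^ 3 := by
    rcases hd with h | h
    · exact absurd h hu
    · unfold DD at h
      have h3 : w * w' * r * s ≠ 0 := mul_ne_zero (mul_ne_zero (mul_ne_zero E.w0 E.w'0) r0) s0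
      exact sub_eq_zero.1 ((mul_eq_zero.1 h).resolve_left h3)
  refine Or.inr ⟨e0, ?_⟩
  have h3 : s * ξ - r * ζ ≠ 0 := fun h => hp (by linear_combination -h)
  have h4 : g * s * r = -(h * (s * ξ + r * ζ)) := by
    have h5 : g * (w * r ^ 2 * ξ - w' * s ^ 2 * ζ) = h * (w' * s * ζ ^ 2 - w * r * ξ ^ 2) := by
      rw [← h1, ← h2]; ring
    have h6 : (w * r * (s * ξ - r * ζ)) * (g * s * r) =
        (w * r * (s * ξ - r * ζ)) * (-(h * (s * ξ + r * ζ))) := by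
      linear_combination (s ^ 2) * h5 + (-(g * s * ζ) - h * ζ ^ 2) * hD
    exact mul_left_cancel₀ (mul_ne_zero (mul_ne_zero E.w0 r0) h3) h6
  field_simp
  linear_combination h4

/-- the degenerate solutions are permutations -/
theorem Eqn.perm (E : Eqn w w' r s g h ξ ζ) {x y m m' : K} {i i' j j' : Fin 3} (hi : i ≠ i')
    (hj : j ≠ j') (hm : m ≠ 0) (hm' : m' ≠ 0) (h1 : r * g = m * cc i x) (h2 : h * ξ = m * cc i' x)
    (h3 : s * g = m' * cc j y) (h4 : h * ζ = m' * cc j' y)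
    (hd : uu w w' r s h ξ ζ = 0 ∨ DD w w' r s = 0) : IsPerm x y := by
  have ht : s / r * m / m' ≠ 0 :=
    div_ne_zero (mul_ne_zero (div_ne_zero E.s0 E.r0) hm) hm'
  rcases E.degenerate hd with ⟨d1, d2⟩ | ⟨d1, d2⟩
  · refine perm_of hi hj ht ?_ ?_
    · rw [h3, h1] at d1
      rw [div_mul_eq_mul_div, eq_div_iff hm']
      linear_combination d1
    · rw [h4, h2] at d2
      rw [div_mul_eq_mul_div, eq_div_iff hm']
      linear_combination d2
  · obtain ⟨k, hk1, hk2⟩ := exists_third i i' hi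
    have hs := cc_sum' x hi hk1 hk2
    refine perm_of hk2 hj ht ?_ ?_
    · rw [h3, h1] at d1
      rw [div_mul_eq_mul_div, eq_div_iff hm']
      linear_combination d1
    · rw [h4, h1, h2] at d2
      rw [div_mul_eq_mul_div, eq_div_iff hm']
      linear_combination d2 - s / r * m * hs

theorem dvd1 (E : Eqn w w' r s g h ξ ζ) :
    w' * s * ζ ^ 2 * (w * r ^ 3 - w' * s ^ 3) = uu w w' r s h ξ ζ *
      (w * r ^ 3 * g + h * (w * r ^ 2 * ξ + w' * s ^ 2 * ζ)) := by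
  linear_combination (-(w * r ^ 3)) * E.gu - (w * r ^ 2 * ξ + w' * s ^ 2 * ζ) * E.hu

theorem dvd2 (E : Eqn w w' r s g h ξ ζ) :
    w * r * ξ ^ 2 * (w * r ^ 3 - w' * s ^ 3) = uu w w' r s h ξ ζ *
      (w' * s ^ 3 * g + h * (w * r ^ 2 * ξ + w' * s ^ 2 * ζ)) := by
  linear_combination (-(w' * s ^ 3)) * E.gu - (w * r ^ 2 * ξ + w' * s ^ 2 * ζ) * E.hu

end Field

section Val

variable {K : Type} [Field K] [NumberField K] {w w' r s g h ξ ζ : K}

/-- integrality at a prime -/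
structure IntAt (v : Pr K) (w w' r s g h ξ ζ : K) : Prop where
  w1 : fv v w ≤ 1
  w'1 : fv v w' ≤ 1
  r1 : fv v r ≤ 1
  s1 : fv v s ≤ 1
  g1 : fv v g ≤ 1
  h1 : fv v h ≤ 1
  ξ1 : fv v ξ ≤ 1
  ζ1 : fv v ζ ≤ 1
  gh : fv v g = 1 ∨ fv v h = 1
  rs : fv v r = 1 ∨ fv v s = 1
  xz : fv v ξ = 1 ∨ fv v ζ = 1

theorem fv_mul_le_one {v : Pr K} {a b : K} (ha : fv v a ≤ 1) (hb : fv v b ≤ 1) :
    fv v (a * b) ≤ 1 := by
  rw [map_mul]
  exact mul_le_one₀ ha ((fv v).nonneg _) hb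

theorem fv_pow_le_one {v : Pr K} {a : K} (ha : fv v a ≤ 1) (n : ℕ) : fv v (a ^ n) ≤ 1 := by
  rw [map_pow]
  exact pow_le_one₀ ((fv v).nonneg _) ha

theorem fv_add_le_one {v : Pr K} {a b : K} (ha : fv v a ≤ 1) (hb : fv v b ≤ 1) :
    fv v (a + b) ≤ 1 := (fv_na v _ _).trans (max_le ha hb)

theorem fv_sub_le_one' {v : Pr K} {a b : K} (ha : fv v a ≤ 1) (hb : fv v b ≤ 1) :
    fv v (a - b) ≤ 1 := Pool.Agent.W462.AK.fv_sub_le_one v ha hb

theorem u_int {v : Pr K} (E : Eqn w w' r s g h ξ ζ) (I : IntAt v w w' r s g h ξ ζ) :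
    fv v (uu w w' r s h ξ ζ) ≤ 1 := by
  rcases I.gh with hg | hh
  · have h1 := congrArg (fv v) E.gu
    rw [map_mul, hg, one_mul] at h1
    rw [h1]
    exact fv_sub_le_one' (fv_mul_le_one (fv_mul_le_one I.w'1 I.s1) (fv_pow_le_one I.ζ1 2))
      (fv_mul_le_one (fv_mul_le_one I.w1 I.r1) (fv_pow_le_one I.ξ1 2))
  · have h1 := congrArg (fv v) E.hu
    rw [map_mul, hh, one_mul] at h1
    rw [h1]
    exact fv_sub_le_one' (fv_mul_le_one (fv_mul_le_one I.w1 (fv_pow_le_one I.r1 2)) I.ξ1)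
      (fv_mul_le_one (fv_mul_le_one I.w'1 (fv_pow_le_one I.s1 2)) I.ζ1)

theorem D_le {v : Pr K} (E : Eqn w w' r s g h ξ ζ) (I : IntAt v w w' r s g h ξ ζ) :
    fv v (DD w w' r s) ≤ fv v (uu w w' r s h ξ ζ) := by
  have hq : fv v (h * (w * r ^ 2 * ξ + w' * s ^ 2 * ζ)) ≤ 1 :=
    fv_mul_le_one I.h1 (fv_add_le_one
      (fv_mul_le_one (fv_mul_le_one I.w1 (fv_pow_le_one I.r1 2)) I.ξ1)
      (fv_mul_le_one (fv_mul_le_one I.w'1 (fv_pow_le_one I.s1 2)) I.ζ1))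
  have hu0 := (fv v).nonneg (uu w w' r s h ξ ζ)
  rcases I.xz with hx | hz
  · have h1 := congrArg (fv v) (dvd2 E)
    have h2 : fv v (w * r * ξ ^ 2 * (w * r ^ 3 - w' * s ^ 3)) =
        fv v (w * r * (w * r ^ 3 - w' * s ^ 3)) := by
      rw [map_mul, map_mul, map_mul, map_pow, hx, one_pow, mul_one, map_mul, map_mul]
    rw [h2, map_mul (fv v) (uu w w' r s h ξ ζ)] at h1
    have h3 : fv v (w' * s ^ 3 * g + h * (w * r ^ 2 * ξ + w' * s ^ 2 * ζ)) ≤ 1 :=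
      fv_add_le_one (fv_mul_le_one (fv_mul_le_one I.w'1 (fv_pow_le_one I.s1 3)) I.g1) hq
    have h4 : DD w w' r s = (w' * s) * (w * r * (w * r ^ 3 - w' * s ^ 3)) := by
      unfold DD; ring
    rw [h4, map_mul]
    calc fv v (w' * s) * fv v (w * r * (w * r ^ 3 - w' * s ^ 3))
        ≤ 1 * fv v (w * r * (w * r ^ 3 - w' * s ^ 3)) :=
          mul_le_mul_of_nonneg_right (fv_mul_le_one I.w'1 I.s1) ((fv v).nonneg _)
      _ = _ := by rw [one_mul, h1]
      _ ≤ fv v (uu w w' r s h ξ ζ) * 1 := mul_le_mul_of_nonneg_left h3 hu0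
      _ = _ := mul_one _
  · have h1 := congrArg (fv v) (dvd1 E)
    have h2 : fv v (w' * s * ζ ^ 2 * (w * r ^ 3 - w' * s ^ 3)) =
        fv v (w' * s * (w * r ^ 3 - w' * s ^ 3)) := by
      rw [map_mul, map_mul, map_mul, map_pow, hz, one_pow, mul_one, map_mul, map_mul]
    rw [h2, map_mul (fv v) (uu w w' r s h ξ ζ)] at h1
    have h3 : fv v (w * r ^ 3 * g + h * (w * r ^ 2 * ξ + w' * s ^ 2 * ζ)) ≤ 1 :=
      fv_add_le_one (fv_mul_le_one (fv_mul_le_one I.w1 (fv_pow_le_one I.r1 3)) I.g1) hq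
    have h4 : DD w w' r s = (w * r) * (w' * s * (w * r ^ 3 - w' * s ^ 3)) := by
      unfold DD; ring
    rw [h4, map_mul]
    calc fv v (w * r) * fv v (w' * s * (w * r ^ 3 - w' * s ^ 3))
        ≤ 1 * fv v (w' * s * (w * r ^ 3 - w' * s ^ 3)) :=
          mul_le_mul_of_nonneg_right (fv_mul_le_one I.w1 I.r1) ((fv v).nonneg _)
      _ = _ := by rw [one_mul, h1]
      _ ≤ fv v (uu w w' r s h ξ ζ) * 1 := mul_le_mul_of_nonneg_left h3 hu0
      _ = _ := mul_one _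

/-- two solutions with the same `w, w', r, s, h` and the same quotient -/
theorem diff_int {v : Pr K} {g' ξ' ζ' : K} (E : Eqn w w' r s g h ξ ζ)
    (E' : Eqn w w' r s g' h ξ' ζ') (I : IntAt v w w' r s g h ξ ζ)
    (I' : IntAt v w w' r s g' h ξ' ζ') (hu : uu w w' r s h ξ ζ = uu w w' r s h ξ' ζ') :
    fv v (w' * (ζ - ζ') / r ^ 2) ≤ 1 := by
  have h1 := E.hu
  have h2 := E'.hu
  rw [hu, h2] at h1
  have h3 : s ^ 2 * (w' * (ζ - ζ')) = r ^ 2 * (w * (ξ - ξ')) := by linear_combination h1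
  have hr0 : 0 < fv v (r ^ 2) := (fv v).pos (pow_ne_zero _ E.r0)
  rw [map_div₀, div_le_one hr0]
  rcases I.rs with hr | hs
  · rw [map_pow, hr, one_pow]
    exact fv_mul_le_one I.w'1 (fv_sub_le_one' I.ζ1 I'.ζ1)
  · have h4 := congrArg (fv v) h3
    rw [map_mul (fv v) (s ^ 2), map_pow, hs, one_pow, one_mul, map_mul (fv v) (r ^ 2)] at h4
    rw [h4]
    calc fv v (r ^ 2) * fv v (w * (ξ - ξ')) ≤ fv v (r ^ 2) * 1 :=
          mul_le_mul_of_nonneg_left (fv_mul_le_one I.w1 (fv_sub_le_one' I.ξ1 I'.ξ1)) hr0.le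
      _ = _ := mul_one _

end Val

end Pool.Agent.K6.H25.RS
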