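import Pool.Agent.K6.H25.RS.Aff

/-!
# Points with almost the same radical as another point: the assembly
-/

set_option autoImplicit false
set_option linter.unusedSectionVars false

namespace Pool.Agent.K6.H25.RS

open NumberField IsDedekindDomain Finset Pool.Agent.H691R3 Pool.Agent.W223.AK
open Pool.Agent.TH876.Loc (sp nn hgt mem_sp nn_pos one_le_nn nn_mono)
open Pool.Agent.TH876.KR (log_nn)
open Pool.Agent.W462.AK (card_le_mul_fib)

variable {K : Type} [Field K] [NumberField K]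

open Classical in
/-- pairs of good points -/
theorem pairs_good {T S : Finset (Pr K)} (hTS : T ⊆ S) {ϖ : Pr K → K} {C : ℝ}
    (hU : Unif S ϖ C) : ∃ η₁ D : ℝ, 0 < η₁ ∧ η₁ ≤ 1 / 1000 ∧ 0 < D ∧
    ∀ (Lx : ℝ) (E : Finset K) (y : K → K), 0 ≤ Lx →
    (∀ x ∈ E, Pt x ∧ Pt (y x) ∧ Real.log (nn (sp x \ T)) ≤ Lx ∧
      Real.log (nn (sp (y x) \ T)) ≤ Lx ∧ (1 - 1 / 100) * Lx ≤ Real.log (nn (sp x \ T)) ∧
      hgt x ≤ (1 + η₁) / 3 * Real.log (nn (sp x \ T)) ∧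
      hgt (y x) ≤ (1 + η₁) / 3 * Real.log (nn (sp (y x) \ T)) ∧ ¬ IsPerm x (y x) ∧
      Real.log (nn (sd T x (y x))) ≤ η₁ * Lx) →
    (E.card : ℝ) ≤ D * Real.exp ((2 / 3 - 1 / 20) * Lx) := by
  obtain ⟨D, c₁, hD, hc₁, key⟩ := pair_count hU (ε := 1 / 100) (by norm_num)
  set η₁ : ℝ := 1 / (1000 * (c₁ + 1)) with hη₁
  have hη0 : 0 < η₁ := by positivity
  have hη1 : η₁ ≤ 1 / 1000 := by
    rw [hη₁]
    apply one_div_le_one_div_of_le (by norm_num)
    linarith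
  have hηc : c₁ * η₁ ≤ 1 / 1000 := by
    rw [hη₁, mul_one_div, div_le_div_iff₀ (by positivity) (by norm_num)]
    linarith
  have hc0 := cS_nonneg S
  have hs0 := Real.log_nonneg (one_le_nn S)
  refine ⟨η₁, D * Real.exp (Real.log (nn S) / 9 + c₁ * (4 * cS S)), hη0, hη1, by positivity, ?_⟩
  intro Lx E y hL hE
  have hex : ∀ x : K, ∃ P : Fin 3 → Idl K, Pt x → IsP S x P := by
    intro x
    by_cases hx : Pt x
    · obtain ⟨P, hP⟩ := exists_isP S hx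
      exact ⟨P, fun _ => hP⟩
    · exact ⟨0, fun h => absurd h hx⟩
  choose P hP using hex
  set κ : ℝ := 4 * η₁ * Lx + 4 * cS S with hκ
  have hκ0 : 0 ≤ κ := by positivity
  have hinj : Set.InjOn (fun x => (x, y x)) (E : Set K) := fun a _ b _ h => (Prod.ext_iff.1 h).1
  have h1 := key P ((1 + η₁) / 3 * Lx) κ ((1 - 1 / 100) * Lx - Real.log (nn S)) (by positivity)
    hκ0 (E.image (fun x => (x, y x))) ?_
  · rw [Finset.card_image_of_injOn hinj] at h1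
    refine h1.trans ?_
    rw [mul_assoc, ← Real.exp_add]
    refine mul_le_mul_of_nonneg_left (Real.exp_le_exp.2 ?_) hD.le
    rw [hκ]
    have e1 : c₁ * (4 * η₁ * Lx + 4 * cS S) = 4 * (c₁ * η₁) * Lx + c₁ * (4 * cS S) := by ring
    rw [e1]
    have e2 : 4 * (c₁ * η₁) * Lx ≤ 4 * (1 / 1000) * Lx := by
      refine mul_le_mul_of_nonneg_right ?_ hL
      linarith
    have e3 : (2 + 1 / 100) * ((1 + η₁) / 3 * Lx) ≤ (2 + 1 / 100) * ((1 + 1 / 1000) / 3 * Lx) := by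
      have : η₁ * Lx ≤ 1 / 1000 * Lx := mul_le_mul_of_nonneg_right hη1 hL
      linarith
    linarith
  · intro t ht
    obtain ⟨x, hx, rfl⟩ := Finset.mem_image.1 ht
    obtain ⟨a1, a2, a3, a4, a5, a6, a7, a8, a9⟩ := hE x hx
    have gx := good_gpt (S := S) a1 (hP x a1) hη0.le hL a3 a6
    have gy := good_gpt (S := S) a2 (hP (y x) a2) hη0.le hL a4 a7
    have hm : η₁ * Lx + cS S ≤ κ := by
      rw [hκ]
      nlinarith [mul_nonneg hη0.le hL]
    have ts := tsub_le_sd (T := T) hTS gx a2 (hP (y x) a2)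
    have ey := gy.excess
    have hrl := log_nn_sdiff (T := T) (S := S) (sp x)
    rw [← rl_Pr3 a1 (hP x a1)] at hrl
    have hb : Real.log (nn (sd T x (y x))) + 3 * (η₁ * Lx + cS S) ≤ κ := by
      rw [hκ]
      linarith
    refine ⟨gx.mono le_rfl hm, gy.mono le_rfl hm, ?_, ?_, ?_, a8⟩
    · exact (ts.2.trans (by linarith)).trans hb
    · exact ts.1.trans hb
    · show _ ≤ rl (Pr3 (P x))
      linarith

open Classical in
/-- good points with a bad partner -/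
theorem pairs_bad {T S : Finset (Pr K)} (hTS : T ⊆ S) {ϖ : Pr K → K} {C : ℝ}
    (hU : Unif S ϖ C) {ν₁ C₁ : ℝ} (hν₁ : 0 < ν₁) (hC₁ : 0 < C₁) :
    ∃ D : ℝ, 0 < D ∧ ∀ (η₀ Lx : ℝ) (E : Finset K) (y : K → K), 0 ≤ Lx → 0 ≤ η₀ → η₀ ≤ ν₁ / 32 →
    η₀ ≤ 1 →
    (((E.image y).card : ℝ) ≤ C₁ * Real.exp ((2 / 3 - ν₁) * Lx)) →
    (∀ x ∈ E, Pt x ∧ Real.log (nn (sp x \ T)) ≤ Lx ∧ Real.log (nn (sp (y x) \ T)) ≤ Lx ∧
      hgt x ≤ (1 + η₀) / 3 * Real.log (nn (sp x \ T)) ∧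
      Real.log (nn (sd T x (y x))) ≤ η₀ * Lx) →
    (E.card : ℝ) ≤ D * Real.exp ((2 / 3 - ν₁ / 2) * Lx) := by
  obtain ⟨D, hD, key⟩ := fibre hU (ε := ν₁ / 16) (by positivity)
  have hc0 := cS_nonneg S
  refine ⟨C₁ * (D * Real.exp (6 * cS S)), by positivity, ?_⟩
  intro η₀ Lx E y hL hη0 hη1 hη2 hY hE
  have hex : ∀ x : K, ∃ P : Fin 3 → Idl K, Pt x → IsP S x P := by
    intro x
    by_cases hx : Pt x
    · obtain ⟨P, hP⟩ := exists_isP S hx
      exact ⟨P, fun _ => hP⟩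
    · exact ⟨0, fun h => absurd h hx⟩
  choose P hP using hex
  have h1 := card_le_mul_fib E y _ (D * Real.exp (6 * cS S) * Real.exp (ν₁ / 2 * Lx))
    (by positivity) hY ?_
  · refine h1.trans (le_of_eq ?_)
    have e : Real.exp ((2 / 3 - ν₁ / 2) * Lx) = Real.exp ((2 / 3 - ν₁) * Lx) *
        Real.exp (ν₁ / 2 * Lx) := by
      rw [← Real.exp_add]
      congr 1
      ring
    rw [e]
    ring
  · intro z hz
    have hLS : len (rad1 S z) ≤ Lx := by
      rw [len_rad1]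
      obtain ⟨x, hx, rfl⟩ := Finset.mem_image.1 hz
      refine le_trans (Real.log_le_log (nn_pos _) (nn_mono ?_)) (hE x hx).2.2.1
      exact Finset.sdiff_subset_sdiff (Finset.Subset.refl _) hTS
    have hz0 := len_nonneg (rad1 S z)
    have h2 := key P ((1 + η₀) / 3 * Lx) (η₀ * Lx + 3 * (η₀ * Lx + cS S)) (rad1 S z)
      (by positivity) (by positivity) (E.filter (fun x => y x = z)) ?_
    · refine h2.trans ?_
      rw [mul_assoc D, ← Real.exp_add]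
      refine mul_le_mul_of_nonneg_left (Real.exp_le_exp.2 ?_) hD.le
      have e1 : η₀ * Lx ≤ ν₁ / 32 * Lx := mul_le_mul_of_nonneg_right hη1 hL
      have e2 : (1 + η₀) / 3 * Lx ≤ Lx := by
        have : η₀ * Lx ≤ 1 * Lx := mul_le_mul_of_nonneg_right hη2 hL
        linarith
      have e3 : ν₁ / 16 * ((1 + η₀) / 3 * Lx + len (rad1 S z)) ≤ ν₁ / 16 * (Lx + Lx) :=
        mul_le_mul_of_nonneg_left (by linarith) (by positivity)
      have e4 : 0 ≤ ν₁ * Lx := by positivity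
      linarith
    · intro x hx
      obtain ⟨hx1, hx2⟩ := Finset.mem_filter.1 hx
      obtain ⟨a1, a2, a3, a4, a5⟩ := hE x hx1
      have gx := good_gpt (S := S) a1 (hP x a1) hη0 hL a2 a4
      have ts := tsub_rad1_le (T := T) (y := z) hTS gx
      rw [← hx2] at ts ⊢
      have hm : η₀ * Lx + cS S ≤ η₀ * Lx + 3 * (η₀ * Lx + cS S) := by
        have : 0 ≤ η₀ * Lx := by positivity
        linarith
      exact ⟨gx.mono le_rfl hm, ts.trans (by linarith)⟩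

open Classical in
/-- **The affine theorem.** -/
theorem aff_pairs (K : Type) [Field K] [NumberField K] (T : Finset (Pr K)) :
    ∃ η ν C : ℝ, 0 < η ∧ 0 < ν ∧ ν ≤ 1 / 1000 ∧ 0 < C ∧ ∀ (X : ℝ), 1 ≤ X → ∀ E : Finset K,
    (∀ x ∈ E, Pt x ∧ nn (sp x \ T) ≤ X ∧ ∃ y, Pt y ∧ nn (sp y \ T) ≤ X ∧ ¬ IsPerm x y ∧
      Real.log (nn (sd T x y)) ≤ η * Real.log X) →
    (E.card : ℝ) ≤ C * X ^ (2 / 3 - ν) := by
  obtain ⟨S, hTS, ϖ, CU, hU⟩ := Pool.Agent.W45.AK.uni (K := K) T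
  obtain ⟨η₁, Da, hη₁, hη₁1, hDa, partA⟩ := pairs_good (T := T) hTS hU
  have hAA := Pool.Agent.Y728.AK.almost_allK K
  obtain ⟨ν₁, hν₁, C₁, hC₁, exc1⟩ := Pool.Agent.Y728.AK.exc_aff K hAA T
    (M := (1 + η₁) / 3) (by linarith)
  obtain ⟨Db, hDb, partB⟩ := pairs_bad (T := T) hTS hU hν₁ hC₁
  set η₀ : ℝ := min η₁ (ν₁ / 32) with hη₀
  have hη₀0 : 0 < η₀ := lt_min hη₁ (by positivity)
  have hη₀1 : η₀ ≤ η₁ := min_le_left _ _
  have hη₀2 : η₀ ≤ ν₁ / 32 := min_le_right _ _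
  obtain ⟨ν₀, hν₀, C₀, hC₀, exc0⟩ := Pool.Agent.Y728.AK.exc_aff K hAA T
    (M := (1 + η₀) / 3) (by linarith)
  obtain ⟨Dm, hDm, small⟩ := Pool.Agent.Y728.mainK K (1 / 300) (by norm_num)
  set t := nn T with ht
  have ht1 : 1 ≤ t := one_le_nn T
  have ht0 : 0 < t := nn_pos T
  set ν : ℝ := min (1 / 1000) (min ν₀ (ν₁ / 2)) with hν
  have hν0 : 0 < ν := lt_min (by norm_num) (lt_min hν₀ (by positivity))
  have hνa : ν ≤ 1 / 1000 := min_le_left _ _
  have hνb : ν ≤ ν₀ := (min_le_right _ _).trans (min_le_left _ _)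
  have hνc : ν ≤ ν₁ / 2 := (min_le_right _ _).trans (min_le_right _ _)
  refine ⟨η₀, ν, Dm * t ^ (2 / 3 + 1 / 300 : ℝ) + C₀ + Da + Db, hη₀0, hν0, hνa, by positivity, ?_⟩
  intro X hX E hE
  have hX0 : 0 < X := by linarith
  set Lx := Real.log X with hLx
  have hL : 0 ≤ Lx := Real.log_nonneg hX
  have hexp : ∀ a : ℝ, X ^ a = Real.exp (a * Lx) := fun a => by
    rw [Real.rpow_def_of_pos hX0, mul_comm]
  have hlog : ∀ z : K, nn (sp z \ T) ≤ X → Real.log (nn (sp z \ T)) ≤ Lx := fun z hz =>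
    Real.log_le_log (nn_pos _) hz
  -- the partner
  have hex : ∀ x : K, ∃ y : K, x ∈ E → (Pt y ∧ nn (sp y \ T) ≤ X ∧ ¬ IsPerm x y ∧
      Real.log (nn (sd T x y)) ≤ η₀ * Real.log X) := by
    intro x
    by_cases hx : x ∈ E
    · obtain ⟨y, hy⟩ := (hE x hx).2.2
      exact ⟨y, fun _ => hy⟩
    · exact ⟨0, fun h => absurd h hx⟩
  choose y hy using hex
  -- the four parts
  set E1 := E.filter (fun x => nn (sp x \ T) ≤ X ^ (1 - 1 / 100 : ℝ)) with hE1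
  set E' := E.filter (fun x => ¬ nn (sp x \ T) ≤ X ^ (1 - 1 / 100 : ℝ)) with hE'
  set E2 := E'.filter (fun x => (1 + η₀) / 3 * Real.log (nn (sp x \ T)) ≤ hgt x) with hE2
  set E'' := E'.filter (fun x => ¬ (1 + η₀) / 3 * Real.log (nn (sp x \ T)) ≤ hgt x) with hE''
  set E3 := E''.filter (fun x => (1 + η₁) / 3 * Real.log (nn (sp (y x) \ T)) ≤ hgt (y x)) with hE3
  set E4 := E''.filter (fun x => ¬ (1 + η₁) / 3 * Real.log (nn (sp (y x) \ T)) ≤ hgt (y x))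
    with hE4
  have hcard : E.card = E1.card + (E2.card + (E3.card + E4.card)) := by
    rw [hE3, hE4, Finset.card_filter_add_card_filter_not, hE2, hE'',
      Finset.card_filter_add_card_filter_not, hE1, hE', Finset.card_filter_add_card_filter_not]
  have k1 : (E1.card : ℝ) ≤ Dm * t ^ (2 / 3 + 1 / 300 : ℝ) * X ^ (2 / 3 - ν) := by
    have hXp : 0 < X ^ (1 - 1 / 100 : ℝ) := Real.rpow_pos_of_pos hX0 _
    have e1 := small (t * X ^ (1 - 1 / 100 : ℝ)) (by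
      have : 1 ≤ X ^ (1 - 1 / 100 : ℝ) := Real.one_le_rpow hX (by norm_num)
      nlinarith) E1 (fun x hx => by
        rw [hE1, Finset.mem_filter] at hx
        exact ⟨(hE x hx.1).1, (Pool.Agent.Y728.nn_le_mul (sp x) T).trans
          (mul_le_mul_of_nonneg_left hx.2 ht0.le)⟩)
    refine e1.trans ?_
    rw [Real.mul_rpow ht0.le hXp.le, ← Real.rpow_mul hX0.le, ← mul_assoc]
    refine mul_le_mul_of_nonneg_left ?_ (by positivity)
    refine Real.rpow_le_rpow_of_exponent_le hX ?_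
    linarith
  have k2 : (E2.card : ℝ) ≤ C₀ * X ^ (2 / 3 - ν) := by
    have e1 := exc0 X hX E2 (fun x hx => by
      rw [hE2, Finset.mem_filter, hE', Finset.mem_filter] at hx
      exact ⟨(hE x hx.1.1).1, (hE x hx.1.1).2.1, hx.2⟩)
    refine e1.trans (mul_le_mul_of_nonneg_left ?_ hC₀.le)
    exact Real.rpow_le_rpow_of_exponent_le hX (by linarith)
  have hmem : ∀ x ∈ E'', x ∈ E ∧ (1 - 1 / 100) * Lx ≤ Real.log (nn (sp x \ T)) ∧
      hgt x ≤ (1 + η₀) / 3 * Real.log (nn (sp x \ T)) := by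
    intro x hx
    rw [hE'', Finset.mem_filter, hE', Finset.mem_filter, not_le, not_le] at hx
    refine ⟨hx.1.1, ?_, hx.2.le⟩
    rw [hLx, ← Real.log_rpow hX0]
    exact Real.log_le_log (Real.rpow_pos_of_pos hX0 _) hx.1.2.le
  have k3 : (E3.card : ℝ) ≤ Db * X ^ (2 / 3 - ν) := by
    have hm3 : ∀ x ∈ E3, x ∈ E'' ∧
        (1 + η₁) / 3 * Real.log (nn (sp (y x) \ T)) ≤ hgt (y x) := fun x hx => by
      rw [hE3, Finset.mem_filter] at hx
      exact hx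
    have e0 : ((E3.image y).card : ℝ) ≤ C₁ * Real.exp ((2 / 3 - ν₁) * Lx) := by
      rw [← hexp]
      refine exc1 X hX _ ?_
      intro z hz
      obtain ⟨x, hx, rfl⟩ := Finset.mem_image.1 hz
      obtain ⟨b1, b2⟩ := hm3 x hx
      obtain ⟨c1, c2, -⟩ := hy x (hmem x b1).1
      exact ⟨c1, c2, b2⟩
    have e1 := partB η₀ Lx E3 y hL hη₀0.le hη₀2 (by linarith) e0 (fun x hx => by
      obtain ⟨b1, b2⟩ := hm3 x hx
      obtain ⟨d1, d2, d3⟩ := hmem x b1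
      obtain ⟨c1, c2, c3, c4⟩ := hy x d1
      obtain ⟨f1, f2, -⟩ := hE x d1
      exact ⟨f1, hlog x f2, hlog (y x) c2, d3, c4⟩)
    refine e1.trans (mul_le_mul_of_nonneg_left ?_ hDb.le)
    rw [hexp]
    apply Real.exp_le_exp.2
    exact mul_le_mul_of_nonneg_right (by linarith) hL
  have k4 : (E4.card : ℝ) ≤ Da * X ^ (2 / 3 - ν) := by
    have hm4 : ∀ x ∈ E4, x ∈ E'' ∧
        ¬ (1 + η₁) / 3 * Real.log (nn (sp (y x) \ T)) ≤ hgt (y x) := fun x hx => by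
      rw [hE4, Finset.mem_filter] at hx
      exact hx
    have e1 := partA Lx E4 y hL (fun x hx => by
      obtain ⟨b1, b2⟩ := hm4 x hx
      obtain ⟨d1, d2, d3⟩ := hmem x b1
      obtain ⟨c1, c2, c3, c4⟩ := hy x d1
      obtain ⟨f1, f2, -⟩ := hE x d1
      have g1 := Real.log_nonneg (one_le_nn (sp x \ T))
      refine ⟨f1, c1, hlog x f2, hlog (y x) c2, d2, d3.trans ?_, (not_le.1 b2).le, c3,
        c4.trans ?_⟩
      · exact mul_le_mul_of_nonneg_right (by linarith) g1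
      · exact mul_le_mul_of_nonneg_right hη₀1 hL)
    refine e1.trans (mul_le_mul_of_nonneg_left ?_ hDa.le)
    rw [hexp]
    apply Real.exp_le_exp.2
    exact mul_le_mul_of_nonneg_right (by linarith) hL
  rw [hcard]
  push_cast
  linarith

end Pool.Agent.K6.H25.RS
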