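import Pool.Agent.K6.H25.RS.Pair
import Pool.Agent.W52.AK.CNT
import Pool.Agent.W822.AK.SU

/-!
# The number of pairs with almost the same radical: the counting
-/

set_option autoImplicit false
set_option linter.unusedSectionVars false

namespace Pool.Agent.K6.H25.RS

open NumberField IsDedekindDomain Finset Pool.Agent.H691R3 Pool.Agent.W223.AK
open Pool.Agent.W462.AK (IsI Bd idl idl_spec card_le_mul_fib card_div bd_of_ub len_le_of_ub)

variable {K : Type} [Field K] [NumberField K]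

/-- the total size used for the subexponential factors -/
noncomputable def TT (S : Finset (Pr K)) (C H : ℝ) : ℝ :=
  ((Spl S).card + 1) * (C + 1) * (38 * BB S C H + 2)

variable {S : Finset (Pr K)} {ϖ : Pr K → K} {C : ℝ}

theorem TT_ge (hU : Unif S ϖ C) {H : ℝ} (hH : 0 ≤ H) :
    0 ≤ TT S C H ∧ (Spl S).card * (38 * BB S C H + 2) ≤ TT S C H ∧
    ((Spl S).card + 1) * (20 * BB S C H + 2) + C * ((Spl S).card * (20 * BB S C H + 2)) ≤
      TT S C H ∧ BB S C H + 1 ≤ TT S C H ∧ 12 * BB S C H ≤ TT S C H ∧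
      H + 2 * (Spl S).card ≤ TT S C H := by
  have hC := hU.one_le
  have hB := (BB_ge (S := S) hU hH).1
  have hB2 := (BB_ge (S := S) hU hH).2
  set N : ℝ := ((Spl S).card : ℝ) with hN
  have hN0 : 0 ≤ N := Nat.cast_nonneg _
  set B := BB S C H with hBd
  have hC0 : 0 ≤ C := by linarith
  have e : TT S C H = (N + 1) * (C + 1) * (38 * B + 2) := rfl
  rw [e]
  have f1 : 0 ≤ N * C := by positivity
  have f2 : 0 ≤ N * B := by positivity
  have f3 : 0 ≤ C * B := by positivity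
  have f4 : 0 ≤ N * C * B := by positivity
  have f5 : H + 2 * N ≤ B := by nlinarith
  refine ⟨by positivity, ?_, ?_, ?_, ?_, ?_⟩ <;> nlinarith

/-- the subexponential factor -/
theorem small_factor (hU : Unif S ϖ C) {ε : ℝ} (hε : 0 < ε) : ∃ ε₁ D : ℝ, 0 < ε₁ ∧ ε₁ ≤ 1 ∧
    0 < D ∧ ∀ H : ℝ, 0 ≤ H → Real.exp (ε₁ * (8 * TT S C H)) ≤ D * Real.exp (ε * H) := by
  have hC := hU.one_le
  set N : ℝ := ((Spl S).card : ℝ) with hN
  have hN0 : 0 ≤ N := Nat.cast_nonneg _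
  have hC0 : 0 ≤ C := by linarith
  set a : ℝ := 8 * ((N + 1) * (C + 1) * (38 * (C + 2))) with ha
  set b : ℝ := 8 * ((N + 1) * (C + 1) * (38 * ((C + 2) * (2 * N)) + 2)) with hb
  have ha0 : 0 < a := by positivity
  have hb0 : 0 ≤ b := by positivity
  refine ⟨min 1 (ε / a), Real.exp b, lt_min one_pos (by positivity), min_le_left _ _,
    Real.exp_pos _, fun H hH => ?_⟩
  rw [← Real.exp_add]
  apply Real.exp_le_exp.2
  have e : 8 * TT S C H = a * H + b := by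
    unfold TT BB
    rw [ha, hb]
    ring
  rw [e, mul_add]
  have h1 : min 1 (ε / a) * b ≤ b := by
    have := min_le_left 1 (ε / a)
    nlinarith
  have h2 : min 1 (ε / a) * (a * H) ≤ ε * H := by
    have h3 := min_le_right 1 (ε / a)
    calc min 1 (ε / a) * (a * H) ≤ ε / a * (a * H) :=
          mul_le_mul_of_nonneg_right h3 (by positivity)
      _ = ε * H := by field_simp
  linarith

/-- the rounded sizes of `g` -/
noncomputable def nV (S : Finset (Pr K)) (ϖ : Pr K → K) (P : K → Fin 3 → Idl K) (i j : Fin 3)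
    (t : K × K) : {u // u ∈ Spl S} → ℤ :=
  fun u => ⌊mt u.1 * Real.log (av u.1 (gen ϖ (gI P i j t)))⌋

/-- fixed `𝔯, 𝔰, 𝔥, w, w'` -/
theorem fib1 (hU : Unif S ϖ C) {ε : ℝ} (hε : 0 < ε) : ∃ D : ℝ, 0 < D ∧
    ∀ (P : K → Fin 3 → Idl K) (H κ ρ : ℝ) (i i' j j' : Fin 3), i ≠ i' → j ≠ j' → 0 ≤ H → 0 ≤ κ →
    ∀ (Q : Finset (K × K)), (∀ t ∈ Q, PC S P H κ ρ i i' j j' t) → ∀ t₀ ∈ Q,
    (∀ t ∈ Q, rI P i j t = rI P i j t₀) → (∀ t ∈ Q, sI P i j t = sI P i j t₀) →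
    (∀ t ∈ Q, gI P i' j' t = gI P i' j' t₀) → (∀ t ∈ Q, oI P t = oI P t₀) →
    (∀ t ∈ Q, oI' P t = oI' P t₀) → (∀ t ∈ Q, eU ϖ P i j t = eU ϖ P i j t₀) →
    (Q.card : ℝ) ≤ D * Real.exp (ε * (3 * TT S C H)) *
      Real.exp (H + (5 * (Spl S).card + 1) * (κ + 1) -
      len (rI P i j t₀) - len (gI P i' j' t₀)) := by
  classical
  obtain ⟨D₁, hD₁, H₁⟩ := card_div (K := K) Pool.Agent.W52.AK.fac hε
  obtain ⟨D₂, hD₂, H₂⟩ := Pool.Agent.W822.AK.su (K := K) S ε hε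
  obtain ⟨D₃, hD₃, H₃⟩ := vec_count S hε
  refine ⟨D₁ * (D₂ * D₃) * 32, by positivity, ?_⟩
  intro P H κ ρ i i' j j' hi hj hH hκ Q hQ t₀ ht₀ h1 h2 h3 h4 h5 h6
  obtain ⟨T0, T1, T2, T3, T4, T5⟩ := TT_ge hU hH
  set B := BB S C H with hB
  have hB0 : 0 ≤ B := (BB_ge (S := S) hU hH).1
  set N : ℝ := ((Spl S).card : ℝ) with hN
  have hN0 : 0 ≤ N := Nat.cast_nonneg _
  -- the ideal of `u`
  have hI : ∀ t ∈ Q, IsI S (uE ϖ P i i' j j' t) (idl S (uE ϖ P i i' j j' t)) := fun t ht =>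
    idl_spec S ((hQ t ht).nondeg hU hi hj).1 fun v hv => (hQ t ht).uE_int hU hi hj hv
  have hDE : ∀ t ∈ Q, DE ϖ P i j t = DE ϖ P i j t₀ := by
    intro t ht
    unfold DE wE wE'
    rw [h1 t ht, h2 t ht, h4 t ht, h5 t ht, h6 t ht]
  have hDint : ∀ v, v ∉ S → fv v (DE ϖ P i j t₀) ≤ 1 := fun v hv =>
    ((hQ t₀ ht₀).DE_le hU hi hj hv).trans ((hQ t₀ ht₀).uE_int hU hi hj hv)
  have hD0 : DE ϖ P i j t₀ ≠ 0 := ((hQ t₀ ht₀).nondeg hU hi hj).2
  have hDI := idl_spec S hD0 hDint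
  have hDlen : len (idl S (DE ϖ P i j t₀)) ≤ TT S C H :=
    (len_le_of_ub hDI hD0 ((hQ t₀ ht₀).DE_ub hU hH hi hj)).trans T1
  have c1 : ((Q.image (fun t => idl S (uE ϖ P i i' j j' t))).card : ℝ) ≤
      D₁ * Real.exp (ε * TT S C H) := by
    refine (H₁ (idl S (DE ϖ P i j t₀)) _ ?_).trans
      (mul_le_mul_of_nonneg_left (Real.exp_le_exp.2 (mul_le_mul_of_nonneg_left hDlen hε.le))
        hD₁.le)
    intro a ha
    obtain ⟨t, ht, rfl⟩ := Finset.mem_image.1 ha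
    refine hDI.le (hI t ht) fun v hv => ?_
    rw [← hDE t ht]
    exact (hQ t ht).DE_le hU hi hj hv
  -- the unit part of `u`
  have c2 : ((Q.image (fun t => uE ϖ P i i' j j' t /
      gen ϖ (idl S (uE ϖ P i i' j j' t)))).card : ℝ) ≤ D₂ * Real.exp (ε * TT S C H) := by
    refine H₂ _ _ T0 ?_
    intro y hy
    obtain ⟨t, ht, rfl⟩ := Finset.mem_image.1 hy
    have hu0 := ((hQ t ht).nondeg hU hi hj).1
    have hub := (hQ t ht).uE_ub hU hH hi hj
    refine ⟨div_ne_zero hu0 (gen_ne hU _), fun v hv => ?_, fun v hv => ?_⟩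
    · rw [map_div₀, (hI t ht).2 v hv, fv_gen hU (hI t ht).1 hv,
        div_self (zpow_pos (Nv_pos v) _).ne']
    · have hlen := len_le_of_ub (hI t ht) hu0 hub
      have b1 := bd_of_ub (hI t ht) hu0 (by positivity) hub
      have b2 := Bd.gen hU (hI t ht).1 hlen
      exact (b1.div b2 hu0 (gen_ne hU _) v hv).trans T2
  -- the rounded sizes
  have c3 : ((Q.image (nV S ϖ P i j)).card : ℝ) ≤ D₃ * Real.exp (ε * TT S C H) := by
    refine H₃ _ _ T0 ?_
    intro n hn u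
    obtain ⟨t, ht, rfl⟩ := Finset.mem_image.1 hn
    have b1 := Bd_gen1 hU hH ((hQ t ht).gI_off i j) ((hQ t ht).len_gI i j) u.1 u.2
    have b2 := abs_le.1 b1
    have e1 := Int.floor_le (mt u.1 * Real.log (av u.1 (gen ϖ (gI P i j t))))
    have e2 := Int.lt_floor_add_one (mt u.1 * Real.log (av u.1 (gen ϖ (gI P i j t))))
    unfold nV
    rw [abs_le]
    constructor <;> linarith
  have c4 := card_image_prod Q (fun t => uE ϖ P i i' j j' t /
      gen ϖ (idl S (uE ϖ P i i' j j' t))) (nV S ϖ P i j) (by positivity) c2 c3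
  have c5 := card_image_prod Q (fun t => idl S (uE ϖ P i i' j j' t)) (fun t =>
    (uE ϖ P i i' j j' t / gen ϖ (idl S (uE ϖ P i i' j j' t)), nV S ϖ P i j t))
    (by positivity) c1 c4
  have c6 := card_le_mul_fib Q (fun t => (idl S (uE ϖ P i i' j j' t),
    (uE ϖ P i i' j j' t / gen ϖ (idl S (uE ϖ P i i' j j' t)), nV S ϖ P i j t))) _
    (32 * Real.exp (H + (5 * N + 1) * (κ + 1) - len (rI P i j t₀) - len (gI P i' j' t₀)))
    (by positivity) c5 ?_
  · refine c6.trans (le_of_eq ?_)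
    have e : Real.exp (ε * (3 * TT S C H)) = Real.exp (ε * TT S C H) *
        (Real.exp (ε * TT S C H) * Real.exp (ε * TT S C H)) := by
      rw [← Real.exp_add, ← Real.exp_add]
      congr 1
      ring
    rw [e]
    ring
  · intro b hb
    obtain ⟨t₁, ht₁, hb1⟩ := Finset.mem_image.1 hb
    have hs : ∀ t ∈ Q.filter (fun t => (idl S (uE ϖ P i i' j j' t),
        (uE ϖ P i i' j j' t / gen ϖ (idl S (uE ϖ P i i' j j' t)), nV S ϖ P i j t)) = b),
        t ∈ Q ∧ uE ϖ P i i' j j' t = uE ϖ P i i' j j' t₁ ∧ nV S ϖ P i j t = nV S ϖ P i j t₁ := by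
      intro t ht
      obtain ⟨a1, a2⟩ := Finset.mem_filter.1 ht
      rw [← hb1] at a2
      have a3 := (Prod.ext_iff.1 a2).1
      have a4 := (Prod.ext_iff.1 (Prod.ext_iff.1 a2).2).1
      have a5 := (Prod.ext_iff.1 (Prod.ext_iff.1 a2).2).2
      simp only at a3 a4 a5
      refine ⟨a1, ?_, a5⟩
      rw [a3] at a4
      have g0 : gen ϖ (idl S (uE ϖ P i i' j j' t₁)) ≠ 0 := gen_ne hU _
      field_simp at a4
      exact a4
    have ht₁' : t₁ ∈ Q.filter (fun t => (idl S (uE ϖ P i i' j j' t),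
        (uE ϖ P i i' j j' t / gen ϖ (idl S (uE ϖ P i i' j j' t)), nV S ϖ P i j t)) = b) :=
      Finset.mem_filter.2 ⟨ht₁, hb1⟩
    have key := fib0 (t₀ := t₁) hU hi hj hκ _ (fun t ht => hQ t (hs t ht).1) ht₁'
      (fun t ht => (h1 t (hs t ht).1).trans (h1 t₁ ht₁).symm)
      (fun t ht => (h2 t (hs t ht).1).trans (h2 t₁ ht₁).symm)
      (fun t ht => (h3 t (hs t ht).1).trans (h3 t₁ ht₁).symm)
      (fun t ht => (h4 t (hs t ht).1).trans (h4 t₁ ht₁).symm)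
      (fun t ht => (h5 t (hs t ht).1).trans (h5 t₁ ht₁).symm)
      (fun t ht => (h6 t (hs t ht).1).trans (h6 t₁ ht₁).symm)
      (fun t ht => (hs t ht).2.1)
      (fun t ht u hu => congrFun (hs t ht).2.2 ⟨u, hu⟩)
    rwa [h1 t₁ ht₁, h3 t₁ ht₁] at key

/-- fixed `𝔯, 𝔥` -/
theorem fib2 (hU : Unif S ϖ C) {ε : ℝ} (hε : 0 < ε) : ∃ D : ℝ, 0 < D ∧
    ∀ (P : K → Fin 3 → Idl K) (H κ ρ : ℝ) (i i' j j' : Fin 3), i ≠ i' → j ≠ j' → 0 ≤ H → 0 ≤ κ →
    ∀ (Q : Finset (K × K)), (∀ t ∈ Q, PC S P H κ ρ i i' j j' t) → ∀ t₀ ∈ Q,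
    (∀ t ∈ Q, rI P i j t = rI P i j t₀) → (∀ t ∈ Q, gI P i' j' t = gI P i' j' t₀) →
    (Q.card : ℝ) ≤ D * Real.exp (ε * (5 * TT S C H + 2 * κ)) *
      Real.exp (2 * H - ρ / 9 + (7 * (Spl S).card + 4) * (κ + 1) -
      len (rI P i j t₀) - len (gI P i' j' t₀)) := by
  classical
  obtain ⟨D₀, hD₀, H₀⟩ := fib1 hU hε
  obtain ⟨D₁, hD₁, H₁⟩ := Pool.Agent.W52.AK.cnt (K := K) ε hε
  obtain ⟨D₂, hD₂, H₂⟩ := Pool.Agent.W822.AK.su (K := K) S ε hε
  refine ⟨D₁ * (D₁ * (D₁ * D₂)) * D₀, by positivity, ?_⟩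
  intro P H κ ρ i i' j j' hi hj hH hκ Q hQ t₀ ht₀ h1 h3
  obtain ⟨T0, T1, T2, T3, T4, T5⟩ := TT_ge hU hH
  set N : ℝ := ((Spl S).card : ℝ) with hN
  have hN0 : 0 ≤ N := Nat.cast_nonneg _
  have c1 : ((Q.image (fun t => sI P i j t)).card : ℝ) ≤
      D₁ * Real.exp (H + 2 * N - (ρ - κ) / 9 + ε * TT S C H) := by
    refine H₁ _ _ _ T0 ?_
    intro a ha
    obtain ⟨t, ht, rfl⟩ := Finset.mem_image.1 ha
    have p := hQ t ht
    have e1 := p.len_sI
    have e2 := PC.len_sg (P := P) (i := i) (j := j) (t := t)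
    have e3 : (ρ - κ) / 9 ≤ len (gI P i j t) := p.gG
    have e4 := p.len_j j
    have e5 := rl_le_len (sI P i j t)
    exact ⟨by linarith, by linarith⟩
  have c2 : ((Q.image (fun t => oI P t)).card : ℝ) ≤ D₁ * Real.exp (κ + ε * κ) := by
    refine H₁ _ _ _ hκ ?_
    intro a ha
    obtain ⟨t, ht, rfl⟩ := Finset.mem_image.1 ha
    exact ⟨(rl_le_len _).trans (hQ t ht).om, (hQ t ht).om⟩
  have c3 : ((Q.image (fun t => oI' P t)).card : ℝ) ≤ D₁ * Real.exp (κ + ε * κ) := by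
    refine H₁ _ _ _ hκ ?_
    intro a ha
    obtain ⟨t, ht, rfl⟩ := Finset.mem_image.1 ha
    exact ⟨(rl_le_len _).trans (hQ t ht).om', (hQ t ht).om'⟩
  have c4 : ((Q.image (fun t => eU ϖ P i j t)).card : ℝ) ≤
      D₂ * Real.exp (ε * TT S C H) := by
    refine H₂ _ _ T0 ?_
    intro y hy
    obtain ⟨t, ht, rfl⟩ := Finset.mem_image.1 hy
    have p := hQ t ht
    exact ⟨p.eU_ne hU, fun v hv => p.eU_unit hU hv, fun v hv => (p.eU_Bd hU hH v hv).trans T4⟩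
  have c5 := card_image_prod Q (fun t => oI' P t) (fun t => eU ϖ P i j t) (by positivity) c3 c4
  have c6 := card_image_prod Q (fun t => oI P t) (fun t => (oI' P t, eU ϖ P i j t))
    (by positivity) c2 c5
  have c7 := card_image_prod Q (fun t => sI P i j t)
    (fun t => (oI P t, (oI' P t, eU ϖ P i j t))) (by positivity) c1 c6
  have c8 := card_le_mul_fib Q (fun t => (sI P i j t, (oI P t, (oI' P t, eU ϖ P i j t)))) _
    (D₀ * Real.exp (ε * (3 * TT S C H)) *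
      Real.exp (H + (5 * N + 1) * (κ + 1) - len (rI P i j t₀) - len (gI P i' j' t₀)))
    (by positivity) c7 ?_
  · refine c8.trans ?_
    have e : D₁ * Real.exp (H + 2 * N - (ρ - κ) / 9 + ε * TT S C H) *
        (D₁ * Real.exp (κ + ε * κ) * (D₁ * Real.exp (κ + ε * κ) *
          (D₂ * Real.exp (ε * TT S C H)))) *
        (D₀ * Real.exp (ε * (3 * TT S C H)) *
          Real.exp (H + (5 * N + 1) * (κ + 1) - len (rI P i j t₀) - len (gI P i' j' t₀))) =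
        D₁ * (D₁ * (D₁ * D₂)) * D₀ * (Real.exp (H + 2 * N - (ρ - κ) / 9 + ε * TT S C H) *
          (Real.exp (κ + ε * κ) * (Real.exp (κ + ε * κ) * (Real.exp (ε * TT S C H) *
          (Real.exp (ε * (3 * TT S C H)) * Real.exp (H + (5 * N + 1) * (κ + 1) -
            len (rI P i j t₀) - len (gI P i' j' t₀))))))) := by ring
    rw [e, mul_assoc (D₁ * (D₁ * (D₁ * D₂)) * D₀)]
    refine mul_le_mul_of_nonneg_left ?_ (by positivity)
    rw [← Real.exp_add, ← Real.exp_add, ← Real.exp_add, ← Real.exp_add, ← Real.exp_add,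
      ← Real.exp_add]
    apply Real.exp_le_exp.2
    have f1 : 0 ≤ N * κ := by positivity
    nlinarith
  · intro b hb
    obtain ⟨t₁, ht₁, hb1⟩ := Finset.mem_image.1 hb
    have hs : ∀ t ∈ Q.filter (fun t => (sI P i j t, (oI P t, (oI' P t, eU ϖ P i j t))) = b),
        t ∈ Q ∧ sI P i j t = sI P i j t₁ ∧ oI P t = oI P t₁ ∧ oI' P t = oI' P t₁ ∧
        eU ϖ P i j t = eU ϖ P i j t₁ := by
      intro t ht
      obtain ⟨a1, a2⟩ := Finset.mem_filter.1 ht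
      rw [← hb1] at a2
      exact ⟨a1, (Prod.ext_iff.1 a2).1, (Prod.ext_iff.1 (Prod.ext_iff.1 a2).2).1,
        (Prod.ext_iff.1 (Prod.ext_iff.1 (Prod.ext_iff.1 a2).2).2).1,
        (Prod.ext_iff.1 (Prod.ext_iff.1 (Prod.ext_iff.1 a2).2).2).2⟩
    have ht₁' : t₁ ∈ Q.filter (fun t => (sI P i j t, (oI P t, (oI' P t, eU ϖ P i j t))) = b) :=
      Finset.mem_filter.2 ⟨ht₁, hb1⟩
    have key := H₀ P H κ ρ i i' j j' hi hj hH hκ _ (fun t ht => hQ t (hs t ht).1) t₁ ht₁'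
      (fun t ht => (h1 t (hs t ht).1).trans (h1 t₁ ht₁).symm)
      (fun t ht => (hs t ht).2.1)
      (fun t ht => (h3 t (hs t ht).1).trans (h3 t₁ ht₁).symm)
      (fun t ht => (hs t ht).2.2.1) (fun t ht => (hs t ht).2.2.2.1)
      (fun t ht => (hs t ht).2.2.2.2)
    rwa [h1 t₁ ht₁, h3 t₁ ht₁] at key

/-- fixed indices -/
theorem fib3 (hU : Unif S ϖ C) {ε : ℝ} (hε : 0 < ε) : ∃ D : ℝ, 0 < D ∧
    ∀ (P : K → Fin 3 → Idl K) (H κ ρ : ℝ) (i i' j j' : Fin 3), i ≠ i' → j ≠ j' → 0 ≤ H → 0 ≤ κ →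
    ∀ (Q : Finset (K × K)), (∀ t ∈ Q, PC S P H κ ρ i i' j j' t) →
    (Q.card : ℝ) ≤ D * Real.exp (ε * (7 * TT S C H + 2 * κ)) *
      Real.exp (2 * H - ρ / 9 + (7 * (Spl S).card + 4) * (κ + 1)) := by
  classical
  obtain ⟨D₀, hD₀, H₀⟩ := fib2 hU hε
  obtain ⟨D₁, hD₁, H₁⟩ := Pool.Agent.W52.AK.gcdsum (K := K) ε hε
  refine ⟨D₀ * (D₁ * D₁), by positivity, ?_⟩
  intro P H κ ρ i i' j j' hi hj hH hκ Q hQ
  obtain ⟨T0, T1, T2, T3, T4, T5⟩ := TT_ge hU hH
  set N : ℝ := ((Spl S).card : ℝ) with hN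
  have hN0 : 0 ≤ N := Nat.cast_nonneg _
  set M : ℝ := D₀ * Real.exp (ε * (5 * TT S C H + 2 * κ)) *
      Real.exp (2 * H - ρ / 9 + (7 * N + 4) * (κ + 1)) with hM
  have hM0 : 0 < M := by positivity
  set f : K × K → Idl K × Idl K := fun t => (rI P i j t, gI P i' j' t) with hf
  have h1 : Q.card = ∑ b ∈ Q.image f, (Q.filter (fun t => f t = b)).card :=
    Finset.card_eq_sum_card_image f Q
  have h2 : ∀ b ∈ Q.image f, ((Q.filter (fun t => f t = b)).card : ℝ) ≤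
      M * (Real.exp (-len b.1) * Real.exp (-len b.2)) := by
    intro b hb
    obtain ⟨t₁, ht₁, hb1⟩ := Finset.mem_image.1 hb
    have hs : ∀ t ∈ Q.filter (fun t => f t = b),
        t ∈ Q ∧ rI P i j t = rI P i j t₁ ∧ gI P i' j' t = gI P i' j' t₁ := by
      intro t ht
      obtain ⟨a1, a2⟩ := Finset.mem_filter.1 ht
      rw [← hb1] at a2
      exact ⟨a1, (Prod.ext_iff.1 a2).1, (Prod.ext_iff.1 a2).2⟩
    have key := H₀ P H κ ρ i i' j j' hi hj hH hκ (Q.filter (fun t => f t = b))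
      (fun t ht => hQ t (hs t ht).1) t₁
      (Finset.mem_filter.2 ⟨ht₁, hb1⟩) (fun t ht => (hs t ht).2.1) (fun t ht => (hs t ht).2.2)
    refine key.trans (le_of_eq ?_)
    rw [← hb1, hM, hf]
    simp only
    have e1 : Real.exp (2 * H - ρ / 9 + (7 * N + 4) * (κ + 1) - len (rI P i j t₁) -
        len (gI P i' j' t₁)) = Real.exp (2 * H - ρ / 9 + (7 * N + 4) * (κ + 1)) *
        (Real.exp (-len (rI P i j t₁)) * Real.exp (-len (gI P i' j' t₁))) := by
      rw [← Real.exp_add, ← Real.exp_add]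
      congr 1
      ring
    rw [e1]
    ring
  have h3 : (Q.card : ℝ) = ∑ b ∈ Q.image f, ((Q.filter (fun t => f t = b)).card : ℝ) := by
    rw [h1]; push_cast; rfl
  have h4 : Q.image f ⊆ Q.image (rI P i j) ×ˢ Q.image (gI P i' j') := by
    intro b hb
    obtain ⟨t, ht, rfl⟩ := Finset.mem_image.1 hb
    exact Finset.mem_product.2 ⟨Finset.mem_image_of_mem _ ht, Finset.mem_image_of_mem _ ht⟩
  have h5 := H₁ _ (Q.image (rI P i j)) T0 (by
    intro a ha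
    obtain ⟨t, ht, rfl⟩ := Finset.mem_image.1 ha
    exact (hQ t ht).len_rI.trans T5)
  have h6 := H₁ _ (Q.image (gI P i' j')) T0 (by
    intro a ha
    obtain ⟨t, ht, rfl⟩ := Finset.mem_image.1 ha
    exact ((hQ t ht).len_gI i' j').trans T5)
  calc (Q.card : ℝ) ≤ ∑ b ∈ Q.image f, M * (Real.exp (-len b.1) * Real.exp (-len b.2)) := by
        rw [h3]; exact Finset.sum_le_sum h2
    _ ≤ ∑ b ∈ Q.image (rI P i j) ×ˢ Q.image (gI P i' j'),
        M * (Real.exp (-len b.1) * Real.exp (-len b.2)) :=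
        Finset.sum_le_sum_of_subset_of_nonneg h4 fun b _ _ => by positivity
    _ = M * ((∑ a ∈ Q.image (rI P i j), Real.exp (-len a)) *
        ∑ a ∈ Q.image (gI P i' j'), Real.exp (-len a)) := by
        rw [Finset.sum_product, Finset.sum_mul_sum, Finset.mul_sum]
        refine Finset.sum_congr rfl fun a _ => ?_
        rw [Finset.mul_sum]
    _ ≤ M * ((D₁ * Real.exp (ε * TT S C H)) * (D₁ * Real.exp (ε * TT S C H))) := by
        refine mul_le_mul_of_nonneg_left ?_ hM0.le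
        exact mul_le_mul h5 h6 (Finset.sum_nonneg fun _ _ => (Real.exp_pos _).le) (by positivity)
    _ = _ := by
        rw [hM]
        have e : Real.exp (ε * (7 * TT S C H + 2 * κ)) = Real.exp (ε * (5 * TT S C H + 2 * κ)) *
            (Real.exp (ε * TT S C H) * Real.exp (ε * TT S C H)) := by
          rw [← Real.exp_add, ← Real.exp_add]
          congr 1
          ring
        rw [e]
        ring

theorem Pr3_ne {Q : Fin 3 → Idl K} {v : Pr K} (h : Pr3 Q v ≠ 0) : ∃ l, Q l v ≠ 0 := by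
  by_contra hcon
  push Not at hcon
  apply h
  unfold Pr3
  rw [Finsupp.add_apply, Finsupp.add_apply, hcon 0, hcon 1, hcon 2]

theorem rl_Pr3_le (Q Q' : Fin 3 → Idl K) :
    rl (Pr3 Q) ≤ ∑ a : Fin 3, ∑ b : Fin 3, len (Q a ⊓ Q' b) + len (Pr3 Q - Pr3 Q') := by
  have h1 : rl (Pr3 Q) ≤ rl (∑ a : Fin 3, ∑ b : Fin 3, (Q a ⊓ Q' b) + (Pr3 Q - Pr3 Q')) := by
    apply rl_mono
    intro v hv
    rw [Finsupp.mem_support_iff] at hv ⊢
    rw [Finsupp.add_apply]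
    by_cases h : Pr3 Q' v < Pr3 Q v
    · have : (Pr3 Q - Pr3 Q') v ≠ 0 := by
        rw [Finsupp.tsub_apply]
        omega
      omega
    · have h2 : Pr3 Q' v ≠ 0 := by omega
      obtain ⟨a, ha⟩ := Pr3_ne hv
      obtain ⟨b, hb⟩ := Pr3_ne h2
      have h3 : (∑ a : Fin 3, ∑ b : Fin 3, (Q a ⊓ Q' b)) v ≠ 0 := by
        have h4 : (Q a ⊓ Q' b) v ≤ (∑ a : Fin 3, ∑ b : Fin 3, (Q a ⊓ Q' b)) v := by
          have e1 : Q a ⊓ Q' b ≤ ∑ b : Fin 3, (Q a ⊓ Q' b) :=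
            Finset.single_le_sum (f := fun b => Q a ⊓ Q' b) (fun _ _ => bot_le) (mem_univ b)
          have e2 : ∑ b : Fin 3, (Q a ⊓ Q' b) ≤ ∑ a : Fin 3, ∑ b : Fin 3, (Q a ⊓ Q' b) :=
            Finset.single_le_sum (f := fun a => ∑ b : Fin 3, (Q a ⊓ Q' b))
              (fun _ _ => bot_le) (mem_univ a)
          exact (e1.trans e2) v
        have h5 : (Q a ⊓ Q' b) v ≠ 0 := by
          rw [Finsupp.inf_apply]
          omega
        omega
      omega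
  refine (h1.trans (rl_le_len _)).trans (le_of_eq ?_)
  rw [len_add, len_sum]
  congr 1
  exact Finset.sum_congr rfl fun a _ => len_sum _ _

/-- **Pairs of good points with almost the same radical.** -/
theorem pair_count (hU : Unif S ϖ C) {ε : ℝ} (hε : 0 < ε) : ∃ D c₁ : ℝ, 0 < D ∧ 0 ≤ c₁ ∧
    ∀ (P : K → Fin 3 → Idl K) (H κ ρ : ℝ), 0 ≤ H → 0 ≤ κ → ∀ (Q : Finset (K × K)),
    (∀ t ∈ Q, GPt S (P t.1) H κ t.1 ∧ GPt S (P t.2) H κ t.2 ∧
      len (Pr3 (P t.2) - Pr3 (P t.1)) ≤ κ ∧ len (Pr3 (P t.1) - Pr3 (P t.2)) ≤ κ ∧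
      ρ ≤ rl (Pr3 (P t.1)) ∧ ¬ IsPerm t.1 t.2) →
    (Q.card : ℝ) ≤ D * Real.exp ((2 + ε) * H - ρ / 9 + c₁ * κ) := by
  classical
  obtain ⟨ε₁, D₁, hε₁, hε₁1, hD₁, H₁⟩ := small_factor hU hε
  obtain ⟨D₀, hD₀, H₀⟩ := fib3 hU hε₁
  set N : ℝ := ((Spl S).card : ℝ) with hN
  have hN0 : 0 ≤ N := Nat.cast_nonneg _
  refine ⟨9 * (D₀ * D₁ * Real.exp (7 * N + 4)), 7 * N + 6, by positivity, by positivity, ?_⟩
  intro P H κ ρ hH hκ Q hQ
  obtain ⟨T0, T1, T2, T3, T4, T5⟩ := TT_ge hU hH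
  set mx : Fin 3 × Fin 3 → K × K → Prop := fun p t =>
    ∀ a b, len (P t.1 a ⊓ P t.2 b) ≤ len (P t.1 p.1 ⊓ P t.2 p.2) with hmx
  have hsub : Q ⊆ (univ : Finset (Fin 3 × Fin 3)).biUnion (fun p => Q.filter (mx p)) := by
    intro t ht
    obtain ⟨p, _, hp⟩ := Finset.exists_max_image (univ : Finset (Fin 3 × Fin 3))
      (fun p => len (P t.1 p.1 ⊓ P t.2 p.2)) Finset.univ_nonempty
    exact Finset.mem_biUnion.2 ⟨p, mem_univ p, Finset.mem_filter.2 ⟨ht, fun a b =>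
      hp (a, b) (mem_univ _)⟩⟩
  have hne : ∀ i : Fin 3, i ≠ i + 1 := by decide
  have hone : ∀ p : Fin 3 × Fin 3, (((Q.filter (mx p)).card : ℕ) : ℝ) ≤
      D₀ * D₁ * Real.exp (7 * N + 4) * Real.exp ((2 + ε) * H - ρ / 9 + (7 * N + 6) * κ) := by
    intro p
    have key := H₀ P H κ ρ p.1 (p.1 + 1) p.2 (p.2 + 1) (hne _) (hne _) hH hκ (Q.filter (mx p)) ?_
    · refine key.trans ?_
      have e1 : Real.exp (ε₁ * (7 * TT S C H + 2 * κ)) ≤ D₁ * Real.exp (ε * H) *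
          Real.exp (2 * κ) := by
        calc Real.exp (ε₁ * (7 * TT S C H + 2 * κ)) ≤
            Real.exp (ε₁ * (8 * TT S C H) + 2 * κ) := by
              apply Real.exp_le_exp.2
              nlinarith [mul_nonneg hε₁.le T0]
          _ = Real.exp (ε₁ * (8 * TT S C H)) * Real.exp (2 * κ) := Real.exp_add _ _
          _ ≤ _ := mul_le_mul_of_nonneg_right (H₁ H hH) (Real.exp_pos _).le
      calc D₀ * Real.exp (ε₁ * (7 * TT S C H + 2 * κ)) *
            Real.exp (2 * H - ρ / 9 + (7 * N + 4) * (κ + 1)) ≤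
          D₀ * (D₁ * Real.exp (ε * H) * Real.exp (2 * κ)) *
            Real.exp (2 * H - ρ / 9 + (7 * N + 4) * (κ + 1)) :=
            mul_le_mul_of_nonneg_right (mul_le_mul_of_nonneg_left e1 hD₀.le) (Real.exp_pos _).le
        _ = _ := by
            have e2 : Real.exp (ε * H) * (Real.exp (2 * κ) *
                Real.exp (2 * H - ρ / 9 + (7 * N + 4) * (κ + 1))) =
                Real.exp (7 * N + 4) * Real.exp ((2 + ε) * H - ρ / 9 + (7 * N + 6) * κ) := by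
              rw [← Real.exp_add, ← Real.exp_add, ← Real.exp_add]
              congr 1
              ring
            linear_combination (D₀ * D₁) * e2
    · intro t ht
      obtain ⟨ht1, ht2⟩ := Finset.mem_filter.1 ht
      obtain ⟨g1, g2, g3, g4, g5, g6⟩ := hQ t ht1
      refine ⟨g1, g2, g3, g4, ?_, ht2 _ _, g6⟩
      have h1 := rl_Pr3_le (P t.1) (P t.2)
      have h2 : ∑ a : Fin 3, ∑ b : Fin 3, len (P t.1 a ⊓ P t.2 b) ≤
          ∑ a : Fin 3, ∑ b : Fin 3, len (P t.1 p.1 ⊓ P t.2 p.2) :=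
        Finset.sum_le_sum fun a _ => Finset.sum_le_sum fun b _ => ht2 a b
      have h3 : ∑ a : Fin 3, ∑ b : Fin 3, len (P t.1 p.1 ⊓ P t.2 p.2) =
          9 * len (P t.1 p.1 ⊓ P t.2 p.2) := by
        rw [Finset.sum_const, Finset.sum_const, Finset.card_univ, Fintype.card_fin]
        simp only [nsmul_eq_mul]
        push_cast
        ring
      rw [h3] at h2
      linarith
  calc (Q.card : ℝ) ≤
      (((univ : Finset (Fin 3 × Fin 3)).biUnion (fun p => Q.filter (mx p))).card : ℝ) := by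
        exact_mod_cast Finset.card_le_card hsub
    _ ≤ ((∑ p : Fin 3 × Fin 3, (Q.filter (mx p)).card : ℕ) : ℝ) := by
        exact_mod_cast Finset.card_biUnion_le
    _ = ∑ p : Fin 3 × Fin 3, (((Q.filter (mx p)).card : ℕ) : ℝ) := by push_cast; rfl
    _ ≤ ∑ p : Fin 3 × Fin 3, D₀ * D₁ * Real.exp (7 * N + 4) *
        Real.exp ((2 + ε) * H - ρ / 9 + (7 * N + 6) * κ) := Finset.sum_le_sum fun p _ => hone p
    _ = _ := by
        rw [Finset.sum_const, Finset.card_univ, Fintype.card_prod, Fintype.card_fin]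
        simp only [nsmul_eq_mul]
        push_cast
        ring

end Pool.Agent.K6.H25.RS
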