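import Pool.Agent.W462.AK.Pre

/-!
# Packing at one infinite place; counting integer vectors; rounding
-/

set_option autoImplicit false
set_option linter.unusedSectionVars false

namespace Pool.Agent.K6.H25.RS

open NumberField IsDedekindDomain Finset Pool.Agent.H691R3 Pool.Agent.W223.AK

variable {K : Type} [Field K] [NumberField K]

theorem ub_sub' {u : Pl K} {T : ℝ} {y y' : K} (h : mt u * Real.log (av u y) ≤ T)
    (h' : mt u * Real.log (av u y') ≤ T)
    (hy : y ≠ 0) (hy' : y' ≠ 0) (hne : y - y' ≠ 0) :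
    mt u * Real.log (av u (y - y')) ≤ T + 2 := by
  have h1 : av u (y - y') ≤ 2 * max (av u y) (av u y') := by
    have := av_two u y (-y')
    rwa [← sub_eq_add_neg, AbsoluteValue.map_neg] at this
  have hp : 0 < av u (y - y') := (av u).pos hne
  have hp1 : 0 < av u y := (av u).pos hy
  have hp2 : 0 < av u y' := (av u).pos hy'
  have hm : 0 < max (av u y) (av u y') := lt_max_of_lt_left hp1
  have h2 : Real.log (av u (y - y')) ≤ Real.log 2 + Real.log (max (av u y) (av u y')) := by
    rw [← Real.log_mul (by norm_num) hm.ne']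
    exact Real.log_le_log hp h1
  have h3 := mt_pos u
  have h4 := Pool.Agent.W462.AK.mt_log_two u
  have h5 : mt u * Real.log (max (av u y) (av u y')) ≤ T := by
    rcases max_choice (av u y) (av u y') with h6 | h6
    · rw [h6]; exact h
    · rw [h6]; exact h'
  calc mt u * Real.log (av u (y - y'))
      ≤ mt u * (Real.log 2 + Real.log (max (av u y) (av u y'))) :=
        mul_le_mul_of_nonneg_left h2 h3.le
    _ = mt u * Real.log 2 + mt u * Real.log (max (av u y) (av u y')) := by ring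
    _ ≤ T + 2 := by linarith

/-- **Packing.** -/
theorem pack (S : Finset (Pr K)) (Z : Finset K) (U : Pl K → ℝ) (k : ℝ)
    (h0 : ∀ z ∈ Z, z ≠ 0) (h1 : ∀ z ∈ Z, ∀ u ∈ Spl S, mt u * Real.log (av u z) ≤ U u)
    (h2 : ∀ z ∈ Z, ∀ z' ∈ Z, z ≠ z' → k ≤ ∑ u ∈ Spl S, mt u * Real.log (av u (z - z'))) :
    (Z.card : ℝ) ≤ 16 * (1 + Real.exp (∑ u ∈ Spl S, (U u + 2) - k)) := by
  classical
  obtain ⟨w⟩ : Nonempty (InfinitePlace K) := inferInstance
  have hw := mem_Spl_inl S w
  set B : ℝ := ∑ u ∈ (Spl S).erase (Sum.inl w), (U u + 2) with hB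
  have hm : (0 : ℝ) < w.mult := by exact_mod_cast InfinitePlace.mult_pos
  have hub : ∀ z ∈ Z, ∀ z' ∈ Z, z ≠ z' → ∀ u ∈ Spl S,
      mt u * Real.log (av u (z - z')) ≤ U u + 2 := fun z hz z' hz' hne u hu =>
    ub_sub' (h1 z hz u hu) (h1 z' hz' u hu) (h0 z hz) (h0 z' hz') (sub_ne_zero.2 hne)
  have key := chart_count_pow w (k := 1) one_pos Z id Function.injective_id.injOn 1 1 (B - k)
    (-(U (Sum.inl w) + 2)) one_pos one_pos ?_ ?_
  · have h3 : ∑ u ∈ Spl S, (U u + 2) = (U (Sum.inl w) + 2) + B :=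
      (Finset.add_sum_erase _ _ hw).symm
    rw [h3]
    have h4 : (1 : ℝ) / 1 = 1 := by norm_num
    rw [h4, Real.log_one, abs_zero, mul_zero, Real.exp_zero, mul_one, Nat.cast_one, div_one] at key
    have h5 : B - k - -(U (Sum.inl w) + 2) = U (Sum.inl w) + 2 + B - k := by ring
    rwa [h5] at key
  · intro z hz z' hz' hne
    have hp : 0 < w (z - z') := w.pos_iff.2 (sub_ne_zero.2 hne)
    have h3 := h2 z hz z' hz' hne
    rw [← Finset.add_sum_erase _ _ hw] at h3
    have h4 : ∑ u ∈ (Spl S).erase (Sum.inl w), mt u * Real.log (av u (z - z')) ≤ B :=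
      Finset.sum_le_sum fun u hu => hub z hz z' hz' hne u (Finset.mem_of_mem_erase hu)
    have h5 : k - B ≤ w.mult * Real.log (w (z - z')) := by
      have : mt (Sum.inl w : Pl K) * Real.log (av (Sum.inl w : Pl K) (z - z')) =
        w.mult * Real.log (w (z - z')) := rfl
      linarith
    rw [one_mul, pow_one, id, id]
    calc Real.exp (-(B - k) / w.mult) ≤ Real.exp (Real.log (w (z - z'))) := by
          apply Real.exp_le_exp.2
          rw [div_le_iff₀ hm]
          linarith
      _ = _ := Real.exp_log hp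
  · intro z hz z' hz' hne
    have hp : 0 < w (z - z') := w.pos_iff.2 (sub_ne_zero.2 hne)
    have h3 := hub z hz z' hz' hne _ hw
    have h5 : w.mult * Real.log (w (z - z')) ≤ U (Sum.inl w) + 2 := h3
    rw [one_mul, pow_one, id, id]
    calc w (z - z') = Real.exp (Real.log (w (z - z'))) := (Real.exp_log hp).symm
      _ ≤ _ := by
          apply Real.exp_le_exp.2
          rw [le_div_iff₀ hm]
          linarith

/-- powers of a linear function are small -/
theorem pow_le_exp (n : ℕ) {ε : ℝ} (hε : 0 < ε) : ∃ D : ℝ, 0 < D ∧ ∀ x : ℝ, 0 ≤ x →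
    (x + 1) ^ n ≤ D * Real.exp (ε * x) := by
  rcases Nat.eq_zero_or_pos n with rfl | hn
  · refine ⟨1, one_pos, fun x hx => ?_⟩
    rw [pow_zero, one_mul]
    exact Real.one_le_exp (by positivity)
  have hn0 : (0 : ℝ) < n := by exact_mod_cast hn
  refine ⟨(max 1 (n / ε)) ^ n, by positivity, fun x hx => ?_⟩
  have h1 : x + 1 ≤ max 1 (n / ε) * Real.exp (ε / n * x) := by
    have h2 : ε / n * x + 1 ≤ Real.exp (ε / n * x) := Real.add_one_le_exp _
    have h3 : n / ε * (ε / n * x) = x := by field_simp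
    have h4 : 0 ≤ ε / n * x := by positivity
    have h5 : (n : ℝ) / ε ≤ max 1 (n / ε) := le_max_right _ _
    have h6 : (1 : ℝ) ≤ max 1 (n / ε) := le_max_left _ _
    calc x + 1 ≤ max 1 (n / ε) * (ε / n * x) + max 1 (n / ε) := by nlinarith
      _ = max 1 (n / ε) * (ε / n * x + 1) := by ring
      _ ≤ _ := mul_le_mul_of_nonneg_left h2 (by positivity)
  calc (x + 1) ^ n ≤ (max 1 (n / ε) * Real.exp (ε / n * x)) ^ n :=
        pow_le_pow_left₀ (by linarith) h1 n
    _ = _ := by
        rw [mul_pow, ← Real.exp_nat_mul]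
        congr 2
        field_simp

/-- counting integer vectors -/
theorem vec_count (S : Finset (Pr K)) {ε : ℝ} (hε : 0 < ε) : ∃ D : ℝ, 0 < D ∧
    ∀ (X : ℝ) (E : Finset ({u // u ∈ Spl S} → ℤ)), 0 ≤ X →
      (∀ n ∈ E, ∀ u, |(n u : ℝ)| ≤ X) → (E.card : ℝ) ≤ D * Real.exp (ε * X) := by
  classical
  obtain ⟨D, hD, H⟩ := pow_le_exp (Spl S).card (ε := ε / 2) (by positivity)
  refine ⟨D, hD, fun X E hX hE => ?_⟩
  set N : ℤ := ⌊X⌋ with hN
  have hN0 : 0 ≤ N := Int.floor_nonneg.2 hX
  have hsub : E ⊆ Fintype.piFinset (fun _ => Finset.Icc (-N) N) := by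
    intro n hn
    rw [Fintype.mem_piFinset]
    intro u
    have h1 := abs_le.1 (hE n hn u)
    rw [Finset.mem_Icc]
    constructor
    · have : ((-n u : ℤ) : ℝ) ≤ X := by push_cast; linarith
      have := Int.le_floor.2 this
      omega
    · exact Int.le_floor.2 h1.2
  have h2 : (E.card : ℝ) ≤ (2 * X + 1) ^ (Spl S).card := by
    have h3 : E.card ≤ (2 * N + 1).toNat ^ (Spl S).card := by
      refine (Finset.card_le_card hsub).trans (le_of_eq ?_)
      rw [Fintype.card_piFinset, Finset.prod_const, Int.card_Icc, Finset.card_univ,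
        Fintype.card_coe]
      congr 2
      ring
    calc (E.card : ℝ) ≤ (((2 * N + 1).toNat ^ (Spl S).card : ℕ) : ℝ) := by exact_mod_cast h3
      _ = (((2 * N + 1).toNat : ℕ) : ℝ) ^ (Spl S).card := by push_cast; rfl
      _ ≤ _ := by
        apply pow_le_pow_left₀ (Nat.cast_nonneg _)
        have h4 : (((2 * N + 1).toNat : ℕ) : ℝ) = ((2 * N + 1 : ℤ) : ℝ) := by
          have := Int.toNat_of_nonneg (show 0 ≤ 2 * N + 1 by omega)
          exact_mod_cast congrArg (fun z : ℤ => (z : ℝ)) this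
        rw [h4]
        push_cast
        have := Int.floor_le X
        linarith
  refine h2.trans ((H (2 * X) (by positivity)).trans (le_of_eq ?_))
  congr 2
  ring

end Pool.Agent.K6.H25.RS
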