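import Pool.Agent.K6.H25.RS.Alg
import Pool.Agent.K6.H25.RS.Pack
import Pool.Agent.W223.AK.Point

/-!
# The data attached to a pair of points
-/

set_option autoImplicit false
set_option linter.unusedSectionVars false

namespace Pool.Agent.K6.H25.RS

open NumberField IsDedekindDomain Finset Pool.Agent.H691R3 Pool.Agent.W223.AK
open Pool.Agent.W462.AK (IsI Bd)

variable {K : Type} [Field K] [NumberField K]

/-! ### the coordinates -/

theorem abv_cc (f : AbsoluteValue K ℝ) (l : Fin 3) (x : K) : f (cc l x) = f (L l x) := by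
  fin_cases l
  · rfl
  · rfl
  · show f (-x - 1) = f (x + 1)
    rw [← AbsoluteValue.map_neg]
    congr 1
    ring

theorem cc_ne {x : K} (hx : Pt x) (l : Fin 3) : cc l x ≠ 0 := by
  fin_cases l
  · exact hx.1
  · exact one_ne_zero
  · show -x - 1 ≠ 0
    intro h
    exact hx.2 (by linear_combination -h)

theorem cc_inj {x x' : K} {l m : Fin 3} (hlm : l ≠ m)
    (h : cc l x * cc m x' = cc l x' * cc m x) : x = x' := by
  fin_cases l <;> fin_cases m <;> simp [cc] at hlm h ⊢ <;>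
    first
    | exact h
    | exact h.symm
    | linear_combination h
    | linear_combination -h

theorem cc_prod {x : K} {i i' : Fin 3} (hi : i ≠ i') :
    cc i x * cc i' x * (cc i x + cc i' x) = -(cc 0 x * cc 1 x * cc 2 x) := by
  fin_cases i <;> fin_cases i' <;> simp [cc] at hi ⊢ <;> ring

/-- scaled coordinates -/
noncomputable def sc (ϖ : Pr K → K) (P : Fin 3 → Idl K) (q : Fin 3) (x : K) (l : Fin 3) : K :=
  gen ϖ (P q) / cc q x * cc l x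

section Scaled

variable {S : Finset (Pr K)} {ϖ : Pr K → K} {C : ℝ} {P : Fin 3 → Idl K} {x : K}

theorem abv_sc (f : AbsoluteValue K ℝ) (q l : Fin 3) :
    f (sc ϖ P q x l) = f (Pool.Agent.W462.AK.A ϖ P q x l) := by
  unfold sc Pool.Agent.W462.AK.A
  rw [map_mul, map_div₀, abv_cc, abv_cc, map_div₀, map_mul]
  ring

theorem sc_ne (hU : Unif S ϖ C) (hx : Pt x) (q l : Fin 3) : sc ϖ P q x l ≠ 0 :=
  mul_ne_zero (div_ne_zero (gen_ne hU _) (cc_ne hx q)) (cc_ne hx l)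

theorem sc_self (hx : Pt x) (q : Fin 3) : sc ϖ P q x q = gen ϖ (P q) := by
  unfold sc
  rw [div_mul_cancel₀ _ (cc_ne hx q)]

theorem IsI_sc (hU : Unif S ϖ C) (hP : IsP S x P) (q l : Fin 3) :
    IsI S (sc ϖ P q x l) (P l) := by
  refine ⟨hP.off l, fun v hv => ?_⟩
  rw [abv_sc]
  exact Pool.Agent.W462.AK.fv_A hU hP l hv

theorem Bd_sc (hU : Unif S ϖ C) (hx : Pt x) (hP : IsP S x P) {X : ℝ} (hX0 : 0 ≤ X)
    (hX : ht x ≤ X) (q l : Fin 3) :
    Bd S ((C + 2) * (X + 2 * (Spl S).card)) (sc ϖ P q x l) := by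
  intro u hu
  rw [abv_sc]
  exact Pool.Agent.W462.AK.Bd_A hU hx hP hX0 hX l u hu

end Scaled

/-! ### ideals of elements -/

section Ideals

variable {S : Finset (Pr K)} {ϖ : Pr K → K} {C : ℝ} {y z : K} {I J : Idl K}

theorem IsI_gen (hU : Unif S ϖ C) (hI : OffS S I) : IsI S (gen ϖ I) I :=
  ⟨hI, fun _ hv => fv_gen hU hI hv⟩

theorem IsI.le_one' (h : IsI S y I) {v : Pr K} (hv : v ∉ S) : fv v y ≤ 1 := by
  rw [h.2 v hv]
  exact Pool.Agent.W462.AK.zpow_neg_le_one v _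

theorem IsI.eq_one' (h : IsI S y I) {v : Pr K} (hv : v ∉ S) (h0 : I v = 0) : fv v y = 1 := by
  rw [h.2 v hv, h0]
  simp

theorem IsI.div' (hy : IsI S y I) (hz : IsI S z J) (h : J ≤ I) : IsI S (y / z) (I - J) := by
  refine ⟨fun v hv => ?_, fun v hv => ?_⟩
  · rw [Finsupp.tsub_apply, hy.1 v hv, Nat.zero_sub]
  · rw [map_div₀, hy.2 v hv, hz.2 v hv, ← zpow_sub₀ (Nv_pos v).ne']
    congr 1
    rw [Finsupp.tsub_apply]
    have := h v
    omega

theorem IsI.mul' (hy : IsI S y I) (hz : IsI S z J) : IsI S (y * z) (I + J) := by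
  refine ⟨OffS.add hy.1 hz.1, fun v hv => ?_⟩
  rw [map_mul, hy.2 v hv, hz.2 v hv, ← zpow_add₀ (Nv_pos v).ne']
  congr 1
  rw [Finsupp.add_apply]
  push_cast
  ring

theorem add_inf_eq (a b : Idl K) : a - b + a ⊓ b = a := by
  ext v
  rw [Finsupp.add_apply, Finsupp.tsub_apply, Finsupp.inf_apply]
  omega

theorem add_inf_eq' (a b : Idl K) : b - a + a ⊓ b = b := by
  ext v
  rw [Finsupp.add_apply, Finsupp.tsub_apply, Finsupp.inf_apply]
  omega

theorem add_tsub_comm (a b : Idl K) : b - a + a = a - b + b := by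
  ext v
  simp only [Finsupp.add_apply, Finsupp.tsub_apply]
  omega

theorem OffS.tsub' (ha : OffS S I) : OffS S (I - J) := fun v hv => by
  rw [Finsupp.tsub_apply, ha v hv, Nat.zero_sub]

theorem OffS.inf' (ha : OffS S I) : OffS S (I ⊓ J) := fun v hv => by
  rw [Finsupp.inf_apply, ha v hv]
  exact Nat.zero_min _

end Ideals

/-! ### good points and pairs -/

/-- the product of the three ideals -/
noncomputable def Pr3 (P : Fin 3 → Idl K) : Idl K := P 0 + P 1 + P 2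

theorem Pr3_ge (P : Fin 3 → Idl K) (l : Fin 3) : P l ≤ Pr3 P := by
  intro v
  unfold Pr3
  rw [Finsupp.add_apply, Finsupp.add_apply]
  fin_cases l <;> simp only [Fin.zero_eta, Fin.mk_one, Fin.reduceFinMk] <;> omega

/-- good points -/
structure GPt (S : Finset (Pr K)) (P : Fin 3 → Idl K) (H κ : ℝ) (x : K) : Prop where
  pt : Pt x
  isP : IsP S x P
  hH : ht x ≤ H
  lm_le : ∀ u ∈ Spl S, ∀ l, |lm u l x| ≤ κ
  sq : ∀ l, len (P l) ≤ rl (P l) + κ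

/-- good pairs -/
structure PC (S : Finset (Pr K)) (P : K → Fin 3 → Idl K) (H κ ρ : ℝ) (i i' j j' : Fin 3)
    (t : K × K) : Prop where
  gx : GPt S (P t.1) H κ t.1
  gy : GPt S (P t.2) H κ t.2
  om : len (Pr3 (P t.2) - Pr3 (P t.1)) ≤ κ
  om' : len (Pr3 (P t.1) - Pr3 (P t.2)) ≤ κ
  gG : (ρ - κ) / 9 ≤ len (P t.1 i ⊓ P t.2 j)
  mx : len (P t.1 i' ⊓ P t.2 j') ≤ len (P t.1 i ⊓ P t.2 j)
  np : ¬ IsPerm t.1 t.2

section Fun

variable (ϖ : Pr K → K) (P : K → Fin 3 → Idl K) (i i' j j' : Fin 3) (t : K × K)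

/-- the ideal `𝔯` -/
noncomputable def rI : Idl K := P t.1 i - P t.2 j
/-- the ideal `𝔰` -/
noncomputable def sI : Idl K := P t.2 j - P t.1 i
/-- the ideal `𝔤` (or `𝔥`) -/
noncomputable def gI : Idl K := P t.1 i ⊓ P t.2 j
/-- the cofactor -/
noncomputable def oI : Idl K := Pr3 (P t.2) - Pr3 (P t.1)
/-- the other cofactor -/
noncomputable def oI' : Idl K := Pr3 (P t.1) - Pr3 (P t.2)
/-- the product of the scaled coordinates -/
noncomputable def scP (Q : Fin 3 → Idl K) (q : Fin 3) (x : K) : K :=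
  sc ϖ Q q x 0 * sc ϖ Q q x 1 * sc ϖ Q q x 2
/-- the unit -/
noncomputable def eU : K :=
  gen ϖ (oI P t) * scP ϖ (P t.1) i t.1 / (gen ϖ (oI' P t) * scP ϖ (P t.2) j t.2)
/-- `w` -/
noncomputable def wE : K := gen ϖ (oI P t)
/-- `w'` -/
noncomputable def wE' : K := eU ϖ P i j t * gen ϖ (oI' P t)
/-- `ξ` -/
noncomputable def xE : K := sc ϖ (P t.1) i t.1 i' / gen ϖ (gI P i' j' t)
/-- `ζ` -/
noncomputable def zE : K := sc ϖ (P t.2) j t.2 j' / gen ϖ (gI P i' j' t)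
/-- the quotient -/
noncomputable def uE : K := uu (wE ϖ P t) (wE' ϖ P i j t) (gen ϖ (rI P i j t))
  (gen ϖ (sI P i j t)) (gen ϖ (gI P i' j' t)) (xE ϖ P i i' j' t) (zE ϖ P i' j j' t)

end Fun

section Facts

variable {S : Finset (Pr K)} {ϖ : Pr K → K} {C : ℝ} {P : K → Fin 3 → Idl K} {H κ ρ : ℝ}
  {i i' j j' : Fin 3} {t : K × K}

theorem offS_Pr3 {Q : Fin 3 → Idl K} {x : K} (h : IsP S x Q) : OffS S (Pr3 Q) :=
  OffS.add (OffS.add (h.off 0) (h.off 1)) (h.off 2)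

theorem PC.oI_off (hp : PC S P H κ ρ i i' j j' t) : OffS S (oI P t) :=
  OffS.tsub' (offS_Pr3 hp.gy.isP)

theorem PC.oI'_off (hp : PC S P H κ ρ i i' j j' t) : OffS S (oI' P t) :=
  OffS.tsub' (offS_Pr3 hp.gx.isP)

theorem PC.rI_off (hp : PC S P H κ ρ i i' j j' t) : OffS S (rI P i j t) :=
  OffS.tsub' (hp.gx.isP.off i)

theorem PC.sI_off (hp : PC S P H κ ρ i i' j j' t) : OffS S (sI P i j t) :=
  OffS.tsub' (hp.gy.isP.off j)

theorem PC.gI_off (hp : PC S P H κ ρ i i' j j' t) (a b : Fin 3) : OffS S (gI P a b t) :=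
  OffS.inf' (hp.gx.isP.off a)

theorem PC.eU_unit (hU : Unif S ϖ C) (hp : PC S P H κ ρ i i' j j' t) {v : Pr K} (hv : v ∉ S) :
    fv v (eU ϖ P i j t) = 1 := by
  have h1 : IsI S (gen ϖ (oI P t) * scP ϖ (P t.1) i t.1) (oI P t + Pr3 (P t.1)) :=
    IsI.mul' (IsI_gen hU hp.oI_off) (IsI.mul' (IsI.mul' (IsI_sc hU hp.gx.isP i 0)
      (IsI_sc hU hp.gx.isP i 1)) (IsI_sc hU hp.gx.isP i 2))
  have h2 : IsI S (gen ϖ (oI' P t) * scP ϖ (P t.2) j t.2) (oI' P t + Pr3 (P t.2)) :=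
    IsI.mul' (IsI_gen hU hp.oI'_off) (IsI.mul' (IsI.mul' (IsI_sc hU hp.gy.isP j 0)
      (IsI_sc hU hp.gy.isP j 1)) (IsI_sc hU hp.gy.isP j 2))
  have h3 : oI P t + Pr3 (P t.1) = oI' P t + Pr3 (P t.2) := add_tsub_comm _ _
  unfold eU
  rw [map_div₀, h1.2 v hv, h2.2 v hv, h3, div_self (zpow_pos (Nv_pos v) _).ne']

theorem scP_ne (hU : Unif S ϖ C) {Q : Fin 3 → Idl K} {x : K} (hx : Pt x) (q : Fin 3) :
    scP ϖ Q q x ≠ 0 :=
  mul_ne_zero (mul_ne_zero (sc_ne hU hx _ _) (sc_ne hU hx _ _)) (sc_ne hU hx _ _)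

theorem PC.eU_ne (hU : Unif S ϖ C) (hp : PC S P H κ ρ i i' j j' t) : eU ϖ P i j t ≠ 0 :=
  div_ne_zero (mul_ne_zero (gen_ne hU _) (scP_ne hU hp.gx.pt _))
    (mul_ne_zero (gen_ne hU _) (scP_ne hU hp.gy.pt _))

theorem PC.wE_I (hU : Unif S ϖ C) (hp : PC S P H κ ρ i i' j j' t) :
    IsI S (wE ϖ P t) (oI P t) := IsI_gen hU hp.oI_off

theorem PC.wE'_I (hU : Unif S ϖ C) (hp : PC S P H κ ρ i i' j j' t) :
    IsI S (wE' ϖ P i j t) (oI' P t) := by
  refine ⟨hp.oI'_off, fun v hv => ?_⟩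
  unfold wE'
  rw [map_mul, hp.eU_unit hU hv, one_mul, fv_gen hU hp.oI'_off hv]

theorem PC.wE'_ne (hU : Unif S ϖ C) (hp : PC S P H κ ρ i i' j j' t) : wE' ϖ P i j t ≠ 0 :=
  mul_ne_zero (hp.eU_ne hU) (gen_ne hU _)

theorem PC.xE_I (hU : Unif S ϖ C) (hp : PC S P H κ ρ i i' j j' t) :
    IsI S (xE ϖ P i i' j' t) (P t.1 i' - gI P i' j' t) :=
  IsI.div' (IsI_sc hU hp.gx.isP i i') (IsI_gen hU (hp.gI_off i' j')) inf_le_left

theorem PC.zE_I (hU : Unif S ϖ C) (hp : PC S P H κ ρ i i' j j' t) :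
    IsI S (zE ϖ P i' j j' t) (P t.2 j' - gI P i' j' t) :=
  IsI.div' (IsI_sc hU hp.gy.isP j j') (IsI_gen hU (hp.gI_off i' j')) inf_le_right

theorem PC.xE_ne (hU : Unif S ϖ C) (hp : PC S P H κ ρ i i' j j' t) : xE ϖ P i i' j' t ≠ 0 :=
  div_ne_zero (sc_ne hU hp.gx.pt _ _) (gen_ne hU _)

theorem PC.zE_ne (hU : Unif S ϖ C) (hp : PC S P H κ ρ i i' j j' t) : zE ϖ P i' j j' t ≠ 0 :=
  div_ne_zero (sc_ne hU hp.gy.pt _ _) (gen_ne hU _)

theorem PC.rg (hp : PC S P H κ ρ i i' j j' t) :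
    gen ϖ (rI P i j t) * gen ϖ (gI P i j t) = sc ϖ (P t.1) i t.1 i := by
  rw [sc_self hp.gx.pt, ← gen_add]
  congr 1
  exact add_inf_eq _ _

theorem PC.sg (hp : PC S P H κ ρ i i' j j' t) :
    gen ϖ (sI P i j t) * gen ϖ (gI P i j t) = sc ϖ (P t.2) j t.2 j := by
  rw [sc_self hp.gy.pt, ← gen_add]
  congr 1
  exact add_inf_eq' _ _

theorem PC.hx (hU : Unif S ϖ C) :
    gen ϖ (gI P i' j' t) * xE ϖ P i i' j' t = sc ϖ (P t.1) i t.1 i' := by
  unfold xE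
  rw [mul_div_cancel₀ _ (gen_ne hU _)]

theorem PC.hz (hU : Unif S ϖ C) :
    gen ϖ (gI P i' j' t) * zE ϖ P i' j j' t = sc ϖ (P t.2) j t.2 j' := by
  unfold zE
  rw [mul_div_cancel₀ _ (gen_ne hU _)]

theorem sc_prod {Q : Fin 3 → Idl K} {x : K} {q a b : Fin 3} (hab : a ≠ b) :
    sc ϖ Q q x a * sc ϖ Q q x b * (sc ϖ Q q x a + sc ϖ Q q x b) = -scP ϖ Q q x := by
  have h := cc_prod (x := x) hab
  unfold scP sc
  linear_combination (gen ϖ (Q q) / cc q x) ^ 3 * h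

theorem PC.eqn (hU : Unif S ϖ C) (hi : i ≠ i') (hj : j ≠ j') (hp : PC S P H κ ρ i i' j j' t) :
    Eqn (wE ϖ P t) (wE' ϖ P i j t) (gen ϖ (rI P i j t)) (gen ϖ (sI P i j t))
      (gen ϖ (gI P i j t)) (gen ϖ (gI P i' j' t)) (xE ϖ P i i' j' t) (zE ϖ P i' j j' t) where
  w0 := gen_ne hU _
  w'0 := hp.wE'_ne hU
  r0 := gen_ne hU _
  s0 := gen_ne hU _
  g0 := gen_ne hU _
  h0 := gen_ne hU _
  ξ0 := hp.xE_ne hU
  ζ0 := hp.zE_ne hU
  eq := by
    rw [hp.rg, hp.sg, PC.hx hU, PC.hz hU]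
    have h1 := sc_prod (ϖ := ϖ) (Q := P t.1) (x := t.1) (q := i) hi
    have h2 := sc_prod (ϖ := ϖ) (Q := P t.2) (x := t.2) (q := j) hj
    have h3 : wE' ϖ P i j t * scP ϖ (P t.2) j t.2 = wE ϖ P t * scP ϖ (P t.1) i t.1 := by
      have e1 : gen ϖ (oI' P t) ≠ 0 := gen_ne hU _
      have e2 : scP ϖ (P t.2) j t.2 ≠ 0 := scP_ne hU hp.gy.pt _
      unfold wE' eU wE
      field_simp
    rw [mul_assoc, mul_assoc, ← mul_assoc (sc ϖ (P t.1) i t.1 i), h1, mul_assoc, mul_assoc,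
      ← mul_assoc (sc ϖ (P t.2) j t.2 j), h2]
    linear_combination h3

theorem PC.intAt (hU : Unif S ϖ C) (hi : i ≠ i') (hj : j ≠ j') (hp : PC S P H κ ρ i i' j j' t)
    {v : Pr K} (hv : v ∉ S) :
    IntAt v (wE ϖ P t) (wE' ϖ P i j t) (gen ϖ (rI P i j t)) (gen ϖ (sI P i j t))
      (gen ϖ (gI P i j t)) (gen ϖ (gI P i' j' t)) (xE ϖ P i i' j' t) (zE ϖ P i' j j' t) := by
  have hg := IsI_gen hU (hp.gI_off i j)
  have hh := IsI_gen hU (hp.gI_off i' j')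
  have hr := IsI_gen hU hp.rI_off
  have hs := IsI_gen hU hp.sI_off
  have hx := hp.xE_I hU
  have hz := hp.zE_I hU
  refine ⟨IsI.le_one' (hp.wE_I hU) hv, IsI.le_one' (hp.wE'_I hU) hv, IsI.le_one' hr hv,
    IsI.le_one' hs hv, IsI.le_one' hg hv, IsI.le_one' hh hv, IsI.le_one' hx hv,
    IsI.le_one' hz hv, ?_, ?_, ?_⟩
  · rcases hp.gx.isP.cop hi v with h | h
    · left
      refine IsI.eq_one' hg hv ?_
      show min (P t.1 i v) (P t.2 j v) = 0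
      rw [h]; exact Nat.zero_min _
    · right
      refine IsI.eq_one' hh hv ?_
      show min (P t.1 i' v) (P t.2 j' v) = 0
      rw [h]; exact Nat.zero_min _
  · by_cases h : P t.1 i v ≤ P t.2 j v
    · left
      refine IsI.eq_one' hr hv ?_
      show P t.1 i v - P t.2 j v = 0
      omega
    · right
      refine IsI.eq_one' hs hv ?_
      show P t.2 j v - P t.1 i v = 0
      omega
  · by_cases h : P t.1 i' v ≤ P t.2 j' v
    · left
      refine IsI.eq_one' hx hv ?_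
      show P t.1 i' v - min (P t.1 i' v) (P t.2 j' v) = 0
      omega
    · right
      refine IsI.eq_one' hz hv ?_
      show P t.2 j' v - min (P t.1 i' v) (P t.2 j' v) = 0
      omega

theorem PC.nondeg (hU : Unif S ϖ C) (hi : i ≠ i') (hj : j ≠ j')
    (hp : PC S P H κ ρ i i' j j' t) :
    uE ϖ P i i' j j' t ≠ 0 ∧ DD (wE ϖ P t) (wE' ϖ P i j t) (gen ϖ (rI P i j t))
      (gen ϖ (sI P i j t)) ≠ 0 := by
  by_contra hcon
  have h0 : uE ϖ P i i' j j' t = 0 ∨ DD (wE ϖ P t) (wE' ϖ P i j t) (gen ϖ (rI P i j t))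
      (gen ϖ (sI P i j t)) = 0 := by
    by_contra h
    push Not at h
    exact hcon h
  refine hp.np (Eqn.perm (hp.eqn hU hi hj) hi hj (m := gen ϖ (P t.1 i) / cc i t.1)
    (m' := gen ϖ (P t.2 j) / cc j t.2) (div_ne_zero (gen_ne hU _) (cc_ne hp.gx.pt _))
    (div_ne_zero (gen_ne hU _) (cc_ne hp.gy.pt _)) hp.rg (PC.hx hU) hp.sg (PC.hz hU) h0)

/-- the point is determined by the data -/
theorem PC.inj (hU : Unif S ϖ C) (hi : i ≠ i') (hj : j ≠ j') {t' : K × K}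
    (hp : PC S P H κ ρ i i' j j' t) (hp' : PC S P H κ ρ i i' j j' t')
    (h1 : rI P i j t = rI P i j t') (h2 : sI P i j t = sI P i j t')
    (h3 : gI P i' j' t = gI P i' j' t') (h4 : oI P t = oI P t')
    (h5 : wE' ϖ P i j t = wE' ϖ P i j t') (h6 : uE ϖ P i i' j j' t = uE ϖ P i i' j j' t')
    (h7 : zE ϖ P i' j j' t = zE ϖ P i' j j' t') : t = t' := by
  have E := hp.eqn hU hi hj
  have E' := hp'.eqn hU hi hj
  have hw : wE ϖ P t = wE ϖ P t' := by unfold wE; rw [h4]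
  have u1 : gen ϖ (gI P i' j' t) * uE ϖ P i i' j j' t = _ := E.hu
  have u1' : gen ϖ (gI P i' j' t') * uE ϖ P i i' j j' t' = _ := E'.hu
  have u2 : gen ϖ (gI P i j t) * uE ϖ P i i' j j' t = _ := E.gu
  have u2' : gen ϖ (gI P i j t') * uE ϖ P i i' j j' t' = _ := E'.gu
  have hx : xE ϖ P i i' j' t = xE ϖ P i i' j' t' := by
    rw [← h1, ← h2, ← h3, ← h5, ← h6, ← h7, ← hw, u1] at u1'
    have h8 : (wE ϖ P t * gen ϖ (rI P i j t) ^ 2) * xE ϖ P i i' j' t =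
        (wE ϖ P t * gen ϖ (rI P i j t) ^ 2) * xE ϖ P i i' j' t' := by linear_combination u1'
    exact mul_left_cancel₀ (mul_ne_zero E.w0 (pow_ne_zero _ E.r0)) h8
  have hg : gen ϖ (gI P i j t) = gen ϖ (gI P i j t') := by
    rw [← h1, ← h2, ← h5, ← h6, ← h7, ← hw, ← hx] at u2'
    exact mul_right_cancel₀ (hp.nondeg hU hi hj).1 (u2.trans u2'.symm)
  have a1 := hp.rg (ϖ := ϖ)
  have a1' := hp'.rg (ϖ := ϖ)
  have a2 : gen ϖ (gI P i' j' t) * xE ϖ P i i' j' t = _ := PC.hx hU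
  have a2' : gen ϖ (gI P i' j' t') * xE ϖ P i i' j' t' = _ := PC.hx hU
  have b1 := hp.sg (ϖ := ϖ)
  have b1' := hp'.sg (ϖ := ϖ)
  have b2 : gen ϖ (gI P i' j' t) * zE ϖ P i' j j' t = _ := PC.hz hU
  have b2' : gen ϖ (gI P i' j' t') * zE ϖ P i' j j' t' = _ := PC.hz hU
  rw [← h1, ← hg, a1] at a1'
  rw [← h3, ← hx, a2] at a2'
  rw [← h2, ← hg, b1] at b1'
  rw [← h3, ← h7, b2] at b2'
  have key : ∀ {Q Q' : Fin 3 → Idl K} {x x' : K} {q l : Fin 3}, Pt x → Pt x' → l ≠ q →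
      sc ϖ Q q x q = sc ϖ Q' q x' q → sc ϖ Q q x l = sc ϖ Q' q x' l → x = x' := by
    intro Q Q' x x' q l hx hx' hlq e1 e2
    apply cc_inj hlq
    have n1 := cc_ne hx q
    have n2 := cc_ne hx' q
    have n3 : gen ϖ (Q q) / cc q x ≠ 0 := div_ne_zero (gen_ne hU _) n1
    have n4 : gen ϖ (Q' q) / cc q x' ≠ 0 := div_ne_zero (gen_ne hU _) n2
    unfold sc at e1 e2
    have e3 : (gen ϖ (Q q) / cc q x * (gen ϖ (Q' q) / cc q x')) * (cc l x * cc q x') =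
        (gen ϖ (Q q) / cc q x * (gen ϖ (Q' q) / cc q x')) * (cc l x' * cc q x) := by
      linear_combination (gen ϖ (Q' q) / cc q x' * cc q x') * e2 -
        (gen ϖ (Q' q) / cc q x' * cc l x') * e1
    exact mul_left_cancel₀ (mul_ne_zero n3 n4) e3
  exact Prod.ext (key hp.gx.pt hp'.gx.pt (Ne.symm hi) a1' a2')
    (key hp.gy.pt hp'.gy.pt (Ne.symm hj) b1' b2')

end Facts

end Pool.Agent.K6.H25.RS
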