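import Pool.Agent.K6.H25.RS.Chain

/-!
# The number of good points whose radical almost divides a given ideal
-/

set_option autoImplicit false
set_option linter.unusedSectionVars false

namespace Pool.Agent.K6.H25.RS

open NumberField IsDedekindDomain Finset Pool.Agent.H691R3 Pool.Agent.W223.AK
open Pool.Agent.W462.AK (IsI Bd card_le_mul_fib card_div)

variable {K : Type} [Field K] [NumberField K]

/-- the length of a difference of ideals -/
theorem len_tsub_le (a b : Idl K) : len (a - b) ≤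
    ∑ v ∈ a.support.filter (fun v => b v = 0), Real.log (Nv v) + (len a - rl a) := by
  classical
  have h1 : len (a - b) = ∑ v ∈ a.support, ((a - b) v : ℝ) * Real.log (Nv v) := by
    apply len_eq_sum
    intro v hv
    rw [Finsupp.mem_support_iff] at hv ⊢
    rw [Finsupp.tsub_apply] at hv
    omega
  have h2 : ∑ v ∈ a.support.filter (fun v => b v = 0), Real.log (Nv v) =
      ∑ v ∈ a.support, (if b v = 0 then Real.log (Nv v) else 0) := by
    rw [Finset.sum_filter]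
  rw [h1, h2]
  unfold len rl
  rw [← Finset.sum_sub_distrib, ← Finset.sum_add_distrib]
  refine Finset.sum_le_sum fun v hv => ?_
  have h3 : 0 ≤ Real.log (Nv v) := Real.log_nonneg (Nv_one_lt v).le
  have h4 : 1 ≤ a v := Nat.one_le_iff_ne_zero.2 (Finsupp.mem_support_iff.1 hv)
  rw [Finsupp.tsub_apply]
  split_ifs with h
  · rw [h, Nat.sub_zero]
    linarith
  · have h5 : ((a v - b v : ℕ) : ℝ) ≤ (a v : ℝ) - 1 := by
      have h6 : a v - b v ≤ a v - 1 := Nat.sub_le_sub_left (Nat.one_le_iff_ne_zero.2 h) _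
      have h7 : ((a v - b v : ℕ) : ℝ) ≤ ((a v - 1 : ℕ) : ℝ) := by exact_mod_cast h6
      rwa [Nat.cast_sub h4, Nat.cast_one] at h7
    nlinarith

variable {S : Finset (Pr K)} {ϖ : Pr K → K} {C : ℝ}

/-- the point from the unit -/
theorem point_of_unit (hU : Unif S ϖ C) {P P' : Fin 3 → Idl K} {x x' : K} (hx : Pt x)
    (hx' : Pt x') (hP : P = P')
    (h : sc ϖ P 0 x 1 / gen ϖ (P 1) = sc ϖ P' 0 x' 1 / gen ϖ (P' 1)) : x = x' := by
  subst hP
  have g1 : gen ϖ (P 1) ≠ 0 := gen_ne hU _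
  have g0 : gen ϖ (P 0) ≠ 0 := gen_ne hU _
  have e : ∀ z : K, sc ϖ P 0 z 1 = gen ϖ (P 0) / z := fun z => by
    show gen ϖ (P 0) / z * 1 = _
    rw [mul_one]
  rw [e, e] at h
  have h1 := hx.1
  have h2 := hx'.1
  field_simp at h
  exact h.symm

/-- **The fibres.** -/
theorem fibre (hU : Unif S ϖ C) {ε : ℝ} (hε : 0 < ε) : ∃ D : ℝ, 0 < D ∧
    ∀ (P : K → Fin 3 → Idl K) (H κ : ℝ) (R : Idl K), 0 ≤ H → 0 ≤ κ → ∀ (E : Finset K),
    (∀ x ∈ E, GPt S (P x) H κ x ∧ len (Pr3 (P x) - R) ≤ κ) →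
    (E.card : ℝ) ≤ D * Real.exp (ε * (H + len R) + 2 * κ) := by
  classical
  obtain ⟨ε₁, D₁, hε₁, hε₁1, hD₁, H₁⟩ := small_factor hU hε
  set ε₂ : ℝ := min ε₁ ε with hε₂
  have hε₂0 : 0 < ε₂ := lt_min hε₁ hε
  have hε₂1 : ε₂ ≤ 1 := (min_le_left _ _).trans hε₁1
  have hε₂a : ε₂ ≤ ε₁ := min_le_left _ _
  have hε₂b : ε₂ ≤ ε := min_le_right _ _
  obtain ⟨D₂, hD₂, H₂⟩ := Pool.Agent.W52.AK.cnt (K := K) ε₂ hε₂0
  obtain ⟨D₃, hD₃, H₃⟩ := card_div (K := K) Pool.Agent.W52.AK.fac hε₂0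
  obtain ⟨D₄, hD₄, H₄⟩ := Pool.Agent.W52.AK.fac (K := K) 3 ε₂ hε₂0
  obtain ⟨D₅, hD₅, H₅⟩ := Pool.Agent.W822.AK.su (K := K) S ε₂ hε₂0
  refine ⟨D₂ * D₃ * (D₄ * D₅) * D₁, by positivity, ?_⟩
  intro P H κ R hH hκ E hE
  obtain ⟨T0, T1, T2, T3, T4, T5⟩ := TT_ge hU hH
  have hB0 : 0 ≤ BB S C H := (BB_ge (S := S) hU hH).1
  -- the data of the ideal
  have c1 : ((E.image (fun x => Pr3 (P x) - R)).card : ℝ) ≤ D₂ * Real.exp (κ + ε₂ * κ) := by
    refine H₂ _ _ _ hκ ?_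
    intro a ha
    obtain ⟨x, hx, rfl⟩ := Finset.mem_image.1 ha
    exact ⟨(rl_le_len _).trans (hE x hx).2, (hE x hx).2⟩
  have c2 : ((E.image (fun x => Pr3 (P x) ⊓ R)).card : ℝ) ≤ D₃ * Real.exp (ε₂ * len R) := by
    refine H₃ R _ ?_
    intro a ha
    obtain ⟨x, hx, rfl⟩ := Finset.mem_image.1 ha
    exact inf_le_right
  have c3 := card_image_prod E (fun x => Pr3 (P x) - R) (fun x => Pr3 (P x) ⊓ R)
    (by positivity) c1 c2
  have c4 := card_le_mul_fib E (fun x => (Pr3 (P x) - R, Pr3 (P x) ⊓ R)) _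
    (D₄ * Real.exp (ε₂ * (3 * TT S C H)) * (D₅ * Real.exp (ε₂ * TT S C H))) (by positivity) c3 ?_
  · refine c4.trans ?_
    have e1 : D₂ * Real.exp (κ + ε₂ * κ) * (D₃ * Real.exp (ε₂ * len R)) *
        (D₄ * Real.exp (ε₂ * (3 * TT S C H)) * (D₅ * Real.exp (ε₂ * TT S C H))) =
        D₂ * D₃ * (D₄ * D₅) * (Real.exp (ε₂ * (4 * TT S C H)) *
          Real.exp (κ + ε₂ * κ + ε₂ * len R)) := by
      have e2 : Real.exp (ε₂ * (4 * TT S C H)) = Real.exp (ε₂ * (3 * TT S C H)) *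
          Real.exp (ε₂ * TT S C H) := by rw [← Real.exp_add]; congr 1; ring
      have e3 : Real.exp (κ + ε₂ * κ + ε₂ * len R) = Real.exp (κ + ε₂ * κ) *
          Real.exp (ε₂ * len R) := Real.exp_add _ _
      rw [e2, e3]
      ring
    rw [e1, mul_assoc (D₂ * D₃ * (D₄ * D₅)) D₁]
    refine mul_le_mul_of_nonneg_left ?_ (by positivity)
    have e4 : Real.exp (ε₂ * (4 * TT S C H)) ≤ D₁ * Real.exp (ε * H) := by
      refine le_trans (Real.exp_le_exp.2 ?_) (H₁ H hH)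
      nlinarith
    have hR := len_nonneg R
    calc Real.exp (ε₂ * (4 * TT S C H)) * Real.exp (κ + ε₂ * κ + ε₂ * len R) ≤
        D₁ * Real.exp (ε * H) * Real.exp (ε * len R + 2 * κ) := by
          refine mul_le_mul e4 (Real.exp_le_exp.2 ?_) (Real.exp_pos _).le (by positivity)
          nlinarith
      _ = _ := by
          rw [mul_assoc, ← Real.exp_add]
          congr 2
          ring
  · intro b hb
    obtain ⟨x₁, hx₁, hb1⟩ := Finset.mem_image.1 hb
    set F := E.filter (fun x => (Pr3 (P x) - R, Pr3 (P x) ⊓ R) = b) with hF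
    have hs : ∀ x ∈ F, x ∈ E ∧ Pr3 (P x) = Pr3 (P x₁) := by
      intro x hx
      obtain ⟨a1, a2⟩ := Finset.mem_filter.1 hx
      rw [← hb1] at a2
      have a3 := (Prod.ext_iff.1 a2).1
      have a4 := (Prod.ext_iff.1 a2).2
      simp only at a3 a4
      refine ⟨a1, ?_⟩
      rw [← add_inf_eq (Pr3 (P x)) R, ← add_inf_eq (Pr3 (P x₁)) R, a3, a4]
    have hlen : len (Pr3 (P x₁)) ≤ 3 * TT S C H := by
      have g := (hE x₁ hx₁).1
      have e1 := fun l => Pool.Agent.W462.AK.len_P_le g.pt g.isP g.hH l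
      rw [len_Pr3]
      linarith [e1 0, e1 1, e1 2]
    have d1 : ((F.image P).card : ℝ) ≤ D₄ * Real.exp (ε₂ * (3 * TT S C H)) := by
      refine (H₄ (Pr3 (P x₁)) _ ?_).trans (mul_le_mul_of_nonneg_left (Real.exp_le_exp.2
        (mul_le_mul_of_nonneg_left hlen hε₂0.le)) hD₄.le)
      intro a ha
      obtain ⟨x, hx, rfl⟩ := Finset.mem_image.1 ha
      rw [Fin.sum_univ_three]
      exact (hs x hx).2
    refine card_le_mul_fib F P _ _ (by positivity) d1 ?_
    intro Q hQ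
    set G := F.filter (fun x => P x = Q) with hG
    have hsG : ∀ x ∈ G, x ∈ E ∧ P x = Q := fun x hx =>
      ⟨(hs x (Finset.mem_filter.1 hx).1).1, (Finset.mem_filter.1 hx).2⟩
    have hinj : Set.InjOn (fun x => sc ϖ (P x) 0 x 1 / gen ϖ (P x 1)) (G : Set K) := by
      intro x hx x' hx' he
      have hx := hsG x (Finset.mem_coe.1 hx)
      have hx' := hsG x' (Finset.mem_coe.1 hx')
      exact point_of_unit hU (hE x hx.1).1.pt (hE x' hx'.1).1.pt (hx.2.trans hx'.2.symm) he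
    have d2 := H₅ (TT S C H) (G.image (fun x => sc ϖ (P x) 0 x 1 / gen ϖ (P x 1))) T0 ?_
    · rwa [Finset.card_image_of_injOn hinj] at d2
    · intro y hy
      obtain ⟨x, hx, rfl⟩ := Finset.mem_image.1 hy
      have g := (hE x (hsG x hx).1).1
      have hI := IsI_sc hU g.isP 0 1
      have n1 : sc ϖ (P x) 0 x 1 ≠ 0 := sc_ne hU g.pt 0 1
      refine ⟨div_ne_zero n1 (gen_ne hU _), fun v hv => ?_, fun v hv => ?_⟩
      · rw [map_div₀, hI.2 v hv, fv_gen hU (g.isP.off 1) hv,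
          div_self (zpow_pos (Nv_pos v) _).ne']
      · have b1 : Bd S (BB S C H) (sc ϖ (P x) 0 x 1) := Bd_sc hU g.pt g.isP hH g.hH 0 1
        have b2 := Bd_gen1 hU hH (g.isP.off 1)
          (Pool.Agent.W462.AK.len_P_le g.pt g.isP g.hH 1)
        exact (b1.div b2 n1 (gen_ne hU _) v hv).trans (by linarith)

end Pool.Agent.K6.H25.RS
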