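import Pool.Agent.K6.H25.RS.Aff

/-!
# The number of points with given primes in their radical
-/

set_option autoImplicit false
set_option linter.unusedSectionVars false

namespace Pool.Agent.K6.H25.RS

open NumberField IsDedekindDomain Finset Pool.Agent.H691R3 Pool.Agent.W223.AK
open Pool.Agent.TH876.Loc (sp nn hgt mem_sp nn_pos one_le_nn nn_mono)
open Pool.Agent.TH876.KR (log_nn)
open Pool.Agent.W462.AK (card_le_mul_fib)

variable {K : Type} [Field K] [NumberField K]

theorem zpow_neg_le_inv {v : Pr K} {n : ℕ} (hn : n ≠ 0) : (Nv v) ^ (-(n : ℤ)) ≤ (Nv v)⁻¹ := by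
  have h1 := (Pool.Agent.W462.AK.zpow_neg_le_iff (v := v) (a := n) (b := 1)).2
    (Nat.one_le_iff_ne_zero.2 hn)
  rw [Nat.cast_one, zpow_neg_one] at h1
  exact h1

/-- two points congruent at `v` -/
theorem fv_sub_le {S : Finset (Pr K)} {P P' : Fin 3 → Idl K} {x x' : K} (hP : IsP S x P)
    (hP' : IsP S x' P') {v : Pr K} {l : Fin 3} (h : P l v ≠ 0) (h' : P' l v ≠ 0) :
    fv v (x - x') ≤ max (fv v x) 1 * max (fv v x') 1 * (Nv v)⁻¹ := by
  have hv : v ∉ S := fun hv => h (hP.off l v hv)
  have hM : 1 ≤ max (fv v x) 1 := le_max_right _ _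
  have hM' : 1 ≤ max (fv v x') 1 := le_max_right _ _
  have hi : 0 < (Nv v)⁻¹ := inv_pos.2 (Nv_pos v)
  have e1 : fv v (L l x) ≤ max (fv v x) 1 * (Nv v)⁻¹ := by
    rw [hP.val l v hv]
    exact mul_le_mul_of_nonneg_left (zpow_neg_le_inv h) (by linarith)
  have e1' : fv v (L l x') ≤ max (fv v x') 1 * (Nv v)⁻¹ := by
    rw [hP'.val l v hv]
    exact mul_le_mul_of_nonneg_left (zpow_neg_le_inv h') (by linarith)
  have na : ∀ a b : K, fv v (a - b) ≤ max (fv v a) (fv v b) := by
    intro a b
    have := fv_na v a (-b)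
    rwa [← sub_eq_add_neg, AbsoluteValue.map_neg] at this
  set M := max (fv v x) 1 with hMd
  set M' := max (fv v x') 1 with hMd'
  have f1 : M * (Nv v)⁻¹ ≤ M * M' * (Nv v)⁻¹ := by
    rw [mul_assoc]
    refine mul_le_mul_of_nonneg_left ?_ (by linarith)
    exact le_mul_of_one_le_left hi.le hM'
  have f2 : M' * (Nv v)⁻¹ ≤ M * M' * (Nv v)⁻¹ := by
    rw [mul_assoc]
    exact le_mul_of_one_le_left (by positivity) hM
  fin_cases l
  · have a1 : fv v x ≤ M * (Nv v)⁻¹ := e1
    have a2 : fv v x' ≤ M' * (Nv v)⁻¹ := e1'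
    exact (na x x').trans (max_le (a1.trans f1) (a2.trans f2))
  · have a1 : fv v 1 ≤ M * (Nv v)⁻¹ := e1
    have a2 : fv v 1 ≤ M' * (Nv v)⁻¹ := e1'
    rw [map_one] at a1 a2
    refine (na x x').trans (max_le ?_ ?_)
    · calc fv v x ≤ M := le_max_left _ _
        _ = M * 1 := (mul_one _).symm
        _ ≤ M * (M' * (Nv v)⁻¹) := mul_le_mul_of_nonneg_left a2 (by linarith)
        _ = _ := by ring
    · calc fv v x' ≤ M' := le_max_left _ _
        _ = M' * 1 := (mul_one _).symm
        _ ≤ M' * (M * (Nv v)⁻¹) := mul_le_mul_of_nonneg_left a1 (by linarith)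
        _ = _ := by ring
  · have a1 : fv v (x + 1) ≤ M * (Nv v)⁻¹ := e1
    have a2 : fv v (x' + 1) ≤ M' * (Nv v)⁻¹ := e1'
    have e : x - x' = (x + 1) - (x' + 1) := by ring
    rw [e]
    exact (na _ _).trans (max_le (a1.trans f1) (a2.trans f2))

/-- the distance of two congruent points at an infinite place -/
theorem dist_ge {S : Finset (Pr K)} {P P' : Fin 3 → Idl K} {x x' : K} (hx : Pt x) (hx' : Pt x')
    (hP : IsP S x P) (hP' : IsP S x' P') (hne : x ≠ x') (s : Finset (Pr K))
    (hs : ∀ v ∈ s, ∃ l, P l v ≠ 0 ∧ P' l v ≠ 0) {H : ℝ} (h1 : ht x ≤ H) (h2 : ht x' ≤ H)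
    {w : Pl K} (hw : w ∈ Spl S) :
    Real.log (nn s) - 2 * H - 2 * (Spl S).card ≤ mt w * Real.log (av w (x - x')) -
      mt w * Real.log (max (av w x) 1) - mt w * Real.log (max (av w x') 1) := by
  classical
  have hd0 : x - x' ≠ 0 := sub_ne_zero.2 hne
  have hsS : ∀ v ∈ s, v ∉ S := by
    intro v hv hvS
    obtain ⟨l, hl, _⟩ := hs v hv
    exact hl (hP.off l v hvS)
  set V : Finset (Pr K) := (((fv_support_finite hx.1).toFinset ∪
    (fv_support_finite hx'.1).toFinset ∪ (fv_support_finite hd0).toFinset ∪ s) \ S) with hV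
  have hd : Disjoint S V := Finset.disjoint_sdiff
  have hnot : ∀ v, v ∉ S → v ∉ V → fv v x = 1 ∧ fv v x' = 1 ∧ fv v (x - x') = 1 := by
    intro v hv hv'
    rw [hV, Finset.mem_sdiff, not_and_or, not_not] at hv'
    have h3 := hv'.resolve_right hv
    rw [Finset.mem_union, Finset.mem_union, Finset.mem_union, not_or, not_or, not_or,
      Set.Finite.mem_toFinset, Set.Finite.mem_toFinset, Set.Finite.mem_toFinset] at h3
    exact ⟨not_not.1 h3.1.1.1, not_not.1 h3.1.1.2, not_not.1 h3.1.2⟩
  have hsV : s ⊆ V := by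
    intro v hv
    rw [hV, Finset.mem_sdiff]
    exact ⟨Finset.mem_union_right _ hv, hsS v hv⟩
  have p1 := product_formula S hd0 V (fun v hv hv' => (hnot v hv hv').2.2) hd
  have p2 := ht_eq S x V (fun v hv hv' => (hnot v hv hv').1.le) hd
  have p3 := ht_eq S x' V (fun v hv hv' => (hnot v hv hv').2.1.le) hd
  -- the finite places
  have q1 : ∑ v ∈ V, Real.log (fv v (x - x')) ≤ ∑ v ∈ V, Real.log (max (fv v x) 1) +
      ∑ v ∈ V, Real.log (max (fv v x') 1) - Real.log (nn s) := by
    have e0 : Real.log (nn s) = ∑ v ∈ V, (if v ∈ s then Real.log (Nv v) else 0) := by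
      rw [log_nn, ← Finset.sum_filter]
      refine Finset.sum_congr ?_ fun _ _ => rfl
      ext v
      rw [Finset.mem_filter]
      exact ⟨fun h => ⟨hsV h, h⟩, fun h => h.2⟩
    rw [e0, ← Finset.sum_add_distrib, ← Finset.sum_sub_distrib]
    refine Finset.sum_le_sum fun v _ => ?_
    have m1 : 0 < max (fv v x) 1 := lt_max_of_lt_right one_pos
    have m2 : 0 < max (fv v x') 1 := lt_max_of_lt_right one_pos
    have m3 : 0 < fv v (x - x') := (fv v).pos hd0
    split_ifs with hv
    · obtain ⟨l, hl, hl'⟩ := hs v hv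
      have h3 := Real.log_le_log m3 (fv_sub_le hP hP' hl hl')
      rwa [Real.log_mul (mul_ne_zero m1.ne' m2.ne') (inv_ne_zero (Nv_pos v).ne'),
        Real.log_mul m1.ne' m2.ne', Real.log_inv, ← sub_eq_add_neg] at h3
    · have h3 : fv v (x - x') ≤ max (fv v x) 1 * max (fv v x') 1 := by
        have na : fv v (x - x') ≤ max (fv v x) (fv v x') := by
          have := fv_na v x (-x')
          rwa [← sub_eq_add_neg, AbsoluteValue.map_neg] at this
        refine na.trans (max_le ?_ ?_)
        · exact (le_max_left _ _).trans (le_mul_of_one_le_right m1.le (le_max_right _ _))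
        · exact (le_max_left _ _).trans (le_mul_of_one_le_left m2.le (le_max_right _ _))
      have h4 := Real.log_le_log m3 h3
      rw [Real.log_mul m1.ne' m2.ne'] at h4
      linarith
  -- the special places
  have q2 : ∀ u ∈ Spl S, mt u * Real.log (av u (x - x')) - mt u * Real.log (max (av u x) 1) -
      mt u * Real.log (max (av u x') 1) ≤ 2 := by
    intro u _
    have m1 : 0 < max (av u x) 1 := lt_max_of_lt_right one_pos
    have m2 : 0 < max (av u x') 1 := lt_max_of_lt_right one_pos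
    have m3 : 0 < av u (x - x') := (av u).pos hd0
    have h3 : av u (x - x') ≤ 2 * (max (av u x) 1 * max (av u x') 1) := by
      have h4 : av u (x - x') ≤ 2 * max (av u x) (av u x') := by
        have := av_two u x (-x')
        rwa [← sub_eq_add_neg, AbsoluteValue.map_neg] at this
      refine h4.trans (mul_le_mul_of_nonneg_left (max_le ?_ ?_) (by norm_num))
      · exact (le_max_left _ _).trans (le_mul_of_one_le_right m1.le (le_max_right _ _))
      · exact (le_max_left _ _).trans (le_mul_of_one_le_left m2.le (le_max_right _ _))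
    have h5 := Real.log_le_log m3 h3
    rw [Real.log_mul (by norm_num) (mul_ne_zero m1.ne' m2.ne'), Real.log_mul m1.ne' m2.ne'] at h5
    have h6 := mul_le_mul_of_nonneg_left h5 (mt_pos u).le
    have h7 := Pool.Agent.W462.AK.mt_log_two u
    rw [mul_add, mul_add] at h6
    linarith
  have q3 : ∑ u ∈ Spl S, (mt u * Real.log (av u (x - x')) - mt u * Real.log (max (av u x) 1) -
      mt u * Real.log (max (av u x') 1)) ≥ Real.log (nn s) - 2 * H := by
    rw [Finset.sum_sub_distrib, Finset.sum_sub_distrib]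
    linarith
  rw [← Finset.add_sum_erase _ _ hw] at q3
  have q4 : ∑ u ∈ (Spl S).erase w, (mt u * Real.log (av u (x - x')) -
      mt u * Real.log (max (av u x) 1) - mt u * Real.log (max (av u x') 1)) ≤
      2 * (Spl S).card := by
    calc _ ≤ ∑ u ∈ (Spl S).erase w, (2 : ℝ) :=
          Finset.sum_le_sum fun u hu => q2 u (Finset.mem_of_mem_erase hu)
      _ = ((Spl S).erase w).card * 2 := by rw [Finset.sum_const, nsmul_eq_mul]
      _ ≤ _ := by
          have : (((Spl S).erase w).card : ℝ) ≤ (Spl S).card := by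
            exact_mod_cast Finset.card_erase_le
          linarith
  linarith

/-- **Points with the same congruences.** -/
theorem same_count {S : Finset (Pr K)} (P : K → Fin 3 → Idl K) (E : Finset K)
    (s : Finset (Pr K)) (φ : Pr K → Fin 3) {H : ℝ}
    (hE : ∀ x ∈ E, Pt x ∧ IsP S x (P x) ∧ ht x ≤ H ∧ ∀ v ∈ s, P x (φ v) v ≠ 0) :
    (E.card : ℝ) ≤ 32 * Real.exp (2 * |Real.log 2|) *
      (1 + Real.exp (2 * H + 2 * (Spl S).card - Real.log (nn s))) := by
  classical
  obtain ⟨w⟩ : Nonempty (InfinitePlace K) := inferInstance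
  have hw := mem_Spl_inl S w
  have hm : (0 : ℝ) < w.mult := by exact_mod_cast InfinitePlace.mult_pos
  set U : ℝ := 2 * H + 2 * (Spl S).card - Real.log (nn s) with hU
  have hdist : ∀ x ∈ E, ∀ x' ∈ E, x ≠ x' → -U ≤ w.mult * Real.log (w (x - x')) -
      w.mult * Real.log (max (w x) 1) - w.mult * Real.log (max (w x') 1) := by
    intro x hx x' hx' hne
    obtain ⟨a1, a2, a3, a4⟩ := hE x hx
    obtain ⟨b1, b2, b3, b4⟩ := hE x' hx'
    have := dist_ge a1 b1 a2 b2 hne s (fun v hv => ⟨φ v, a4 v hv, b4 v hv⟩) a3 b3 hw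
    have e : Real.log (nn s) - 2 * H - 2 * (Spl S).card = -U := by rw [hU]; ring
    rw [e] at this
    exact this
  have h21 : (2 : ℝ) / 1 = 2 := by norm_num
  have h1 : (((E.filter (fun x => w x ≤ 1)).card : ℕ) : ℝ) ≤
      16 * Real.exp (2 * |Real.log 2|) * (1 + Real.exp U) := by
    have key := chart_count_pow w (k := 1) one_pos (E.filter (fun x => w x ≤ 1)) id
      Function.injective_id.injOn 1 2 U 0 one_pos two_pos ?_ ?_
    · rw [h21, Nat.cast_one, div_one, sub_zero] at key
      exact key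
    · intro x hx x' hx' hne
      obtain ⟨a1, a2⟩ := Finset.mem_filter.1 hx
      obtain ⟨b1, b2⟩ := Finset.mem_filter.1 hx'
      have h3 := hdist x a1 x' b1 hne
      rw [max_eq_right a2, max_eq_right b2, Real.log_one, mul_zero, sub_zero, sub_zero] at h3
      have hp : 0 < w (x - x') := w.pos_iff.2 (sub_ne_zero.2 hne)
      rw [one_mul, pow_one, id, id]
      calc Real.exp (-U / w.mult) ≤ Real.exp (Real.log (w (x - x'))) := by
            apply Real.exp_le_exp.2
            rw [div_le_iff₀ hm]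
            linarith
        _ = _ := Real.exp_log hp
    · intro x hx x' hx' hne
      obtain ⟨a1, a2⟩ := Finset.mem_filter.1 hx
      obtain ⟨b1, b2⟩ := Finset.mem_filter.1 hx'
      rw [neg_zero, zero_div, Real.exp_zero, mul_one, pow_one, id, id]
      have h4 : w (x - x') ≤ w x + w x' := by
        have := w.1.sub_le_add x x'
        exact this
      linarith
  have h2 : (((E.filter (fun x => ¬ w x ≤ 1)).card : ℕ) : ℝ) ≤
      16 * Real.exp (2 * |Real.log 2|) * (1 + Real.exp U) := by
    have key := chart_count_pow w (k := 1) one_pos (E.filter (fun x => ¬ w x ≤ 1))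
      (fun x => x⁻¹) (inv_injective.injOn) 1 2 U 0 one_pos two_pos ?_ ?_
    · rw [h21, Nat.cast_one, div_one, sub_zero] at key
      exact key
    · intro x hx x' hx' hne
      obtain ⟨a1, a2⟩ := Finset.mem_filter.1 hx
      obtain ⟨b1, b2⟩ := Finset.mem_filter.1 hx'
      rw [not_le] at a2 b2
      have h3 := hdist x a1 x' b1 hne
      rw [max_eq_left a2.le, max_eq_left b2.le] at h3
      have hp : 0 < w (x - x') := w.pos_iff.2 (sub_ne_zero.2 hne)
      have hx0 : x ≠ 0 := (hE x a1).1.1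
      have hx0' : x' ≠ 0 := (hE x' b1).1.1
      have e : x⁻¹ - x'⁻¹ = -((x - x') / (x * x')) := by
        field_simp
        ring
      have ew : w (x⁻¹ - x'⁻¹) = w (x - x') / (w x * w x') := by
        rw [e]
        have : w (-((x - x') / (x * x'))) = w ((x - x') / (x * x')) := w.1.map_neg _
        rw [this, map_div₀, map_mul]
      rw [one_mul, pow_one, ew]
      have hpos : 0 < w (x - x') / (w x * w x') := by
        have := w.pos_iff.2 hx0
        have := w.pos_iff.2 hx0'
        positivity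
      calc Real.exp (-U / w.mult) ≤ Real.exp (Real.log (w (x - x') / (w x * w x'))) := by
            apply Real.exp_le_exp.2
            rw [div_le_iff₀ hm, Real.log_div hp.ne' (mul_ne_zero (w.pos_iff.2 hx0).ne'
              (w.pos_iff.2 hx0').ne'), Real.log_mul (w.pos_iff.2 hx0).ne' (w.pos_iff.2 hx0').ne']
            linarith
        _ = _ := Real.exp_log hpos
    · intro x hx x' hx' hne
      obtain ⟨a1, a2⟩ := Finset.mem_filter.1 hx
      obtain ⟨b1, b2⟩ := Finset.mem_filter.1 hx'
      rw [not_le] at a2 b2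
      rw [neg_zero, zero_div, Real.exp_zero, mul_one, pow_one]
      have h4 : w (x⁻¹ - x'⁻¹) ≤ w x⁻¹ + w x'⁻¹ := w.1.sub_le_add _ _
      have h5 : w x⁻¹ ≤ 1 := by
        rw [map_inv₀]
        exact inv_le_one_of_one_le₀ a2.le
      have h6 : w x'⁻¹ ≤ 1 := by
        rw [map_inv₀]
        exact inv_le_one_of_one_le₀ b2.le
      linarith
  have h3 : E.card = (E.filter (fun x => w x ≤ 1)).card +
      (E.filter (fun x => ¬ w x ≤ 1)).card :=
    (Finset.card_filter_add_card_filter_not _).symm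
  rw [h3]
  push_cast
  linarith

/-- **Points whose radical contains given primes.** -/
theorem contain_count {S : Finset (Pr K)} (E : Finset K) (s : Finset (Pr K))
    (hsS : ∀ v ∈ s, v ∉ S) {H : ℝ} (hE : ∀ x ∈ E, Pt x ∧ ht x ≤ H ∧ ∀ v ∈ s, v ∈ sp x) :
    (E.card : ℝ) ≤ 3 ^ s.card * (32 * Real.exp (2 * |Real.log 2|) *
      (1 + Real.exp (2 * H + 2 * (Spl S).card - Real.log (nn s)))) := by
  classical
  have hex : ∀ x : K, ∃ P : Fin 3 → Idl K, Pt x → IsP S x P := by
    intro x
    by_cases hx : Pt x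
    · obtain ⟨P, hP⟩ := exists_isP S hx
      exact ⟨P, fun _ => hP⟩
    · exact ⟨0, fun h => absurd h hx⟩
  choose P hP using hex
  have hex2 : ∀ (x : K) (v : Pr K), ∃ l : Fin 3, (x ∈ E → v ∈ s → P x l v ≠ 0) := by
    intro x v
    by_cases h : x ∈ E ∧ v ∈ s
    · obtain ⟨a1, _, a3⟩ := hE x h.1
      obtain ⟨l, hl⟩ := Pr3_ne ((mem_supp_Pr3 a1 (hP x a1) v).2 ⟨a3 v h.2, hsS v h.2⟩)
      exact ⟨l, fun _ _ => hl⟩
    · exact ⟨0, fun h1 h2 => absurd ⟨h1, h2⟩ h⟩
  choose g hg using hex2
  set f : K → ({v // v ∈ s} → Fin 3) := fun x v => g x v.1 with hf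
  have h1 : ((E.image f).card : ℝ) ≤ 3 ^ s.card := by
    have e1 : (E.image f).card ≤ Fintype.card ({v // v ∈ s} → Fin 3) := Finset.card_le_univ _
    have e2 : Fintype.card ({v // v ∈ s} → Fin 3) = 3 ^ s.card := by
      rw [Fintype.card_fun, Fintype.card_fin, Fintype.card_coe]
    rw [e2] at e1
    exact_mod_cast e1
  refine card_le_mul_fib E f _ _ (by positivity) h1 ?_
  intro b hb
  refine same_count P _ s (fun v => if hv : v ∈ s then b ⟨v, hv⟩ else 0) ?_
  intro x hx
  obtain ⟨hx1, hx2⟩ := Finset.mem_filter.1 hx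
  obtain ⟨a1, a2, a3⟩ := hE x hx1
  refine ⟨a1, hP x a1, a2, fun v hv => ?_⟩
  rw [dif_pos hv, ← hx2]
  exact hg x v hx1 hv

end Pool.Agent.K6.H25.RS
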