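import Pool.Agent.K6.H25.RS.Data

/-!
# The number of pairs with almost the same radical
-/

set_option autoImplicit false
set_option linter.unusedSectionVars false

namespace Pool.Agent.K6.H25.RS

open NumberField IsDedekindDomain Finset Pool.Agent.H691R3 Pool.Agent.W223.AK
open Pool.Agent.W462.AK (IsI Bd idl idl_spec card_le_mul_fib)

variable {K : Type} [Field K] [NumberField K]

section Facts

variable {S : Finset (Pr K)} {ϖ : Pr K → K} {C : ℝ} {P : K → Fin 3 → Idl K} {H κ ρ : ℝ}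
  {i i' j j' : Fin 3} {t : K × K}

theorem log_sc (hU : Unif S ϖ C) {Q : Fin 3 → Idl K} {x : K} (hx : Pt x) (u : Pl K)
    (q l : Fin 3) : mt u * Real.log (av u (sc ϖ Q q x l)) =
      mt u * Real.log (av u (gen ϖ (Q q))) + lm u q x - lm u l x := by
  rw [abv_sc]
  unfold Pool.Agent.W462.AK.A
  rw [Pool.Agent.W462.AK.lm_eq hx, Pool.Agent.W462.AK.lm_eq hx, map_div₀, map_mul,
    Real.log_div (mul_ne_zero ((av u).ne_zero (gen_ne hU _)) ((av u).ne_zero (L_ne hx l)))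
    ((av u).ne_zero (L_ne hx q)),
    Real.log_mul ((av u).ne_zero (gen_ne hU _)) ((av u).ne_zero (L_ne hx l))]
  ring

theorem PC.len_i (hp : PC S P H κ ρ i i' j j' t) (l : Fin 3) :
    len (P t.1 l) ≤ H + 2 * (Spl S).card :=
  Pool.Agent.W462.AK.len_P_le hp.gx.pt hp.gx.isP hp.gx.hH l

theorem PC.len_j (hp : PC S P H κ ρ i i' j j' t) (l : Fin 3) :
    len (P t.2 l) ≤ H + 2 * (Spl S).card :=
  Pool.Agent.W462.AK.len_P_le hp.gy.pt hp.gy.isP hp.gy.hH l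

theorem PC.len_rg : len (rI P i j t) + len (gI P i j t) = len (P t.1 i) := by
  rw [← len_add]
  congr 1
  exact add_inf_eq _ _

theorem PC.len_sg : len (sI P i j t) + len (gI P i j t) = len (P t.2 j) := by
  rw [← len_add]
  congr 1
  exact add_inf_eq' _ _

/-- upper bound for `ζ` -/
theorem PC.zE_ub (hU : Unif S ϖ C) (hp : PC S P H κ ρ i i' j j' t) {u : Pl K}
    (hu : u ∈ Spl S) : mt u * Real.log (av u (zE ϖ P i' j j' t)) ≤
      mt u * Real.log (av u (gen ϖ (sI P i j t))) +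
      mt u * Real.log (av u (gen ϖ (gI P i j t))) + 2 * κ -
      mt u * Real.log (av u (gen ϖ (gI P i' j' t))) := by
  have h1 := log_sc (ϖ := ϖ) (Q := P t.2) hU hp.gy.pt u j j'
  have h2 := log_sc (ϖ := ϖ) (Q := P t.2) hU hp.gy.pt u j j
  rw [← hp.sg (ϖ := ϖ), map_mul,
    Real.log_mul ((av u).ne_zero (gen_ne hU _)) ((av u).ne_zero (gen_ne hU _))] at h2
  have h3 := abs_le.1 (hp.gy.lm_le u hu j)
  have h4 := abs_le.1 (hp.gy.lm_le u hu j')
  unfold zE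
  rw [map_div₀, Real.log_div ((av u).ne_zero (sc_ne hU hp.gy.pt _ _))
    ((av u).ne_zero (gen_ne hU _)), mul_sub, h1]
  linarith

/-- **The packing.** -/
theorem fib0 (hU : Unif S ϖ C) (hi : i ≠ i') (hj : j ≠ j') (hκ : 0 ≤ κ)
    (Q : Finset (K × K)) (hQ : ∀ t ∈ Q, PC S P H κ ρ i i' j j' t) {t₀ : K × K} (ht₀ : t₀ ∈ Q)
    (h1 : ∀ t ∈ Q, rI P i j t = rI P i j t₀) (h2 : ∀ t ∈ Q, sI P i j t = sI P i j t₀)
    (h3 : ∀ t ∈ Q, gI P i' j' t = gI P i' j' t₀) (h4 : ∀ t ∈ Q, oI P t = oI P t₀)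
    (h5 : ∀ t ∈ Q, oI' P t = oI' P t₀) (h6 : ∀ t ∈ Q, eU ϖ P i j t = eU ϖ P i j t₀)
    (h7 : ∀ t ∈ Q, uE ϖ P i i' j j' t = uE ϖ P i i' j j' t₀)
    (h8 : ∀ t ∈ Q, ∀ u ∈ Spl S, ⌊mt u * Real.log (av u (gen ϖ (gI P i j t)))⌋ =
      ⌊mt u * Real.log (av u (gen ϖ (gI P i j t₀)))⌋) :
    (Q.card : ℝ) ≤ 32 * Real.exp (H + (5 * (Spl S).card + 1) * (κ + 1) -
      len (rI P i j t₀) - len (gI P i' j' t₀)) := by
  classical
  have h9 : ∀ t ∈ Q, wE' ϖ P i j t = wE' ϖ P i j t₀ := by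
    intro t ht
    unfold wE'
    rw [h5 t ht, h6 t ht]
  have hinj : Set.InjOn (zE ϖ P i' j j') (Q : Set (K × K)) := by
    intro t ht t' ht' he
    have ht := Finset.mem_coe.1 ht
    have ht' := Finset.mem_coe.1 ht'
    exact PC.inj hU hi hj (hQ t ht) (hQ t' ht') ((h1 t ht).trans (h1 t' ht').symm)
      ((h2 t ht).trans (h2 t' ht').symm) ((h3 t ht).trans (h3 t' ht').symm)
      ((h4 t ht).trans (h4 t' ht').symm) ((h9 t ht).trans (h9 t' ht').symm)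
      ((h7 t ht).trans (h7 t' ht').symm) he
  set Z : Finset K := Q.image (zE ϖ P i' j j') with hZ
  set N : ℝ := ((Spl S).card : ℝ) with hN
  have hN0 : 0 ≤ N := Nat.cast_nonneg _
  set U : Pl K → ℝ := fun u => mt u * Real.log (av u (gen ϖ (sI P i j t₀))) +
    ((⌊mt u * Real.log (av u (gen ϖ (gI P i j t₀)))⌋ : ℝ) + 1) + 2 * κ -
    mt u * Real.log (av u (gen ϖ (gI P i' j' t₀))) with hUd
  have p0 := hQ t₀ ht₀
  have hsI := (IsI_gen hU p0.sI_off).len_eq (gen_ne hU _)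
  have hhI := (IsI_gen hU (p0.gI_off i' j')).len_eq (gen_ne hU _)
  have hgI := (IsI_gen hU (p0.gI_off i j)).len_eq (gen_ne hU _)
  have hrI := (IsI_gen hU p0.rI_off).len_eq (gen_ne hU _)
  have hwI := (p0.wE'_I hU).len_eq (p0.wE'_ne hU)
  have key := pack S Z U (2 * len (rI P i j t₀) - len (oI' P t₀)) ?_ ?_ ?_
  · rw [hZ, Finset.card_image_of_injOn hinj] at key
    have e1 : ∑ u ∈ Spl S, (U u + 2) ≤ len (sI P i j t₀) + len (gI P i j t₀) +
        N * (3 + 2 * κ) - len (gI P i' j' t₀) := by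
      have e2 : ∑ u ∈ Spl S, (U u + 2) = ∑ u ∈ Spl S,
          mt u * Real.log (av u (gen ϖ (sI P i j t₀))) +
          ∑ u ∈ Spl S, ((⌊mt u * Real.log (av u (gen ϖ (gI P i j t₀)))⌋ : ℤ) : ℝ) +
          ∑ u ∈ Spl S, (3 + 2 * κ) -
          ∑ u ∈ Spl S, mt u * Real.log (av u (gen ϖ (gI P i' j' t₀))) := by
        rw [← Finset.sum_add_distrib, ← Finset.sum_add_distrib, ← Finset.sum_sub_distrib]
        refine Finset.sum_congr rfl fun u _ => ?_
        rw [hUd]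
        ring
      rw [e2, ← hsI, ← hhI, Finset.sum_const, nsmul_eq_mul, ← hN]
      have e3 : ∑ u ∈ Spl S, ((⌊mt u * Real.log (av u (gen ϖ (gI P i j t₀)))⌋ : ℤ) : ℝ) ≤
          len (gI P i j t₀) := by
        rw [hgI]
        exact Finset.sum_le_sum fun u _ => Int.floor_le _
      linarith
    have e4 := p0.len_j j
    have e5 := PC.len_sg (P := P) (i := i) (j := j) (t := t₀)
    have e6 := p0.om'
    have e7 := p0.len_i i
    have e8 := PC.len_rg (P := P) (i := i) (j := j) (t := t₀)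
    have e9 := p0.mx
    have e10 := len_nonneg (rI P i j t₀)
    set R := H + (5 * N + 1) * (κ + 1) - len (rI P i j t₀) - len (gI P i' j' t₀) with hR
    have e11 : (oI' P t₀) = Pr3 (P t₀.1) - Pr3 (P t₀.2) := rfl
    rw [← e11] at e6
    have e12 : len (gI P i' j' t₀) ≤ len (gI P i j t₀) := e9
    have e13 : 0 ≤ N * κ := by positivity
    have f1 : ∑ u ∈ Spl S, (U u + 2) - (2 * len (rI P i j t₀) - len (oI' P t₀)) ≤ R := by
      rw [hR]
      nlinarith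
    have f2 : 0 ≤ R := by
      rw [hR]
      nlinarith
    have f3 : 1 ≤ Real.exp R := Real.one_le_exp f2
    have f4 := Real.exp_le_exp.2 f1
    linarith
  · intro z hz
    obtain ⟨t, ht, rfl⟩ := Finset.mem_image.1 hz
    exact (hQ t ht).zE_ne hU
  · intro z hz u hu
    obtain ⟨t, ht, rfl⟩ := Finset.mem_image.1 hz
    have a1 := (hQ t ht).zE_ub hU hu
    rw [h2 t ht, h3 t ht] at a1
    have a2 := Int.lt_floor_add_one (mt u * Real.log (av u (gen ϖ (gI P i j t))))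
    rw [h8 t ht u hu] at a2
    rw [hUd]
    show _ ≤ mt u * Real.log (av u (gen ϖ (sI P i j t₀))) +
      ((⌊mt u * Real.log (av u (gen ϖ (gI P i j t₀)))⌋ : ℝ) + 1) + 2 * κ -
      mt u * Real.log (av u (gen ϖ (gI P i' j' t₀)))
    linarith
  · intro z hz z' hz' hne
    obtain ⟨t, ht, rfl⟩ := Finset.mem_image.1 hz
    obtain ⟨t', ht', rfl⟩ := Finset.mem_image.1 hz'
    have p := hQ t ht
    have p' := hQ t' ht'
    have hwt : wE ϖ P t' = wE ϖ P t := by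
      unfold wE
      rw [h4 t ht, h4 t' ht']
    have hwt' : wE' ϖ P i j t' = wE' ϖ P i j t := (h9 t' ht').trans (h9 t ht).symm
    have hr : rI P i j t' = rI P i j t := (h1 t' ht').trans (h1 t ht).symm
    have hs : sI P i j t' = sI P i j t := (h2 t' ht').trans (h2 t ht).symm
    have hh : gI P i' j' t' = gI P i' j' t := (h3 t' ht').trans (h3 t ht).symm
    have E := p.eqn hU hi hj
    have E' := p'.eqn hU hi hj
    rw [hwt, hwt', hr, hs, hh] at E'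
    have hu : uE ϖ P i i' j j' t = uE ϖ P i i' j j' t' := (h7 t ht).trans (h7 t' ht').symm
    unfold uE at hu
    rw [hwt, hwt', hr, hs, hh] at hu
    set z₁ := zE ϖ P i' j j' t with hz₁
    set z₂ := zE ϖ P i' j j' t' with hz₂
    set W := wE' ϖ P i j t with hW
    set r := gen ϖ (rI P i j t) with hrr
    have hW0 : W ≠ 0 := p.wE'_ne hU
    have hr0 : r ≠ 0 := gen_ne hU _
    have hd0 : z₁ - z₂ ≠ 0 := sub_ne_zero.2 hne
    have hz0 : W * (z₁ - z₂) / r ^ 2 ≠ 0 :=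
      div_ne_zero (mul_ne_zero hW0 hd0) (pow_ne_zero _ hr0)
    have hint : ∀ v, v ∉ S → fv v (W * (z₁ - z₂) / r ^ 2) ≤ 1 := by
      intro v hv
      have I := p.intAt hU hi hj hv
      have I' := p'.intAt hU hi hj hv
      rw [hwt, hwt', hr, hs, hh] at I'
      exact diff_int E E' I I' hu
    have h10 := (idl_spec S hz0 hint).len_eq hz0
    have h11 := len_nonneg (idl S (W * (z₁ - z₂) / r ^ 2))
    rw [h10] at h11
    have h12 : ∑ u ∈ Spl S, mt u * Real.log (av u (W * (z₁ - z₂) / r ^ 2)) =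
        ∑ u ∈ Spl S, mt u * Real.log (av u W) +
        ∑ u ∈ Spl S, mt u * Real.log (av u (z₁ - z₂)) -
        2 * ∑ u ∈ Spl S, mt u * Real.log (av u r) := by
      rw [Finset.mul_sum, ← Finset.sum_add_distrib, ← Finset.sum_sub_distrib]
      refine Finset.sum_congr rfl fun u _ => ?_
      rw [map_div₀, map_mul, map_pow, Real.log_div (mul_ne_zero ((av u).ne_zero hW0)
        ((av u).ne_zero hd0)) (pow_ne_zero _ ((av u).ne_zero hr0)),
        Real.log_mul ((av u).ne_zero hW0) ((av u).ne_zero hd0), Real.log_pow]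
      push_cast
      ring
    rw [h12] at h11
    have h13 : len (oI' P t₀) = ∑ u ∈ Spl S, mt u * Real.log (av u W) := by
      rw [hwI, hW, h9 t ht]
    have h14 : len (rI P i j t₀) = ∑ u ∈ Spl S, mt u * Real.log (av u r) := by
      rw [hrI, hrr, h1 t ht]
    rw [h13, h14]
    linarith

/-! ### sizes -/

/-- the basic size -/
noncomputable def BB (S : Finset (Pr K)) (C H : ℝ) : ℝ := (C + 2) * (H + 2 * (Spl S).card)

theorem BB_ge (hU : Unif S ϖ C) (hH : 0 ≤ H) :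
    0 ≤ BB S C H ∧ C * (H + 2 * (Spl S).card) ≤ BB S C H := by
  have h1 := hU.one_le
  have h2 : (0 : ℝ) ≤ (Spl S).card := Nat.cast_nonneg _
  unfold BB
  constructor
  · positivity
  · nlinarith

theorem Bd_gen1 (hU : Unif S ϖ C) (hH : 0 ≤ H) {I : Idl K} (hI : OffS S I)
    (h : len I ≤ H + 2 * (Spl S).card) : Bd S (BB S C H) (gen ϖ I) :=
  (Bd.gen hU hI h).mono (BB_ge hU hH).2

theorem Bd_gen3 (hU : Unif S ϖ C) (hH : 0 ≤ H) {I : Idl K} (hI : OffS S I)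
    (h : len I ≤ 3 * (H + 2 * (Spl S).card)) : Bd S (3 * BB S C H) (gen ϖ I) :=
  (Bd.gen hU hI h).mono (by have := (BB_ge (S := S) hU hH).2; linarith)

theorem PC.len_rI (hp : PC S P H κ ρ i i' j j' t) : len (rI P i j t) ≤ H + 2 * (Spl S).card :=
  (len_mono tsub_le_self).trans (hp.len_i i)

theorem PC.len_sI (hp : PC S P H κ ρ i i' j j' t) : len (sI P i j t) ≤ H + 2 * (Spl S).card :=
  (len_mono tsub_le_self).trans (hp.len_j j)

theorem PC.len_gI (hp : PC S P H κ ρ i i' j j' t) (a b : Fin 3) :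
    len (gI P a b t) ≤ H + 2 * (Spl S).card :=
  (len_mono inf_le_left).trans (hp.len_i a)

theorem len_Pr3 (Q : Fin 3 → Idl K) : len (Pr3 Q) = len (Q 0) + len (Q 1) + len (Q 2) := by
  unfold Pr3
  rw [len_add, len_add]

theorem PC.len_oI (hp : PC S P H κ ρ i i' j j' t) :
    len (oI P t) ≤ 3 * (H + 2 * (Spl S).card) := by
  have h0 : len (oI P t) ≤ len (Pr3 (P t.2)) := len_mono tsub_le_self
  rw [len_Pr3] at h0
  linarith [hp.len_j 0, hp.len_j 1, hp.len_j 2]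

theorem PC.len_oI' (hp : PC S P H κ ρ i i' j j' t) :
    len (oI' P t) ≤ 3 * (H + 2 * (Spl S).card) := by
  have h0 : len (oI' P t) ≤ len (Pr3 (P t.1)) := len_mono tsub_le_self
  rw [len_Pr3] at h0
  linarith [hp.len_i 0, hp.len_i 1, hp.len_i 2]

theorem Bd_scP (hU : Unif S ϖ C) (hH : 0 ≤ H) {Q : Fin 3 → Idl K} {x : K}
    (hg : GPt S Q H κ x) (q : Fin 3) : Bd S (3 * BB S C H) (scP ϖ Q q x) := by
  have h : ∀ l, Bd S (BB S C H) (sc ϖ Q q x l) := fun l => Bd_sc hU hg.pt hg.isP hH hg.hH q l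
  have n : ∀ l, sc ϖ Q q x l ≠ 0 := fun l => sc_ne hU hg.pt q l
  exact (((h 0).mul (h 1) (n 0) (n 1)).mul (h 2) (mul_ne_zero (n 0) (n 1)) (n 2)).mono
    (by linarith)

theorem PC.eU_Bd (hU : Unif S ϖ C) (hH : 0 ≤ H) (hp : PC S P H κ ρ i i' j j' t) :
    Bd S (12 * BB S C H) (eU ϖ P i j t) := by
  have a1 := Bd_gen3 hU hH hp.oI_off hp.len_oI
  have a2 := Bd_gen3 hU hH hp.oI'_off hp.len_oI'
  have b1 := Bd_scP hU hH hp.gx i
  have b2 := Bd_scP hU hH hp.gy j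
  have c1 : scP ϖ (P t.1) i t.1 ≠ 0 := scP_ne hU hp.gx.pt i
  have c2 : scP ϖ (P t.2) j t.2 ≠ 0 := scP_ne hU hp.gy.pt j
  exact ((a1.mul b1 (gen_ne hU _) c1).div (a2.mul b2 (gen_ne hU _) c2)
    (mul_ne_zero (gen_ne hU _) c1) (mul_ne_zero (gen_ne hU _) c2)).mono (by linarith)

theorem PC.wE_Bd (hU : Unif S ϖ C) (hH : 0 ≤ H) (hp : PC S P H κ ρ i i' j j' t) :
    Bd S (3 * BB S C H) (wE ϖ P t) := Bd_gen3 hU hH hp.oI_off hp.len_oI

theorem PC.wE'_Bd (hU : Unif S ϖ C) (hH : 0 ≤ H) (hp : PC S P H κ ρ i i' j j' t) :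
    Bd S (15 * BB S C H) (wE' ϖ P i j t) :=
  ((hp.eU_Bd hU hH).mul (Bd_gen3 hU hH hp.oI'_off hp.len_oI') (hp.eU_ne hU)
    (gen_ne hU _)).mono (by linarith)

theorem PC.xE_Bd (hU : Unif S ϖ C) (hH : 0 ≤ H) (hp : PC S P H κ ρ i i' j j' t) :
    Bd S (2 * BB S C H) (xE ϖ P i i' j' t) :=
  ((Bd_sc hU hp.gx.pt hp.gx.isP hH hp.gx.hH i i').div (Bd_gen1 hU hH (hp.gI_off i' j')
    (hp.len_gI i' j')) (sc_ne hU hp.gx.pt _ _) (gen_ne hU _)).mono (by
      have : BB S C H = (C + 2) * (H + 2 * (Spl S).card) := rfl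
      linarith)

theorem PC.zE_Bd (hU : Unif S ϖ C) (hH : 0 ≤ H) (hp : PC S P H κ ρ i i' j j' t) :
    Bd S (2 * BB S C H) (zE ϖ P i' j j' t) :=
  ((Bd_sc hU hp.gy.pt hp.gy.isP hH hp.gy.hH j j').div (Bd_gen1 hU hH (hp.gI_off i' j')
    (hp.len_gI i' j')) (sc_ne hU hp.gy.pt _ _) (gen_ne hU _)).mono (by
      have : BB S C H = (C + 2) * (H + 2 * (Spl S).card) := rfl
      linarith)

theorem bd_pow {T : ℝ} {y : K} (h : Bd S T y) (n : ℕ) : Bd S (n * T) (y ^ n) := by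
  intro u hu
  rw [map_pow, Real.log_pow, mul_left_comm, abs_mul, Nat.abs_cast]
  exact mul_le_mul_of_nonneg_left (h u hu) (Nat.cast_nonneg _)

theorem bd_ub {T : ℝ} {y : K} (h : Bd S T y) {u : Pl K} (hu : u ∈ Spl S) :
    mt u * Real.log (av u y) ≤ T := (abs_le.1 (h u hu)).2

theorem PC.uE_ub (hU : Unif S ϖ C) (hH : 0 ≤ H) (hi : i ≠ i') (hj : j ≠ j')
    (hp : PC S P H κ ρ i i' j j' t) :
    ∀ u ∈ Spl S, mt u * Real.log (av u (uE ϖ P i i' j j' t)) ≤ 20 * BB S C H + 2 := by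
  intro u hu
  have hB0 := (BB_ge (S := S) hU hH).1
  have br := Bd_gen1 hU hH hp.rI_off hp.len_rI
  have bs := Bd_gen1 hU hH hp.sI_off hp.len_sI
  have bh := Bd_gen1 hU hH (hp.gI_off i' j') (hp.len_gI i' j')
  have hr0 : gen ϖ (rI P i j t) ≠ 0 := gen_ne hU _
  have hs0 : gen ϖ (sI P i j t) ≠ 0 := gen_ne hU _
  have hh0 : gen ϖ (gI P i' j' t) ≠ 0 := gen_ne hU _
  have hw0 : wE ϖ P t ≠ 0 := gen_ne hU _
  have hw'0 := hp.wE'_ne hU
  have hx0 := hp.xE_ne hU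
  have hz0 := hp.zE_ne hU
  have b1 := bd_ub (((hp.wE_Bd hU hH).mul (bd_pow br 2) hw0 (pow_ne_zero _ hr0)).mul
    (hp.xE_Bd hU hH) (mul_ne_zero hw0 (pow_ne_zero _ hr0)) hx0) hu
  have b2 := bd_ub (((hp.wE'_Bd hU hH).mul (bd_pow bs 2) hw'0 (pow_ne_zero _ hs0)).mul
    (hp.zE_Bd hU hH) (mul_ne_zero hw'0 (pow_ne_zero _ hs0)) hz0) hu
  have hn := (hp.nondeg hU hi hj).1
  have hne : wE ϖ P t * gen ϖ (rI P i j t) ^ 2 * xE ϖ P i i' j' t -
      wE' ϖ P i j t * gen ϖ (sI P i j t) ^ 2 * zE ϖ P i' j j' t ≠ 0 := by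
    intro h
    apply hn
    unfold uE uu
    rw [h, zero_div]
  have b3 := ub_sub' (u := u) (T := 19 * BB S C H) (by push_cast at b1 ⊢; linarith)
    (by push_cast at b2 ⊢; linarith) (mul_ne_zero (mul_ne_zero hw0 (pow_ne_zero _ hr0)) hx0)
    (mul_ne_zero (mul_ne_zero hw'0 (pow_ne_zero _ hs0)) hz0) hne
  unfold uE uu
  rw [map_div₀, Real.log_div ((av u).ne_zero hne) ((av u).ne_zero hh0), mul_sub]
  have b4 := (abs_le.1 (bh u hu)).1
  linarith

/-- the number divisible by `u` -/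
noncomputable def DE (ϖ : Pr K → K) (P : K → Fin 3 → Idl K) (i j : Fin 3) (t : K × K) : K :=
  DD (wE ϖ P t) (wE' ϖ P i j t) (gen ϖ (rI P i j t)) (gen ϖ (sI P i j t))

theorem PC.DE_ub (hU : Unif S ϖ C) (hH : 0 ≤ H) (hi : i ≠ i') (hj : j ≠ j')
    (hp : PC S P H κ ρ i i' j j' t) :
    ∀ u ∈ Spl S, mt u * Real.log (av u (DE ϖ P i j t)) ≤ 38 * BB S C H + 2 := by
  intro u hu
  have hB0 := (BB_ge (S := S) hU hH).1
  have br := Bd_gen1 hU hH hp.rI_off hp.len_rI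
  have bs := Bd_gen1 hU hH hp.sI_off hp.len_sI
  have hr0 : gen ϖ (rI P i j t) ≠ 0 := gen_ne hU _
  have hs0 : gen ϖ (sI P i j t) ≠ 0 := gen_ne hU _
  have hw0 : wE ϖ P t ≠ 0 := gen_ne hU _
  have hw'0 := hp.wE'_ne hU
  have b1 := bd_ub ((hp.wE_Bd hU hH).mul (bd_pow br 3) hw0 (pow_ne_zero _ hr0)) hu
  have b2 := bd_ub ((hp.wE'_Bd hU hH).mul (bd_pow bs 3) hw'0 (pow_ne_zero _ hs0)) hu
  have hn := (hp.nondeg hU hi hj).2
  have hne : wE ϖ P t * gen ϖ (rI P i j t) ^ 3 - wE' ϖ P i j t * gen ϖ (sI P i j t) ^ 3 ≠ 0 := by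
    intro h
    apply hn
    unfold DD
    rw [h, mul_zero]
  have b3 := ub_sub' (u := u) (T := 18 * BB S C H) (by push_cast at b1 ⊢; linarith)
    (by push_cast at b2 ⊢; linarith) (mul_ne_zero hw0 (pow_ne_zero _ hr0))
    (mul_ne_zero hw'0 (pow_ne_zero _ hs0)) hne
  have b4 := bd_ub ((((hp.wE_Bd hU hH).mul (hp.wE'_Bd hU hH) hw0 hw'0).mul br
    (mul_ne_zero hw0 hw'0) hr0).mul bs (mul_ne_zero (mul_ne_zero hw0 hw'0) hr0) hs0) hu
  unfold DE DD
  rw [map_mul, Real.log_mul ((av u).ne_zero (mul_ne_zero (mul_ne_zero (mul_ne_zero hw0 hw'0)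
    hr0) hs0)) ((av u).ne_zero hne), mul_add]
  linarith

theorem PC.uE_int (hU : Unif S ϖ C) (hi : i ≠ i') (hj : j ≠ j')
    (hp : PC S P H κ ρ i i' j j' t) {v : Pr K} (hv : v ∉ S) :
    fv v (uE ϖ P i i' j j' t) ≤ 1 := u_int (hp.eqn hU hi hj) (hp.intAt hU hi hj hv)

theorem PC.DE_le (hU : Unif S ϖ C) (hi : i ≠ i') (hj : j ≠ j')
    (hp : PC S P H κ ρ i i' j j' t) {v : Pr K} (hv : v ∉ S) :
    fv v (DE ϖ P i j t) ≤ fv v (uE ϖ P i i' j j' t) :=
  D_le (hp.eqn hU hi hj) (hp.intAt hU hi hj hv)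

end Facts

/-! ### counting -/

theorem card_image_prod {α β γ : Type*} [DecidableEq β] [DecidableEq γ] (s : Finset α)
    (f : α → β) (g : α → γ) {m n : ℝ} (hn : 0 ≤ n) (hf : ((s.image f).card : ℝ) ≤ m)
    (hg : ((s.image g).card : ℝ) ≤ n) :
    ((s.image (fun a => (f a, g a))).card : ℝ) ≤ m * n := by
  have h1 : s.image (fun a => (f a, g a)) ⊆ s.image f ×ˢ s.image g := by
    intro b hb
    obtain ⟨a, ha, rfl⟩ := Finset.mem_image.1 hb
    exact Finset.mem_product.2 ⟨Finset.mem_image_of_mem f ha, Finset.mem_image_of_mem g ha⟩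
  have h2 := Finset.card_le_card h1
  rw [Finset.card_product] at h2
  calc ((s.image (fun a => (f a, g a))).card : ℝ) ≤
      (((s.image f).card * (s.image g).card : ℕ) : ℝ) := by exact_mod_cast h2
    _ = (s.image f).card * (s.image g).card := by push_cast; rfl
    _ ≤ (s.image f).card * n := mul_le_mul_of_nonneg_left hg (Nat.cast_nonneg _)
    _ ≤ m * n := mul_le_mul_of_nonneg_right hf hn

end Pool.Agent.K6.H25.RS
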