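import Pool.Agent.K6.H25.RS.Asm

/-!
# The number of radicals: the affine coordinate
-/

set_option autoImplicit false
set_option linter.unusedSectionVars false

namespace Pool.Agent.K6.H25.RS

open NumberField IsDedekindDomain Finset Pool.Agent.H691R3 Pool.Agent.W223.AK
open Pool.Agent.TH876.Loc (sp nn hgt mem_sp nn_pos one_le_nn nn_mono)
open Pool.Agent.TH876.KR (log_nn)

variable {K : Type} [Field K] [NumberField K]

open Classical in
/-- no condition on the radical of the partner -/
theorem aff_twins (K : Type) [Field K] [NumberField K] (T : Finset (Pr K)) :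
    ∃ η ν C : ℝ, 0 < η ∧ 0 < ν ∧ ν ≤ 1 / 1000 ∧ 0 < C ∧ ∀ (X : ℝ), 1 ≤ X → ∀ E : Finset K,
    (∀ x ∈ E, Pt x ∧ nn (sp x \ T) ≤ X ∧ ∃ y, Pt y ∧ ¬ IsPerm x y ∧
      Real.log (nn (sd T x y)) ≤ η * Real.log X) →
    (E.card : ℝ) ≤ C * X ^ (2 / 3 - ν) := by
  obtain ⟨η, ν, C, hη, hν, hν1, hC, key⟩ := aff_pairs K T
  set η' : ℝ := min η (ν / 2) with hη'
  have hη'0 : 0 < η' := lt_min hη (by positivity)
  have hη'1 : η' ≤ η := min_le_left _ _
  have hη'2 : η' ≤ ν / 2 := min_le_right _ _
  refine ⟨η', 2 / 3 * ν, C, hη'0, by positivity, by linarith, hC, ?_⟩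
  intro X hX E hE
  have hX0 : 0 < X := by linarith
  have hL : 0 ≤ Real.log X := Real.log_nonneg hX
  have h1 : 1 ≤ X ^ (1 + η') := Real.one_le_rpow hX (by linarith)
  have h2 := key (X ^ (1 + η')) h1 E (fun x hx => by
    obtain ⟨a1, a2, y, a3, a4, a5⟩ := hE x hx
    have hlog : Real.log (X ^ (1 + η')) = (1 + η') * Real.log X := Real.log_rpow hX0 _
    have hXle : X ≤ X ^ (1 + η') := by
      calc X = X ^ (1 : ℝ) := (Real.rpow_one X).symm
        _ ≤ _ := Real.rpow_le_rpow_of_exponent_le hX (by linarith)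
    refine ⟨a1, a2.trans hXle, y, a3, ?_, a4, ?_⟩
    · have hsub : sp y \ T ⊆ (sp x \ T) ∪ sd T x y := by
        intro v hv
        rw [Finset.mem_sdiff] at hv
        by_cases h : v ∈ sp x
        · exact Finset.mem_union_left _ (Finset.mem_sdiff.2 ⟨h, hv.2⟩)
        · apply Finset.mem_union_right
          unfold sd
          exact Finset.mem_sdiff.2 ⟨Finset.mem_union_right _ (Finset.mem_sdiff.2 ⟨hv.1, h⟩), hv.2⟩
      have hdis : Disjoint (sp x \ T) (sd T x y \ (sp x \ T)) := Finset.disjoint_sdiff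
      have h3 : nn (sp y \ T) ≤ nn (sp x \ T) * nn (sd T x y) := by
        refine (nn_mono hsub).trans ?_
        rw [← Finset.union_sdiff_self_eq_union, Pool.Agent.TH876.Loc.nn_union hdis]
        exact mul_le_mul_of_nonneg_left (nn_mono Finset.sdiff_subset) (nn_pos _).le
      have h4 : nn (sd T x y) ≤ X ^ η' := by
        rw [← Real.log_le_log_iff (nn_pos _) (Real.rpow_pos_of_pos hX0 _), Real.log_rpow hX0]
        exact a5
      calc nn (sp y \ T) ≤ nn (sp x \ T) * nn (sd T x y) := h3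
        _ ≤ X * X ^ η' := mul_le_mul a2 h4 (nn_pos _).le hX0.le
        _ = X ^ (1 + η') := by rw [Real.rpow_add hX0, Real.rpow_one]
    · rw [hlog]
      have h5 : η' * Real.log X ≤ η * Real.log X := mul_le_mul_of_nonneg_right hη'1 hL
      have h6 : 0 ≤ η * η' * Real.log X := by positivity
      have h7 : η * ((1 + η') * Real.log X) = η * Real.log X + η * η' * Real.log X := by ring
      linarith)
  refine h2.trans (mul_le_mul_of_nonneg_left ?_ hC.le)
  rw [← Real.rpow_mul hX0.le]
  refine Real.rpow_le_rpow_of_exponent_le hX ?_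
  have h8 : η' * (2 / 3 - ν) ≤ ν / 2 * (2 / 3 - ν) :=
    mul_le_mul_of_nonneg_right hη'2 (by linarith)
  nlinarith

/-! ### the permutations of a point -/

/-- the six values -/
def gq (p : Fin 3 × Fin 3) (x : K) : K := cc p.1 x / cc p.2 x

/-- the points fixed by a permutation -/
def Sp5 (x : K) : Prop := x = 1 ∨ x = -2 ∨ 2 * x + 1 = 0 ∨ x ^ 2 + x + 1 = 0

theorem third_ix : ∀ i j : Fin 3, i ≠ j → ∃ k, j ≠ k ∧ i ≠ k := by decide

theorem gq_add_one {x : K} (hx : Pt x) {i j k : Fin 3} (hij : i ≠ j) (hjk : j ≠ k) (hik : i ≠ k) :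
    gq (i, j) x + 1 = -(cc k x / cc j x) := by
  have h := cc_sum' x hij hjk hik
  have hj := cc_ne hx j
  unfold gq
  field_simp
  linear_combination h

theorem gq_pt {x : K} (hx : Pt x) {i j : Fin 3} (hij : i ≠ j) : Pt (gq (i, j) x) := by
  obtain ⟨k, hjk, hik⟩ := third_ix i j hij
  refine ⟨div_ne_zero (cc_ne hx i) (cc_ne hx j), ?_⟩
  rw [gq_add_one hx hij hjk hik]
  exact neg_ne_zero.2 (div_ne_zero (cc_ne hx k) (cc_ne hx j))

theorem all_of_three : ∀ (i j k : Fin 3), i ≠ j → j ≠ k → i ≠ k → ∀ l, l = i ∨ l = j ∨ l = k := by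
  decide

theorem notMem_sp {x : K} (hx : Pt x) (v : Pr K) :
    v ∉ sp x ↔ ∀ l l' : Fin 3, fv v (cc l x) = fv v (cc l' x) := by
  rw [mem_sp hx, not_not]
  constructor
  · rintro ⟨h1, h2⟩
    have h3 : ∀ l, fv v (cc l x) = 1 := by
      intro l
      rw [abv_cc]
      fin_cases l
      · exact h1
      · exact map_one _
      · exact h2
    intro l l'
    rw [h3, h3]
  · intro h
    have h1 : fv v (cc 1 x) = 1 := map_one _
    have h0 := h 0 1
    have h2 := h 2 1
    rw [h1, abv_cc] at h0 h2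
    exact ⟨h0, h2⟩

theorem gq_sp {x : K} (hx : Pt x) {i j : Fin 3} (hij : i ≠ j) : sp (gq (i, j) x) = sp x := by
  obtain ⟨k, hjk, hik⟩ := third_ix i j hij
  ext v
  rw [← not_iff_not, notMem_sp hx, mem_sp (gq_pt hx hij), not_not, gq_add_one hx hij hjk hik,
    AbsoluteValue.map_neg]
  unfold gq
  have hj : fv v (cc j x) ≠ 0 := ((fv v).pos (cc_ne hx j)).ne'
  rw [map_div₀, map_div₀, div_eq_one_iff_eq hj, div_eq_one_iff_eq hj]
  constructor
  · rintro ⟨h1, h2⟩ l l'
    have h3 : ∀ l, fv v (cc l x) = fv v (cc j x) := by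
      intro l
      rcases all_of_three i j k hij hjk hik l with h | h | h
      · rw [h]; exact h1
      · rw [h]
      · rw [h]; exact h2
    rw [h3 l, h3 l']
  · intro h
    exact ⟨h _ _, h _ _⟩

theorem gq_inj {x : K} (hx : Pt x) (hs : ¬ Sp5 x) {p q : Fin 3 × Fin 3} (hp : p.1 ≠ p.2)
    (hq : q.1 ≠ q.2) (h : gq p x = gq q x) : p = q := by
  obtain ⟨i, j⟩ := p
  obtain ⟨i', j'⟩ := q
  unfold gq at h
  rw [div_eq_div_iff (cc_ne hx _) (cc_ne hx _)] at h
  unfold Sp5 at hs
  push Not at hs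
  obtain ⟨s1, s2, s3, s4⟩ := hs
  have h0 := hx.1
  have h1 := hx.2
  have t1 : x - 1 ≠ 0 := sub_ne_zero.2 s1
  have t2 : x + 2 ≠ 0 := fun h => s2 (by linear_combination h)
  have key : ∀ (a b : K), a ≠ 0 → b ≠ 0 → a * b ≠ 0 := fun a b ha hb => mul_ne_zero ha hb
  fin_cases i <;> fin_cases j <;> fin_cases i' <;> fin_cases j' <;>
    simp [cc] at hp hq h ⊢ <;>
    first
    | exact h0 (by linear_combination h)
    | exact h0 (by linear_combination -h)
    | exact h1 (by linear_combination h)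
    | exact h1 (by linear_combination -h)
    | exact t1 (by linear_combination h)
    | exact t1 (by linear_combination -h)
    | exact t2 (by linear_combination h)
    | exact t2 (by linear_combination -h)
    | exact s3 (by linear_combination h)
    | exact s3 (by linear_combination -h)
    | exact s4 (by linear_combination h)
    | exact s4 (by linear_combination -h)
    | exact key _ _ t1 h1 (by linear_combination h)
    | exact key _ _ t1 h1 (by linear_combination -h)
    | exact key _ _ t1 h0 (by linear_combination h)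
    | exact key _ _ t1 h0 (by linear_combination -h)
    | exact key _ _ t2 h0 (by linear_combination h)
    | exact key _ _ t2 h0 (by linear_combination -h)

open Classical in
/-- the points with bounded radical -/
def AP (T : Finset (Pr K)) (Y : ℝ) : Set K := {x | Pt x ∧ nn (sp x \ T) ≤ Y}

open Classical in
theorem aff_count (K : Type) [Field K] [NumberField K] (T : Finset (Pr K)) : ∃ D : ℝ, 0 < D ∧
    ∀ Y : ℝ, 1 ≤ Y → ∀ E : Finset K, (∀ x ∈ E, Pt x ∧ nn (sp x \ T) ≤ Y) →
      (E.card : ℝ) ≤ D * Y ^ (1 : ℝ) := by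
  obtain ⟨D, hD, h⟩ := Pool.Agent.Y728.mainK K (1 / 3) (by norm_num)
  refine ⟨D * nn T ^ (1 : ℝ), by have := nn_pos T; positivity, fun Y hY E hE => ?_⟩
  have h1 := h (nn T * Y) (by nlinarith [one_le_nn T]) E (fun x hx => ⟨(hE x hx).1,
    (Pool.Agent.Y728.nn_le_mul (sp x) T).trans
      (mul_le_mul_of_nonneg_left (hE x hx).2 (nn_pos T).le)⟩)
  refine h1.trans (le_of_eq ?_)
  have e : (2 / 3 + 1 / 3 : ℝ) = 1 := by norm_num
  rw [e, Real.mul_rpow (nn_pos T).le (by linarith), mul_assoc]

theorem AP_finite (T : Finset (Pr K)) {Y : ℝ} (hY : 1 ≤ Y) : (AP T Y).Finite := by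
  classical
  obtain ⟨D, hD, h⟩ := aff_count K T
  by_contra hinf
  obtain ⟨G, hGV, hGc⟩ := Set.Infinite.exists_subset_card_eq hinf (⌊D * Y ^ (1 : ℝ)⌋₊ + 1)
  have h1 := h Y hY G (fun x hx => by
    have := hGV (Finset.mem_coe.2 hx)
    unfold AP at this
    refine ⟨this.1, ?_⟩
    convert this.2)
  have h2 := Nat.lt_floor_add_one (D * Y ^ (1 : ℝ))
  rw [hGc] at h1
  push_cast at h1
  linarith

/-- the isolated points -/
def Iso (T : Finset (Pr K)) (η Y : ℝ) (x : K) : Prop :=
  ∀ y, Pt y → Real.log (nn (sd T x y)) ≤ η * Real.log Y → IsPerm x y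

open Classical in
theorem sd_empty {T : Finset (Pr K)} {x y : K} (h : sp x \ T = sp y \ T) : sd T x y = ∅ := by
  unfold sd
  ext v
  simp only [Finset.mem_sdiff, Finset.mem_union, Finset.notMem_empty, iff_false]
  rintro ⟨h1 | h1, h2⟩
  · have : v ∈ sp y \ T := h ▸ Finset.mem_sdiff.2 ⟨h1.1, h2⟩
    exact h1.2 (Finset.mem_sdiff.1 this).1
  · have : v ∈ sp x \ T := h ▸ Finset.mem_sdiff.2 ⟨h1.1, h2⟩
    exact h1.2 (Finset.mem_sdiff.1 this).1

open Classical in
/-- the fibres of isolated points have six elements -/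
theorem fibre_six {T : Finset (Pr K)} {η Y : ℝ} (hη : 0 ≤ η) (hY : 1 ≤ Y) {A : Finset K}
    (hA : ∀ x, x ∈ A ↔ Pt x ∧ nn (sp x \ T) ≤ Y) {x : K} (hx : x ∈ A) (hiso : Iso T η Y x)
    (hs : ¬ Sp5 x) : (A.filter (fun z => sp z \ T = sp x \ T)).card = 6 := by
  have hxp := (hA x).1 hx
  set I : Finset (Fin 3 × Fin 3) := univ.filter (fun p => p.1 ≠ p.2) with hI
  have hIc : I.card = 6 := by rw [hI]; decide
  have himg : A.filter (fun z => sp z \ T = sp x \ T) = I.image (fun p => gq p x) := by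
    ext z
    rw [Finset.mem_filter, Finset.mem_image]
    constructor
    · rintro ⟨h1, h2⟩
      have hz := ((hA z).1 h1).1
      obtain ⟨σ, t, ht, h3⟩ := hiso z hz (by
        rw [sd_empty h2.symm]
        show Real.log (nn (∅ : Finset (Pr K))) ≤ _
        unfold nn
        rw [Finset.prod_empty, Real.log_one]
        exact mul_nonneg hη (Real.log_nonneg hY))
      refine ⟨(σ 0, σ 1), ?_, ?_⟩
      · rw [hI, Finset.mem_filter]
        refine ⟨mem_univ _, fun h => ?_⟩
        have := σ.injective h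
        exact absurd this (by decide)
      · show cc (σ 0) x / cc (σ 1) x = z
        have a0 := h3 0
        have a1 := h3 1
        have e0 : cc 0 z = z := rfl
        have e1 : cc 1 z = 1 := rfl
        rw [e0] at a0
        rw [e1] at a1
        have n1 := cc_ne hxp.1 (σ 1)
        rw [div_eq_iff n1]
        have : cc (σ 0) x * (t * cc (σ 1) x) = z * cc (σ 1) x := by
          rw [a0]; ring
        rw [← a1, mul_one] at this
        exact this
    · rintro ⟨p, hp, rfl⟩
      rw [hI, Finset.mem_filter] at hp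
      have e1 := gq_sp hxp.1 hp.2
      have e2 := gq_pt hxp.1 hp.2
      refine ⟨(hA _).2 ⟨e2, ?_⟩, ?_⟩
      · rw [show sp (gq p x) = sp x from e1]
        exact hxp.2
      · rw [show sp (gq p x) = sp x from e1]
  rw [himg, Finset.card_image_of_injOn, hIc]
  intro p hp q hq h
  have hp' := Finset.mem_coe.1 hp
  have hq' := Finset.mem_coe.1 hq
  rw [hI, Finset.mem_filter] at hp' hq'
  exact gq_inj hxp.1 hs hp'.2 hq'.2 h

theorem Sp5_finite (K : Type) [Field K] [NumberField K] : {x : K | Sp5 x}.Finite := by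
  classical
  have h1 : (({1, -2, -1/2} : Set K) ∪ {x : K | x ^ 2 + x + 1 = 0}).Finite := by
    refine Set.Finite.union (by simp) ?_
    have h2 : (Polynomial.X ^ 2 + Polynomial.X + 1 : Polynomial K) ≠ 0 := by
      intro h
      have := congrArg (Polynomial.eval 0) h
      simp at this
    refine (Polynomial.rootSet_finite (Polynomial.X ^ 2 + Polynomial.X + 1 : Polynomial K) K).subset
      ?_
    intro x hx
    rw [Polynomial.mem_rootSet]
    refine ⟨h2, ?_⟩
    simpa using hx
  refine h1.subset ?_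
  intro x hx
  rcases hx with h | h | h | h
  · left; left; exact h
  · left; right; left; exact h
  · left; right; right
    show x = -1 / 2
    field_simp
    linear_combination h
  · right; exact h

open Classical in
/-- **The number of radicals.** -/
theorem aff_radicals {T : Finset (Pr K)} {η Y : ℝ} (hη : 0 ≤ η) (hY : 1 ≤ Y) {A B : Finset K}
    (hA : ∀ x, x ∈ A ↔ Pt x ∧ nn (sp x \ T) ≤ Y) (hB : ∀ x ∈ A, x ∉ B → Iso T η Y x ∧ ¬ Sp5 x) :
    |(A.card : ℝ) - 6 * ((A.image (fun x => sp x \ T)).card : ℝ)| ≤ 5 * (B.card : ℝ) := by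
  set f : K → Finset (Pr K) := fun x => sp x \ T with hf
  set F : Finset (Pr K) → Finset K := fun R => A.filter (fun z => f z = R) with hF
  have h1 : (A.card : ℝ) = ∑ R ∈ A.image f, ((F R).card : ℝ) := by
    rw [Finset.card_eq_sum_card_image f A]
    push_cast
    rfl
  have h2 : (A.card : ℝ) - 6 * ((A.image f).card : ℝ) =
      ∑ R ∈ A.image f, (((F R).card : ℝ) - 6) := by
    rw [Finset.sum_sub_distrib, Finset.sum_const, nsmul_eq_mul, h1]
    ring
  have h3 : ∀ R ∈ A.image f, |((F R).card : ℝ) - 6| ≤ 5 * (((F R).filter (· ∈ B)).card : ℝ) := by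
    intro R hR
    obtain ⟨x, hx, rfl⟩ := Finset.mem_image.1 hR
    by_cases h : ∃ z ∈ F (f x), z ∉ B
    · obtain ⟨z, hz, hzB⟩ := h
      rw [hF, Finset.mem_filter] at hz
      obtain ⟨b1, b2⟩ := hB z hz.1 hzB
      have h4 := fibre_six hη hY hA hz.1 b1 b2
      have h5 : (F (f x)).card = 6 := by
        rw [hF]
        simp only
        rw [← hz.2]
        exact h4
      rw [h5]
      norm_num
    · push Not at h
      have h4 : (F (f x)).filter (· ∈ B) = F (f x) := Finset.filter_true_of_mem h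
      rw [h4]
      have h5 : 1 ≤ (F (f x)).card := by
        apply Finset.card_pos.2
        exact ⟨x, by rw [hF]; exact Finset.mem_filter.2 ⟨hx, rfl⟩⟩
      have h6 : (1 : ℝ) ≤ (F (f x)).card := by exact_mod_cast h5
      rw [abs_le]
      constructor <;> linarith
  have h4 : ∑ R ∈ A.image f, (((F R).filter (· ∈ B)).card : ℝ) ≤ B.card := by
    have h5 : ∑ R ∈ A.image f, (((F R).filter (· ∈ B)).card : ℝ) =
        (((A.image f).biUnion (fun R => (F R).filter (· ∈ B))).card : ℝ) := by
      rw [Finset.card_biUnion]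
      · push_cast
        rfl
      · intro R _ R' _ hne
        rw [Function.onFun, Finset.disjoint_left]
        intro z hz hz'
        rw [hF, Finset.mem_filter, Finset.mem_filter] at hz hz'
        exact hne (hz.1.2.symm.trans hz'.1.2)
    rw [h5]
    refine Nat.cast_le.2 (Finset.card_le_card ?_)
    intro z hz
    obtain ⟨R, _, h6⟩ := Finset.mem_biUnion.1 hz
    exact (Finset.mem_filter.1 h6).2
  rw [h2]
  calc |∑ R ∈ A.image f, (((F R).card : ℝ) - 6)| ≤ ∑ R ∈ A.image f, |((F R).card : ℝ) - 6| :=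
        Finset.abs_sum_le_sum_abs _ _
    _ ≤ ∑ R ∈ A.image f, 5 * (((F R).filter (· ∈ B)).card : ℝ) := Finset.sum_le_sum h3
    _ = 5 * ∑ R ∈ A.image f, (((F R).filter (· ∈ B)).card : ℝ) := by rw [Finset.mul_sum]
    _ ≤ _ := mul_le_mul_of_nonneg_left h4 (by norm_num)

end Pool.Agent.K6.H25.RS
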