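import Pool.Agent.K6.H25.RS.Lattice
import Pool.Agent.K6.H25.RS.Six

/-!
# Sums over the points with large radical
-/

set_option autoImplicit false
set_option linter.unusedSectionVars false

namespace Pool.Agent.K6.H25.RS

open NumberField IsDedekindDomain Finset Pool.Agent.H691R3 Pool.Agent.W223.AK
open Pool.Agent.TH876.Loc (sp nn hgt mem_sp nn_pos one_le_nn nn_mono)
open Pool.Agent.TH876.KR (log_nn)
open Pool.Agent.W462.AK (card_le_mul_fib)

variable {K : Type} [Field K] [NumberField K]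

open Classical in
/-- the logarithm of the radical outside `T` -/
noncomputable def lr (T : Finset (Pr K)) (x : K) : ℝ := Real.log (nn (sp x \ T))

theorem lr_nonneg (T : Finset (Pr K)) (x : K) : 0 ≤ lr T x := Real.log_nonneg (one_le_nn _)

/-- splitting a finite set of primes -/
theorem log_nn_split {A B C : Finset (Pr K)} (h : ∀ v, v ∈ A ↔ v ∈ B ∨ v ∈ C)
    (hd : ∀ v, v ∈ B → v ∉ C) : Real.log (nn A) = Real.log (nn B) + Real.log (nn C) := by
  classical
  have e : A = B ∪ C := by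
    ext v
    rw [Finset.mem_union]
    exact h v
  rw [log_nn, log_nn, log_nn, e, Finset.sum_union]
  rw [Finset.disjoint_left]
  exact hd

open Classical in
/-- **The number of points whose radical almost contains the radical of `z`.** -/
theorem fib_count (T : Finset (Pr K)) {ε : ℝ} (hε : 0 < ε) : ∃ D : ℝ, 0 < D ∧
    ∀ (z : K) (H η : ℝ) (E : Finset K),
    (∀ x ∈ E, Pt x ∧ ht x ≤ H ∧ Real.log (nn ((sp z \ sp x) \ T)) ≤ η * lr T z) →
    (E.card : ℝ) ≤ D * (Real.exp (ε * lr T z) * (1 + Real.exp (2 * H - (1 - η) * lr T z))) := by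
  obtain ⟨D, hD, h⟩ := Pool.Agent.W52.AK.omg (K := K) 6 ε (by norm_num) hε
  set N : ℝ := ((Spl T).card : ℝ) with hN
  have hN0 : 0 ≤ N := Nat.cast_nonneg _
  refine ⟨D * (32 * Real.exp (2 * |Real.log 2|)) * Real.exp (2 * N), by positivity, ?_⟩
  intro z H η E hE
  set A : Finset (Pr K) := sp z \ T with hA
  set L := lr T z with hL
  set f : K → Finset (Pr K) := fun x => (sp x ∩ sp z) \ T with hf
  have hfA : ∀ x, f x ⊆ A := by
    intro x v hv
    rw [hf, Finset.mem_sdiff, Finset.mem_inter] at hv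
    exact Finset.mem_sdiff.2 ⟨hv.1.2, hv.2⟩
  have h1 : ((E.image f).card : ℝ) ≤ 2 ^ A.card := by
    have e1 : E.image f ⊆ A.powerset := by
      intro s hs
      obtain ⟨x, -, rfl⟩ := Finset.mem_image.1 hs
      exact Finset.mem_powerset.2 (hfA x)
    have e2 := Finset.card_le_card e1
    rw [Finset.card_powerset] at e2
    exact_mod_cast e2
  have hlog : ∀ x ∈ E, (1 - η) * L ≤ Real.log (nn (f x)) := by
    intro x hx
    have e1 : Real.log (nn A) = Real.log (nn (f x)) + Real.log (nn ((sp z \ sp x) \ T)) := by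
      refine log_nn_split ?_ ?_
      · intro v
        rw [hf, hA]
        simp only [Finset.mem_sdiff, Finset.mem_inter]
        tauto
      · intro v hv hv'
        rw [hf] at hv
        simp only [Finset.mem_sdiff, Finset.mem_inter] at hv hv'
        exact hv'.1.2 hv.1.1
    have e2 := (hE x hx).2.2
    have e3 : Real.log (nn A) = L := rfl
    linarith
  set G : ℝ := 32 * Real.exp (2 * |Real.log 2|) *
    (Real.exp (2 * N) * (1 + Real.exp (2 * H - (1 - η) * L))) with hG
  have key := card_le_mul_fib E f (2 ^ A.card) (3 ^ A.card * G) (by positivity) h1 ?_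
  · have e6 : (2 : ℝ) ^ A.card * (3 ^ A.card * G) = 6 ^ A.card * G := by
      rw [← mul_assoc, ← mul_pow]
      norm_num
    rw [e6] at key
    have h6 := h (rad1 T z)
    have hs : (rad1 T z).support = A := by
      ext v
      rw [Finsupp.mem_support_iff, rad1_apply]
      split_ifs with hv
      · exact ⟨fun _ => hv, fun _ => one_ne_zero⟩
      · exact ⟨fun h => absurd rfl h, fun h => absurd h hv⟩
    rw [hs, len_rad1] at h6
    have h7 : (6 : ℝ) ^ A.card ≤ D * Real.exp (ε * L) := h6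
    calc (E.card : ℝ) ≤ 6 ^ A.card * G := key
      _ ≤ D * Real.exp (ε * L) * G := mul_le_mul_of_nonneg_right h7 (by positivity)
      _ = _ := by rw [hG]; ring
  · intro s hs
    obtain ⟨x₀, hx₀, rfl⟩ := Finset.mem_image.1 hs
    have hsT : ∀ v ∈ f x₀, v ∉ T := by
      intro v hv
      rw [hf, Finset.mem_sdiff] at hv
      exact hv.2
    have h2 := contain_count (S := T) (E.filter (fun x => f x = f x₀)) (f x₀) hsT (H := H) (by
      intro x hx
      obtain ⟨hx1, hx2⟩ := Finset.mem_filter.1 hx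
      refine ⟨(hE x hx1).1, (hE x hx1).2.1, fun v hv => ?_⟩
      rw [← hx2, hf, Finset.mem_sdiff, Finset.mem_inter] at hv
      exact hv.1.1)
    refine h2.trans ?_
    have h3 : (3 : ℝ) ^ (f x₀).card ≤ 3 ^ A.card :=
      pow_le_pow_right₀ (by norm_num) (Finset.card_le_card (hfA x₀))
    refine mul_le_mul h3 ?_ (by positivity) (by positivity)
    rw [hG]
    refine mul_le_mul_of_nonneg_left ?_ (by positivity)
    have h4 := hlog x₀ hx₀
    have h5 : 1 ≤ Real.exp (2 * N) := Real.one_le_exp (by positivity)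
    have h6 : Real.exp (2 * H + 2 * (Spl T).card - Real.log (nn (f x₀))) ≤
        Real.exp (2 * N) * Real.exp (2 * H - (1 - η) * L) := by
      rw [← Real.exp_add]
      apply Real.exp_le_exp.2
      linarith
    have h7 : Real.exp (2 * N) * (1 + Real.exp (2 * H - (1 - η) * L)) =
      Real.exp (2 * N) + Real.exp (2 * N) * Real.exp (2 * H - (1 - η) * L) := by ring
    rw [h7]
    linarith

/-- a sum over a family with exponentially many members -/
theorem sum_class {ι : Type*} (Z : Finset ι) (g : ι → ℝ) {A τ σ b : ℝ} (hA : 0 ≤ A)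
    (hb : 0 ≤ b) (hσ : τ < σ) (hτ : 0 ≤ τ) (hg : ∀ z ∈ Z, b ≤ g z)
    (hcount : ∀ L : ℝ, 0 ≤ L → ((Z.filter (fun z => g z ≤ L)).card : ℝ) ≤ A * Real.exp (τ * L)) :
    ∑ z ∈ Z, Real.exp (-(σ * g z)) ≤
      A * Real.exp σ / (1 - Real.exp (τ - σ)) * Real.exp (-((σ - τ) * b)) := by
  classical
  set r := Real.exp (τ - σ) with hr
  have hr0 : 0 < r := Real.exp_pos _
  have hr1 : r < 1 := by
    rw [hr]
    exact Real.exp_lt_one_iff.2 (by linarith)
  have h1r : 0 < 1 - r := by linarith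
  have hσ0 : 0 ≤ σ := by linarith
  set k : ι → ℕ := fun z => ⌊g z⌋₊ with hk
  have hmaps : ∀ z ∈ Z, k z ∈ Finset.Ico ⌊b⌋₊ ((Z.image k).sup id + 1) := by
    intro z hz
    rw [Finset.mem_Ico]
    refine ⟨Nat.floor_le_floor (hg z hz), Nat.lt_succ_of_le ?_⟩
    exact Finset.le_sup (f := id) (Finset.mem_image_of_mem k hz)
  rw [← Finset.sum_fiberwise_of_maps_to hmaps]
  have hcl : ∀ j ∈ Finset.Ico ⌊b⌋₊ ((Z.image k).sup id + 1),
      ∑ z ∈ Z.filter (fun z => k z = j), Real.exp (-(σ * g z)) ≤ A * Real.exp τ * r ^ j := by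
    intro j _
    have h1 : ∀ z ∈ Z.filter (fun z => k z = j), Real.exp (-(σ * g z)) ≤ Real.exp (-(σ * j)) := by
      intro z hz
      obtain ⟨hz1, hz2⟩ := Finset.mem_filter.1 hz
      apply Real.exp_le_exp.2
      have h2 : (j : ℝ) ≤ g z := by
        rw [← hz2]
        exact Nat.floor_le (hb.trans (hg z hz1))
      have := mul_le_mul_of_nonneg_left h2 hσ0
      linarith
    have h2 : ((Z.filter (fun z => k z = j)).card : ℝ) ≤ A * Real.exp (τ * (j + 1)) := by
      refine le_trans ?_ (hcount (j + 1) (by positivity))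
      exact_mod_cast Finset.card_le_card (by
        intro z hz
        obtain ⟨hz1, hz2⟩ := Finset.mem_filter.1 hz
        refine Finset.mem_filter.2 ⟨hz1, ?_⟩
        have := (Nat.lt_floor_add_one (g z)).le
        push_cast
        rw [← hz2]
        exact this)
    calc _ ≤ ∑ z ∈ Z.filter (fun z => k z = j), Real.exp (-(σ * j)) := Finset.sum_le_sum h1
      _ = ((Z.filter (fun z => k z = j)).card : ℝ) * Real.exp (-(σ * j)) := by
          rw [Finset.sum_const, nsmul_eq_mul]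
      _ ≤ A * Real.exp (τ * (j + 1)) * Real.exp (-(σ * j)) :=
          mul_le_mul_of_nonneg_right h2 (Real.exp_pos _).le
      _ = A * Real.exp τ * r ^ j := by
          rw [hr, ← Real.exp_nat_mul, mul_assoc, mul_assoc, ← Real.exp_add, ← Real.exp_add]
          congr 2
          ring
  refine (Finset.sum_le_sum hcl).trans ?_
  rw [← Finset.mul_sum]
  have h3 : ∑ j ∈ Finset.Ico ⌊b⌋₊ ((Z.image k).sup id + 1), r ^ j ≤ r ^ ⌊b⌋₊ / (1 - r) :=
    geom_sum_Ico_le_of_lt_one hr0.le hr1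
  have h4 : r ^ ⌊b⌋₊ ≤ Real.exp (σ - τ) * Real.exp (-((σ - τ) * b)) := by
    rw [hr, ← Real.exp_nat_mul, ← Real.exp_add]
    apply Real.exp_le_exp.2
    have h5 := (Nat.lt_floor_add_one b).le
    have h6 : 0 ≤ σ - τ := by linarith
    have h7 := mul_le_mul_of_nonneg_left h5 h6
    linarith
  calc A * Real.exp τ * ∑ j ∈ Finset.Ico ⌊b⌋₊ ((Z.image k).sup id + 1), r ^ j
      ≤ A * Real.exp τ * (Real.exp (σ - τ) * Real.exp (-((σ - τ) * b)) / (1 - r)) := by
        refine mul_le_mul_of_nonneg_left (h3.trans ?_) (by positivity)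
        exact div_le_div_of_nonneg_right h4 h1r.le
    _ = A * (Real.exp τ * Real.exp (σ - τ)) / (1 - r) * Real.exp (-((σ - τ) * b)) := by ring
    _ = _ := by
        rw [← Real.exp_add]
        congr 4
        ring

open Classical in
/-- **The points with a partner of intermediate radical.** -/
theorem mid_count (T : Finset (Pr K)) {η₁ : ℝ} (hη0 : 0 < η₁) (hη1 : η₁ < 1) :
    ∃ D : ℝ, 0 < D ∧ ∀ (Λ t b : ℝ), 0 ≤ Λ → 0 ≤ b → ∀ (E : Finset K) (y : K → K),
    (∀ x ∈ E, Pt x ∧ ht x ≤ (Λ + t) / 3 ∧ Pt (y x) ∧ b ≤ lr T (y x) ∧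
      lr T (y x) ≤ (1 - η₁) * Λ ∧
      Real.log (nn ((sp (y x) \ sp x) \ T)) ≤ 1 / 12 * lr T (y x)) →
    (E.card : ℝ) ≤ D * (Real.exp ((2 / 3 - η₁ / 3) * Λ) +
      Real.exp (2 / 3 * Λ + 2 / 3 * t - 1 / 6 * b)) := by
  set ε : ℝ := min (η₁ / 6) (1 / 48) with hε'
  have hε : 0 < ε := lt_min (by positivity) (by norm_num)
  have hεa : ε ≤ η₁ / 6 := min_le_left _ _
  have hεb : ε ≤ 1 / 48 := min_le_right _ _
  obtain ⟨D₁, hD₁, h1⟩ := fib_count (K := K) T hε
  obtain ⟨D₂, hD₂, h2⟩ := Pool.Agent.Y728.mainK K ε hε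
  set A := D₂ * nn T ^ (2 / 3 + ε) with hA
  have hA0 : 0 < A := by
    have := nn_pos T
    positivity
  set τ := 2 / 3 + ε with hτ
  set σ := 1 - 1 / 12 - ε with hσ
  have hστ : τ < σ := by rw [hτ, hσ]; linarith
  have h1r : 0 < 1 - Real.exp (τ - σ) := by
    have : Real.exp (τ - σ) < 1 := Real.exp_lt_one_iff.2 (by linarith)
    linarith
  set B := A * Real.exp σ / (1 - Real.exp (τ - σ)) with hB
  have hB0 : 0 < B := by positivity
  refine ⟨D₁ * (A + B), by positivity, ?_⟩
  intro Λ t b hΛ hb E y hE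
  set Z := E.image y with hZ
  have hcount : ∀ L : ℝ, 0 ≤ L →
      ((Z.filter (fun z => lr T z ≤ L)).card : ℝ) ≤ A * Real.exp (τ * L) := by
    intro L hL
    have h3 := h2 (nn T * Real.exp L) (by
      have := one_le_nn T
      have := Real.one_le_exp hL
      nlinarith) (Z.filter (fun z => lr T z ≤ L)) (fun z hz => by
        obtain ⟨hz1, hz2⟩ := Finset.mem_filter.1 hz
        obtain ⟨x, hx, rfl⟩ := Finset.mem_image.1 hz1
        refine ⟨(hE x hx).2.2.1, (Pool.Agent.Y728.nn_le_mul (sp (y x)) T).trans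
          (mul_le_mul_of_nonneg_left ?_ (nn_pos T).le)⟩
        have := Real.exp_le_exp.2 hz2
        unfold lr at this
        rwa [Real.exp_log (nn_pos _)] at this)
    refine h3.trans (le_of_eq ?_)
    rw [Real.mul_rpow (nn_pos T).le (Real.exp_pos _).le, ← Real.exp_mul, hA, mul_assoc]
    congr 3
    ring
  have hcard : (E.card : ℝ) = ∑ z ∈ Z, ((E.filter (fun x => y x = z)).card : ℝ) := by
    rw [Finset.card_eq_sum_card_image y E]
    push_cast
    rfl
  have hfib : ∀ z ∈ Z, ((E.filter (fun x => y x = z)).card : ℝ) ≤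
      D₁ * (Real.exp (ε * ((1 - η₁) * Λ)) + Real.exp (2 / 3 * (Λ + t)) *
        Real.exp (-(σ * lr T z))) := by
    intro z hz
    obtain ⟨x₀, hx₀, rfl⟩ := Finset.mem_image.1 hz
    have h3 := h1 (y x₀) ((Λ + t) / 3) (1 / 12) (E.filter (fun x => y x = y x₀)) (by
      intro x hx
      obtain ⟨hx1, hx2⟩ := Finset.mem_filter.1 hx
      obtain ⟨a1, a2, a3, a4, a5, a6⟩ := hE x hx1
      rw [hx2] at a6
      exact ⟨a1, a2, a6⟩)
    refine h3.trans (mul_le_mul_of_nonneg_left ?_ hD₁.le)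
    rw [mul_add, mul_one, ← Real.exp_add, ← Real.exp_add]
    refine add_le_add ?_ (le_of_eq ?_)
    · apply Real.exp_le_exp.2
      exact mul_le_mul_of_nonneg_left (hE x₀ hx₀).2.2.2.2.1 hε.le
    · congr 1
      rw [hσ]
      ring
  rw [hcard]
  refine (Finset.sum_le_sum hfib).trans ?_
  rw [← Finset.mul_sum, Finset.sum_add_distrib, ← Finset.mul_sum, Finset.sum_const, nsmul_eq_mul,
    mul_assoc D₁]
  refine mul_le_mul_of_nonneg_left ?_ hD₁.le
  have hL0 : 0 ≤ (1 - η₁) * Λ := mul_nonneg (by linarith) hΛ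
  have s1 : (Z.card : ℝ) * Real.exp (ε * ((1 - η₁) * Λ)) ≤
      A * Real.exp ((2 / 3 - η₁ / 3) * Λ) := by
    have h3 := hcount ((1 - η₁) * Λ) hL0
    have e1 : Z.filter (fun z => lr T z ≤ (1 - η₁) * Λ) = Z := by
      refine Finset.filter_true_of_mem fun z hz => ?_
      obtain ⟨x, hx, rfl⟩ := Finset.mem_image.1 hz
      exact (hE x hx).2.2.2.2.1
    rw [e1] at h3
    refine (mul_le_mul_of_nonneg_right h3 (Real.exp_pos _).le).trans ?_
    rw [mul_assoc, ← Real.exp_add]
    refine mul_le_mul_of_nonneg_left (Real.exp_le_exp.2 ?_) hA0.le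
    rw [← add_mul, ← mul_assoc]
    refine mul_le_mul_of_nonneg_right ?_ hΛ
    rw [hτ]
    nlinarith
  have s2 := sum_class Z (lr T) hA0.le hb hστ (by rw [hτ]; positivity) (fun z hz => by
    obtain ⟨x, hx, rfl⟩ := Finset.mem_image.1 hz
    exact (hE x hx).2.2.2.1) hcount
  have s3 : Real.exp (2 / 3 * (Λ + t)) * ∑ z ∈ Z, Real.exp (-(σ * lr T z)) ≤
      B * Real.exp (2 / 3 * Λ + 2 / 3 * t - 1 / 6 * b) := by
    refine (mul_le_mul_of_nonneg_left s2 (Real.exp_pos _).le).trans ?_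
    rw [← hB, mul_left_comm, ← Real.exp_add]
    refine mul_le_mul_of_nonneg_left (Real.exp_le_exp.2 ?_) hB0.le
    have : 1 / 6 * b ≤ (σ - τ) * b := mul_le_mul_of_nonneg_right (by rw [hσ, hτ]; linarith) hb
    linarith
  have p1 := Real.exp_pos ((2 / 3 - η₁ / 3) * Λ)
  have p2 := Real.exp_pos (2 / 3 * Λ + 2 / 3 * t - 1 / 6 * b)
  have q1 := mul_pos hA0 p2
  have q2 := mul_pos hB0 p1
  nlinarith

end Pool.Agent.K6.H25.RS
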