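import Pool.Agent.K6.H25.RS.Sum
import Pool.Agent.R365.SH.Three

/-!
# Points whose radical almost contains the radical of another point
-/

set_option autoImplicit false
set_option linter.unusedSectionVars false

namespace Pool.Agent.K6.H25.RS

open NumberField IsDedekindDomain Finset Pool.Agent.H691R3 Pool.Agent.W223.AK
open Pool.Agent.TH876.Loc (sp nn hgt mem_sp nn_pos one_le_nn nn_mono)
open Pool.Agent.TH876.KR (log_nn)
open Pool.Agent.W462.AK (card_le_mul_fib)
open Pool.Agent.R365.QP Pool.Agent.R365.RC Pool.Agent.R365.SH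

variable {K : Type} [Field K] [NumberField K]

/-- the truncated counting function is the radical -/
theorem NTc_eq_lr (T : Finset (Pr K)) {x : K} (hx : Pt x) :
    NTc (↑T : Set (Pr K)) (α3 K) x = lr T x := by
  classical
  rw [← R3_eq_NTc (↑T : Set (Pr K)) T.finite_toSet ((off_iff x).2 hx)]
  obtain ⟨P, hP⟩ := exists_isP T hx
  rw [R3_eq (T' := T) (fun v => Finset.mem_coe.symm) (x := z3 x)
    (by rw [z3_one]; exact one_ne_zero) (z3_sum _) (by rw [z3_div]; exact hP),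
    ← rl_Pr3_sum hP, rl_Pr3 hx hP]
  unfold lr
  congr

open Classical in
/-- the size of the symmetric difference -/
theorem sd_le {T : Finset (Pr K)} {x y : K} {η η₁ η' L : ℝ} (hη : 0 ≤ η) (hη1 : 0 ≤ η₁)
    (hη2 : η ≤ 1 / 2) (hη3 : 3 * η + η₁ ≤ η') (hL : 0 ≤ L) (hx : lr T x ≤ L)
    (hy : (1 - η₁) * L ≤ lr T y)
    (hxy : Real.log (nn ((sp y \ sp x) \ T)) ≤ η * lr T y) :
    Real.log (nn (sd T x y)) ≤ η' * L := by
  set a := Real.log (nn ((sp x \ sp y) \ T)) with ha
  set c := Real.log (nn ((sp y \ sp x) \ T)) with hc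
  set i := Real.log (nn ((sp x ∩ sp y) \ T)) with hi
  have e1 : lr T x = i + a := by
    unfold lr
    refine log_nn_split ?_ ?_
    · intro v
      simp only [Finset.mem_sdiff, Finset.mem_inter]
      tauto
    · intro v hv hv'
      simp only [Finset.mem_sdiff, Finset.mem_inter] at hv hv'
      exact hv'.1.2 hv.1.2
  have e2 : lr T y = i + c := by
    unfold lr
    refine log_nn_split ?_ ?_
    · intro v
      simp only [Finset.mem_sdiff, Finset.mem_inter]
      tauto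
    · intro v hv hv'
      simp only [Finset.mem_sdiff, Finset.mem_inter] at hv hv'
      exact hv'.1.2 hv.1.1
  have e3 : Real.log (nn (sd T x y)) = a + c := by
    unfold sd
    refine log_nn_split ?_ ?_
    · intro v
      simp only [Finset.mem_sdiff, Finset.mem_union]
      tauto
    · intro v hv hv'
      simp only [Finset.mem_sdiff] at hv hv'
      exact hv'.1.2 hv.1.1
  have ha0 : 0 ≤ a := Real.log_nonneg (one_le_nn _)
  have hc0 : 0 ≤ c := Real.log_nonneg (one_le_nn _)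
  have hi0 : 0 ≤ i := Real.log_nonneg (one_le_nn _)
  have hly : lr T y ≤ 2 * L := by
    have h1 : η * lr T y ≤ 1 / 2 * lr T y := mul_le_mul_of_nonneg_right hη2 (lr_nonneg T y)
    linarith
  have h2 : c ≤ η * (2 * L) := hxy.trans (mul_le_mul_of_nonneg_left hly hη)
  have h3 : (3 * η + η₁) * L ≤ η' * L := mul_le_mul_of_nonneg_right hη3 hL
  have h4 : (1 - η₁) * L - η * (2 * L) ≤ i := by linarith
  rw [e3]
  have h5 : a ≤ L - i := by linarith
  by_cases h6 : η * (2 * L) ≤ 0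
  · nlinarith
  · nlinarith

open Classical in
/-- **The affine theorem.** -/
theorem aff_supported (K : Type) [Field K] [NumberField K] (T : Finset (Pr K)) :
    ∃ η ν C : ℝ, 0 < η ∧ 0 < ν ∧ 0 < C ∧ ∀ (X b : ℝ), 1 ≤ X → 0 ≤ b → ∀ E : Finset K,
    (∀ x ∈ E, Pt x ∧ nn (sp x \ T) ≤ X ∧ ∃ y, Pt y ∧ ¬ IsPerm x y ∧ b ≤ lr T y ∧
      Real.log (nn ((sp y \ sp x) \ T)) ≤ η * lr T y) →
    (E.card : ℝ) ≤ C * (Real.exp (-(b / 48)) + X ^ (-ν)) * X ^ (2 / 3 : ℝ) := by
  obtain ⟨η', ν₀, C₀, hη', hν₀, -, hC₀, tw⟩ := aff_twins K T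
  set η₁ : ℝ := min (η' / 10) (1 / 2) with hη₁
  have hη₁0 : 0 < η₁ := lt_min (by positivity) (by norm_num)
  have hη₁a : η₁ ≤ η' / 10 := min_le_left _ _
  have hη₁b : η₁ ≤ 1 / 2 := min_le_right _ _
  set η : ℝ := min (η' / 10) (1 / 12) with hη
  have hη0 : 0 < η := lt_min (by positivity) (by norm_num)
  have hηa : η ≤ η' / 10 := min_le_left _ _
  have hηb : η ≤ 1 / 12 := min_le_right _ _
  obtain ⟨C₁, ν₁, hC₁, hν₁, up⟩ := all_upper (K := K) (q := 3) le_rfl (↑T : Set (Pr K))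
    T.finite_toSet (α3 K) α3_ne α3_wg (1 / 6) (by norm_num) (by norm_num)
  obtain ⟨C₂, hC₂, mid⟩ := mid_count (K := K) T hη₁0 (by linarith)
  set ν : ℝ := min ν₀ (min ν₁ (η₁ / 3)) with hν
  have hν0 : 0 < ν := lt_min hν₀ (lt_min hν₁ (by positivity))
  have hνa : ν ≤ ν₀ := min_le_left _ _
  have hνb : ν ≤ ν₁ := (min_le_right _ _).trans (min_le_left _ _)
  have hνc : ν ≤ η₁ / 3 := (min_le_right _ _).trans (min_le_right _ _)
  refine ⟨η, ν, C₀ + C₁ + C₂, hη0, hν0, by positivity, ?_⟩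
  intro X b hX hb E hE
  have hX0 : 0 < X := by linarith
  set L := Real.log X with hL'
  have hL : 0 ≤ L := Real.log_nonneg hX
  have hexp : ∀ a : ℝ, X ^ a = Real.exp (a * L) := fun a => by
    rw [Real.rpow_def_of_pos hX0, mul_comm]
  have hlog : ∀ z : K, nn (sp z \ T) ≤ X → lr T z ≤ L := fun z hz =>
    Real.log_le_log (nn_pos _) hz
  have hex : ∀ x : K, ∃ y : K, x ∈ E → (Pt y ∧ ¬ IsPerm x y ∧ b ≤ lr T y ∧
      Real.log (nn ((sp y \ sp x) \ T)) ≤ η * lr T y) := by
    intro x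
    by_cases hx : x ∈ E
    · obtain ⟨y, hy⟩ := (hE x hx).2.2
      exact ⟨y, fun _ => hy⟩
    · exact ⟨0, fun h => absurd h hx⟩
  choose y hy using hex
  set E1 := E.filter (fun x => (1 - η₁) * L ≤ lr T (y x)) with hE1
  set E' := E.filter (fun x => ¬ (1 - η₁) * L ≤ lr T (y x)) with hE'
  set E2 := E'.filter (fun x => (L + b / 8) / 3 ≤ ht x) with hE2
  set E3 := E'.filter (fun x => ¬ (L + b / 8) / 3 ≤ ht x) with hE3
  have hcard : E.card = E1.card + (E2.card + E3.card) := by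
    rw [hE2, hE3, Finset.card_filter_add_card_filter_not, hE1, hE',
      Finset.card_filter_add_card_filter_not]
  have k1 : (E1.card : ℝ) ≤ C₀ * Real.exp ((2 / 3 - ν) * L) := by
    have e1 := tw X hX E1 (fun x hx => by
      obtain ⟨hx1, hx2⟩ := Finset.mem_filter.1 hx
      obtain ⟨a1, a2, a3⟩ := hE x hx1
      obtain ⟨b1, b2, b3, b4⟩ := hy x hx1
      exact ⟨a1, a2, y x, b1, b2, sd_le hη0.le hη₁0.le (by linarith) (by linarith) hL
        (hlog x a2) hx2 b4⟩)
    rw [hexp] at e1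
    refine e1.trans (mul_le_mul_of_nonneg_left (Real.exp_le_exp.2 ?_) hC₀.le)
    exact mul_le_mul_of_nonneg_right (by linarith) hL
  have k2 : (E2.card : ℝ) ≤ C₁ * (Real.exp (2 / 3 * L - b / 48) +
      Real.exp ((2 / 3 - ν) * L)) := by
    have e1 := up L (b / 8) hL E2 (fun x hx => by
      obtain ⟨hx1, hx2⟩ := Finset.mem_filter.1 hx
      obtain ⟨hx3, hx4⟩ := Finset.mem_filter.1 hx1
      obtain ⟨a1, a2, a3⟩ := hE x hx3
      have h1 := hlog x a2
      refine ⟨(off_iff x).2 a1, ?_, ?_⟩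
      · rw [NTc_eq_lr T a1]
        exact h1
      · rw [NTc_eq_lr T a1]
        have h2 : ht x = hr (aff x) := rfl
        rw [← h2]
        push_cast
        linarith)
    refine e1.trans (mul_le_mul_of_nonneg_left ?_ hC₁.le)
    push_cast
    refine add_le_add (Real.exp_le_exp.2 ?_) (Real.exp_le_exp.2 ?_)
    · linarith
    · exact mul_le_mul_of_nonneg_right (by linarith) hL
  have k3 : (E3.card : ℝ) ≤ C₂ * (Real.exp ((2 / 3 - ν) * L) +
      Real.exp (2 / 3 * L - b / 48)) := by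
    have e1 := mid L (b / 8) b hL hb E3 y (fun x hx => by
      obtain ⟨hx1, hx2⟩ := Finset.mem_filter.1 hx
      obtain ⟨hx3, hx4⟩ := Finset.mem_filter.1 hx1
      obtain ⟨a1, a2, a3⟩ := hE x hx3
      obtain ⟨b1, b2, b3, b4⟩ := hy x hx3
      refine ⟨a1, (not_le.1 hx2).le, b1, b3, (not_le.1 hx4).le, b4.trans ?_⟩
      exact mul_le_mul_of_nonneg_right hηb (lr_nonneg T _))
    refine e1.trans (mul_le_mul_of_nonneg_left ?_ hC₂.le)
    refine add_le_add (Real.exp_le_exp.2 ?_) (Real.exp_le_exp.2 ?_)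
    · exact mul_le_mul_of_nonneg_right (by linarith) hL
    · linarith
  have e0 : (Real.exp (-(b / 48)) + X ^ (-ν)) * X ^ (2 / 3 : ℝ) =
      Real.exp (2 / 3 * L - b / 48) + Real.exp ((2 / 3 - ν) * L) := by
    rw [hexp, hexp, add_mul, ← Real.exp_add, ← Real.exp_add]
    congr 2 <;> ring
  rw [mul_assoc, e0, hcard]
  push_cast
  have p1 := Real.exp_pos (2 / 3 * L - b / 48)
  have p2 := Real.exp_pos ((2 / 3 - ν) * L)
  have q1 := mul_pos hC₀ p1
  linarith

end Pool.Agent.K6.H25.RS
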